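import Pool.Agent.H533R2.OG.P.EXT
import Pool.Agent.H899R2.VP.Bnd

set_option autoImplicit false

/-! BFE: the doubled structure is back-and-forth equivalent to the structure. -/

namespace Pool.Agent.H533R2.OG.P

open Set
open Pool.Agent.H899R2.VP (BF PIso)
open Pool.Agent.H533R2.OG

theorem bfe_top_zero {r : ℕ → ℕ → Bool} {ν : ℕ} (h : Top r 0 ν) : False := by
  exact h.1 rfl

theorem bfe_top_unique {r : ℕ → ℕ → Bool} (hr : SLO r) {a : A} {ν κ : ℕ} (h : Top r a ν)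
    (h' : Top r a κ) : ν = κ := by
  by_contra hne
  rcases h.2 κ h'.1 with h1 | h1
  · exact hne h1.symm
  · rcases h'.2 ν h.1 with h2 | h2
    · exact hne h2
    · have h3 := hr.2.1 _ _ _ h1 h2
      rw [hr.1] at h3
      exact Bool.false_ne_true h3

/-- `Ex` and `Far` exclude each other. -/
theorem bfe_ex_far {r : ℕ → ℕ → Bool} (hr : SLO r) {μ : ℕ} {v w v' w' : V}
    (h : Ex r μ v w v' w') : ¬ Far r μ v w ∧ ¬ Far r μ v' w' := by
  obtain ⟨h1, h2, h3⟩ := h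
  constructor
  · rintro (h4 | ⟨ν, h4, h5⟩)
    · exact h4 h1
    · rcases h3 with h3 | ⟨κ, h6, h7, h8, h9⟩
      · rw [h3.1, sub_self] at h5
        exact bfe_top_zero h5
      · have := bfe_top_unique hr h5 h7
        rw [this, h6] at h4
        exact Bool.false_ne_true h4.symm
  · rintro (h4 | ⟨ν, h4, h5⟩)
    · exact h4 h2
    · rcases h3 with h3 | ⟨κ, h6, h7, h8, h9⟩
      · rw [h3.2, sub_self] at h5
        exact bfe_top_zero h5
      · have := bfe_top_unique hr h5 h8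
        rw [this, h6] at h4
        exact Bool.false_ne_true h4.symm

theorem bfe_ex_symm {r : ℕ → ℕ → Bool} {μ : ℕ} {v w v' w' : V}
    (h : Ex r μ v w v' w') : Ex r μ v' w' v w := by
  obtain ⟨h1, h2, h3⟩ := h
  refine ⟨h2, h1, ?_⟩
  rcases h3 with h3 | ⟨κ, h6, h7, h8, h9⟩
  · exact Or.inl ⟨h3.2, h3.1⟩
  · exact Or.inr ⟨κ, h6, h8, h7, h9.symm⟩

theorem bfe_eqv_symm {r : ℕ → ℕ → Bool} {ε : ℕ → Bool} {μ : ℕ} {v w v' w' : V}
    (h : Eqv r ε μ v w v' w') : Eqv r ε μ v' w' v w := by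
  rcases h with h | ⟨h1, h2, h3⟩
  · exact Or.inl (bfe_ex_symm h)
  · exact Or.inr ⟨h2, h1, h3.symm⟩

theorem bfe_ex_trans {r : ℕ → ℕ → Bool} (hr : SLO r) {μ : ℕ} {v w v' w' v'' w'' : V}
    (h : Ex r μ v w v' w') (h' : Ex r μ v' w' v'' w'') : Ex r μ v w v'' w'' := by
  obtain ⟨h1, h2, h3⟩ := h
  obtain ⟨k1, k2, k3⟩ := h'
  refine ⟨h1, k2, ?_⟩
  rcases h3 with h3 | ⟨κ, h6, h7, h8, h9⟩
  · rcases k3 with k3 | ⟨κ', k6, k7, k8, k9⟩
    · exact Or.inl ⟨h3.1, k3.2⟩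
    · rw [h3.2, sub_self] at k7
      exact (bfe_top_zero k7).elim
  · rcases k3 with k3 | ⟨κ', k6, k7, k8, k9⟩
    · rw [k3.1, sub_self] at h8
      exact (bfe_top_zero h8).elim
    · have := bfe_top_unique hr h8 k7
      subst this
      exact Or.inr ⟨κ, h6, h7, k8, h9.trans k9⟩

theorem bfe_eqv_trans {r : ℕ → ℕ → Bool} (hr : SLO r) {ε : ℕ → Bool} {μ : ℕ}
    {v w v' w' v'' w'' : V}
    (h : Eqv r ε μ v w v' w') (h' : Eqv r ε μ v' w' v'' w'') : Eqv r ε μ v w v'' w'' := by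
  rcases h with h | ⟨h1, h2, h3⟩
  · rcases h' with h' | ⟨k1, k2, k3⟩
    · exact Or.inl (bfe_ex_trans hr h h')
    · exact ((bfe_ex_far hr h).2 k1).elim
  · rcases h' with h' | ⟨k1, k2, k3⟩
    · exact ((bfe_ex_far hr h').1 h2).elim
    · exact Or.inr ⟨h1, k2, h3.trans k3⟩

theorem bfe_pos_iff {r : ℕ → ℕ → Bool} (hr : SLO r) {ε : ℕ → Bool} {a b : A} {ν : ℕ}
    (ha : Top r a ν) (hb : Top r b ν) (hab : a ν = b ν) : Pos r ε a ↔ Pos r ε b := by
  constructor
  · rintro ⟨κ, h1, h2⟩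
    have := bfe_top_unique hr h1 ha
    subst this
    exact ⟨κ, hb, by rw [← hab]; exact h2⟩
  · rintro ⟨κ, h1, h2⟩
    have := bfe_top_unique hr h1 hb
    subst this
    exact ⟨κ, ha, by rw [hab]; exact h2⟩

/-- monotone in the level -/
theorem bfe_eqv_mono {r : ℕ → ℕ → Bool} (hr : SLO r) {ε : ℕ → Bool} {μ l : ℕ}
    (hl : μ = l ∨ r μ l = true) {v w v' w' : V}
    (h : Eqv r ε l v w v' w') : Eqv r ε μ v w v' w' := by
  rcases hl with hl | hl
  · rw [hl]; exact h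
  have hfar : ∀ {x y : V}, Far r l x y → Far r μ x y := by
    intro x y hf
    rcases hf with hf | ⟨ν, h1, h2⟩
    · exact Or.inl hf
    · refine Or.inr ⟨ν, ?_, h2⟩
      by_contra h3
      have h4 : r ν μ = true := by
        cases hh : r ν μ
        · exact (h3 hh).elim
        · rfl
      have h5 := hr.2.1 _ _ _ h4 hl
      rw [h1] at h5
      exact Bool.false_ne_true h5
  rcases h with h | ⟨h1, h2, h3⟩
  · obtain ⟨h1, h2, h3⟩ := h
    rcases h3 with h3 | ⟨κ, h6, h7, h8, h9⟩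
    · exact Or.inl ⟨h1, h2, Or.inl h3⟩
    · cases hk : r κ μ
      · refine Or.inr ⟨Or.inr ⟨κ, hk, h7⟩, Or.inr ⟨κ, hk, h8⟩, ?_⟩
        have hp := bfe_pos_iff hr (ε := ε) h7 h8 h9
        constructor
        · rintro (h | ⟨_, h⟩)
          · rw [h1] at h
            exact (Bool.false_ne_true (h.1.symm.trans h.2)).elim
          · exact Or.inr ⟨h2, hp.1 h⟩
        · rintro (h | ⟨_, h⟩)
          · rw [h2] at h
            exact (Bool.false_ne_true (h.1.symm.trans h.2)).elim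
          · exact Or.inr ⟨h1, hp.2 h⟩
      · exact Or.inl ⟨h1, h2, Or.inr ⟨κ, hk, h7, h8, h9⟩⟩
  · exact Or.inr ⟨hfar h1, hfar h2, h3⟩

/-- The diagonal. -/
theorem bfe_eqv_diag {r : ℕ → ℕ → Bool} {ε : ℕ → Bool} {μ : ℕ} (v v' : V) :
    Eqv r ε μ v v v' v' := Or.inl ⟨rfl, rfl, Or.inl ⟨rfl, rfl⟩⟩

theorem bfe_far_irrefl {r : ℕ → ℕ → Bool} {μ : ℕ} {v : V} (h : Far r μ v v) : False := by
  rcases h with h | ⟨ν, _, h⟩
  · exact h rfl
  · rw [sub_self] at h
    exact bfe_top_zero h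

theorem bfe_eqv_eq {r : ℕ → ℕ → Bool} {ε : ℕ → Bool} {μ : ℕ} {v v' w' : V}
    (h : Eqv r ε μ v v v' w') : v' = w' := by
  rcases h with ⟨_, h2, h3 | ⟨κ, _, h7, _⟩⟩ | ⟨h1, _⟩
  · exact Prod.ext h3.2 h2
  · rw [sub_self] at h7
    exact (bfe_top_zero h7).elim
  · exact (bfe_far_irrefl h1).elim

/-- The hypothesis of the induction. -/
def HH (r : ℕ → ℕ → Bool) (ε : ℕ → Bool) (e : ℕ ≃ A) (e' : ℕ ≃ V) (l : ℕ)
    (p : Set (ℕ × ℕ)) : Prop :=
  ∀ u ∈ p, ∀ v ∈ p, Eqv r ε l (e u.1, false) (e v.1, false) (e' u.2) (e' v.2)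

open Classical in
theorem bfe_piso {r : ℕ → ℕ → Bool} (hr : SLO r) (ε : ℕ → Bool) {ar : ℕ → ℕ} (e : ℕ ≃ A)
    (e' : ℕ ≃ V) (N : RS ar) (μ : ℕ) (hT : Triv r ε μ e N) (p : Set (ℕ × ℕ))
    (hp : HH r ε e e' μ p) :
    PIso ((fun _ _ => false), N) ((fun _ _ => false), dbl r ε μ e e' N) p := by
  refine ⟨?_, fun _ _ _ _ => rfl, ?_⟩
  · intro u hu v hv
    constructor
    · intro h
      have h1 := hp u hu v hv
      rw [h] at h1
      exact e'.injective (bfe_eqv_eq h1)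
    · intro h
      have h1 := bfe_eqv_symm (hp u hu v hv)
      rw [h] at h1
      have h2 := bfe_eqv_eq h1
      exact e.injective (congrArg Prod.fst h2)
  · intro i t ht
    show N i (fun k => (t k).1) = dbl r ε μ e e' N i (fun k => (t k).2)
    unfold dbl
    cases hN : N i (fun k => (t k).1)
    · symm
      rw [decide_eq_false_iff_not]
      rintro ⟨s, hs, hs'⟩
      have h1 : N i s = N i (fun k => (t k).1) := by
        apply hT
        intro a b
        exact bfe_eqv_trans hr (hs a b)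
          (bfe_eqv_symm (hp (t a) (ht a) (t b) (ht b)))
      rw [hs', hN] at h1
      exact Bool.false_ne_true h1.symm
    · symm
      rw [decide_eq_true_iff]
      exact ⟨fun k => (t k).1, fun a b => hp (t a) (ht a) (t b) (ht b), hN⟩

theorem bfe_main {r : ℕ → ℕ → Bool} (hr : SLO r) (ε : ℕ → Bool) {ar : ℕ → ℕ} (e : ℕ ≃ A)
    (e' : ℕ ≃ V) (N : RS ar) (μ : ℕ) (hT : Triv r ε μ e N) (γ : Ordinal.{0})
    (l : Ordinal.{0} → ℕ) (h0 : l 0 = μ)
    (hl : ∀ o o' : Ordinal.{0}, o < o' → o' < γ → r (l o) (l o') = true) (o : Ordinal.{0}) :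
    o < γ → ∀ p : Set (ℕ × ℕ), p.Finite → HH r ε e e' (l o) p →
    BF ((fun _ _ => false), N) ((fun _ _ => false), dbl r ε μ e e' N) univ univ o p := by
  induction o using WellFoundedLT.induction with
  | ind o ih =>
  intro ho p hpf hp
  rw [BF]
  have hlev : μ = l o ∨ r μ (l o) = true := by
    rcases eq_or_lt_of_le (bot_le : (0 : Ordinal.{0}) ≤ o) with h | h
    · left
      have h' : (0 : Ordinal.{0}) = o := h
      rw [← h', h0]
    · right; rw [← h0]; exact hl 0 o h ho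
  refine ⟨bfe_piso hr ε e e' N μ hT p (fun u hu v hv => bfe_eqv_mono hr hlev (hp u hu v hv)), ?_⟩
  intro o' ho'
  have hll := hl o' o ho' ho
  constructor
  · intro x _
    obtain ⟨y, _, hy⟩ := ext_step hr ε hll ((fun u : ℕ × ℕ => (((e u.1, false) : V), e' u.2)) '' p)
      (hpf.image _) (by
        rintro _ ⟨u, hu, rfl⟩ _ ⟨v, hv, rfl⟩
        exact hp u hu v hv) (e x, false)
    refine ⟨e'.symm y, mem_univ _, ih o' ho' (ho'.trans ho) _ (hpf.insert _) ?_⟩
    have key : ∀ u ∈ insert (x, e'.symm y) p, (((e u.1, false) : V), e' u.2) ∈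
        insert (((e x, false) : V), y)
          ((fun u : ℕ × ℕ => (((e u.1, false) : V), e' u.2)) '' p) := by
      intro u hu
      rcases hu with hu | hu
      · left; rw [hu]; simp
      · right; exact ⟨u, hu, rfl⟩
    intro u hu v hv
    exact hy _ (key u hu) _ (key v hv)
  · intro y _
    obtain ⟨x, hx, hy⟩ := ext_step hr ε hll ((fun u : ℕ × ℕ => (e' u.2, ((e u.1, false) : V))) '' p)
      (hpf.image _) (by
        rintro _ ⟨u, hu, rfl⟩ _ ⟨v, hv, rfl⟩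
        exact bfe_eqv_symm (hp u hu v hv)) (e' y)
    have hx2 : x.2 = false := by
      rcases hx with hx | ⟨u, ⟨w, _, rfl⟩, hx⟩
      · exact hx
      · exact hx
    have hx3 : x = (e (e.symm x.1), false) := by
      rw [Equiv.apply_symm_apply]
      exact Prod.ext rfl hx2
    refine ⟨e.symm x.1, mem_univ _, ih o' ho' (ho'.trans ho) _ (hpf.insert _) ?_⟩
    have key : ∀ u ∈ insert (e.symm x.1, y) p, (e' u.2, ((e u.1, false) : V)) ∈
        insert (e' y, x)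
          ((fun u : ℕ × ℕ => (e' u.2, ((e u.1, false) : V))) '' p) := by
      intro u hu
      rcases hu with hu | hu
      · left; rw [hu]; exact Prod.ext rfl hx3.symm
      · right; exact ⟨u, hu, rfl⟩
    intro u hu v hv
    exact bfe_eqv_symm (hy _ (key u hu) _ (key v hv))

/-- BFE -/
theorem bf_double {r : ℕ → ℕ → Bool} (hr : SLO r) (ε : ℕ → Bool) {ar : ℕ → ℕ} (e : ℕ ≃ A)
    (e' : ℕ ≃ V) (N : RS ar) (μ : ℕ) (hT : Triv r ε μ e N) (γ : Ordinal.{0})
    (l : Ordinal.{0} → ℕ) (h0 : l 0 = μ)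
    (hl : ∀ o o' : Ordinal.{0}, o < o' → o' < γ → r (l o) (l o') = true) :
    BF ((fun _ _ => false), N) ((fun _ _ => false), dbl r ε μ e e' N) univ univ γ ∅ := by
  rw [BF]
  refine ⟨bfe_piso hr ε e e' N μ hT ∅ (fun u hu => hu.elim), ?_⟩
  have hdiag : ∀ (L : ℕ) (x y : ℕ), HH r ε e e' L (insert (x, y) ∅) := by
    intro L x y u hu v hv
    rcases hu with hu | hu
    · rcases hv with hv | hv
      · rw [hu, hv]; exact bfe_eqv_diag _ _
      · exact hv.elim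
    · exact hu.elim
  intro o' ho'
  refine ⟨fun x _ => ⟨0, mem_univ _, ?_⟩, fun y _ => ⟨0, mem_univ _, ?_⟩⟩
  · exact bfe_main hr ε e e' N μ hT γ l h0 hl o' ho' _ (finite_empty.insert _) (hdiag _ _ _)
  · exact bfe_main hr ε e e' N μ hT γ l h0 hl o' ho' _ (finite_empty.insert _) (hdiag _ _ _)

end Pool.Agent.H533R2.OG.P
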