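import Pool.Agent.H533R2.OG.Defs

/-!
Task BOR (helper690): the exceptional set is measurable.
-/

set_option autoImplicit false

namespace Pool.Agent.H533R2.OG.P

open Set MeasureTheory

namespace BOR

/-- `p` defines a clopen set. -/
def Cp {X : Type} [TopologicalSpace X] (p : X → Prop) : Prop := IsClopen {x | p x}

section
variable {X : Type} [TopologicalSpace X]

theorem Cp.const (c : Prop) : Cp (fun _ : X => c) := by
  unfold Cp
  by_cases h : c
  · simp only [h, setOf_true]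
    exact isClopen_univ
  · simp only [h, setOf_false]
    exact isClopen_empty

theorem Cp.and {p q : X → Prop} (hp : Cp p) (hq : Cp q) : Cp (fun x => p x ∧ q x) :=
  IsClopen.inter hp hq

theorem Cp.or {p q : X → Prop} (hp : Cp p) (hq : Cp q) : Cp (fun x => p x ∨ q x) :=
  IsClopen.union hp hq

theorem Cp.not {p : X → Prop} (hp : Cp p) : Cp (fun x => ¬ p x) :=
  IsClopen.compl hp

theorem Cp.congr {p q : X → Prop} (hp : Cp p) (h : ∀ x, p x ↔ q x) : Cp q := by
  have e : p = q := funext fun x => propext (h x)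
  rw [← e]
  exact hp

theorem Cp.imp {p q : X → Prop} (hp : Cp p) (hq : Cp q) : Cp (fun x => p x → q x) :=
  (hp.not.or hq).congr fun _ => imp_iff_not_or.symm

theorem Cp.iff {p q : X → Prop} (hp : Cp p) (hq : Cp q) : Cp (fun x => p x ↔ q x) :=
  ((hp.imp hq).and (hq.imp hp)).congr fun _ => ⟨fun h => ⟨h.1, h.2⟩, fun h => ⟨h.1, h.2⟩⟩

theorem Cp.all {ι : Type} [Finite ι] {p : ι → X → Prop} (hp : ∀ i, Cp (p i)) :
    Cp (fun x => ∀ i, p i x) := by
  have : {x | ∀ i, p i x} = ⋂ i, {x | p i x} := by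
    ext x
    simp only [mem_setOf_eq, mem_iInter]
  unfold Cp
  rw [this]
  exact isClopen_iInter_of_finite hp

theorem Cp.exFin {ι : Type} (s : Finset ι) {p : ι → X → Prop} (hp : ∀ i, Cp (p i)) :
    Cp (fun x => ∃ i ∈ s, p i x) := by
  have : {x | ∃ i ∈ s, p i x} = ⋃ i ∈ s, {x | p i x} := by
    ext x
    simp only [mem_setOf_eq, mem_iUnion, exists_prop]
  unfold Cp
  rw [this]
  exact s.finite_toSet.isClopen_biUnion fun i _ => hp i

theorem Cp.allFin {ι : Type} (s : Finset ι) {p : ι → X → Prop} (hp : ∀ i, Cp (p i)) :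
    Cp (fun x => ∀ i ∈ s, p i x) := by
  have : {x | ∀ i ∈ s, p i x} = ⋂ i ∈ s, {x | p i x} := by
    ext x
    simp only [mem_setOf_eq, mem_iInter]
  unfold Cp
  rw [this]
  exact s.finite_toSet.isClopen_biInter fun i _ => hp i

theorem Cp.eqB {f : X → Bool} (hf : Continuous f) (b : Bool) : Cp (fun x => f x = b) :=
  (isClopen_discrete {b}).preimage hf

theorem Cp.eqBB {f g : X → Bool} (hf : Continuous f) (hg : Continuous g) :
    Cp (fun x => f x = g x) := by
  refine (((Cp.eqB hf true).iff (Cp.eqB hg true))).congr fun x => ?_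
  cases f x <;> cases g x <;> simp

variable {R : X → (ℕ → ℕ → Bool)} (hR : ∀ m n, Continuous fun x => R x m n)
variable {E : X → (ℕ → Bool)} (hE : ∀ m, Continuous fun x => E x m)

include hR in
theorem cp_top (a : A) (ν : ℕ) : Cp (fun x => Top (R x) a ν) := by
  have h : Cp (fun x => a ν ≠ 0 ∧ ∀ κ ∈ a.support, (κ = ν ∨ R x κ ν = true)) :=
    (Cp.const _).and (Cp.allFin _ fun κ => (Cp.const _).or (Cp.eqB (hR κ ν) true))
  refine h.congr fun x => ?_
  unfold Top
  simp only [Finsupp.mem_support_iff]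

theorem mem_of_top {r : ℕ → ℕ → Bool} {a : A} {ν : ℕ} (h : Top r a ν) : ν ∈ a.support :=
  Finsupp.mem_support_iff.mpr h.1

include hR hE in
theorem cp_pos (a : A) : Cp (fun x => Pos (R x) (E x) a) := by
  have h : Cp (fun x => ∃ ν ∈ a.support, (Top (R x) a ν ∧ 0 < sg (E x ν) * a ν)) := by
    refine Cp.exFin _ fun ν => (cp_top hR a ν).and ?_
    have h2 : Cp (fun x => (E x ν = true ∧ 0 < sg true * a ν) ∨
        (E x ν = false ∧ 0 < sg false * a ν)) :=
      ((Cp.eqB (hE ν) true).and (Cp.const _)).or ((Cp.eqB (hE ν) false).and (Cp.const _))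
    refine h2.congr fun x => ?_
    cases E x ν <;> simp
  refine h.congr fun x => ?_
  constructor
  · rintro ⟨ν, _, h⟩
    exact ⟨ν, h⟩
  · rintro ⟨ν, h⟩
    exact ⟨ν, mem_of_top h.1, h⟩

include hR hE in
theorem cp_lt (v w : V) : Cp (fun x => Lt (R x) (E x) v w) :=
  (Cp.const _).or ((Cp.const _).and (cp_pos hR hE _))

include hR in
theorem cp_exA (v w v' w' : A) : Cp (fun x => ExA (R x) v w v' w') := by
  refine (Cp.const _).or ?_
  have h : Cp (fun x => ∃ ν ∈ (w - v).support, (Top (R x) (w - v) ν ∧ Top (R x) (w' - v') ν ∧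
      (w - v) ν = (w' - v') ν)) :=
    Cp.exFin _ fun ν => (cp_top hR _ ν).and ((cp_top hR _ ν).and (Cp.const _))
  refine h.congr fun x => ?_
  constructor
  · rintro ⟨ν, _, h⟩
    exact ⟨ν, h⟩
  · rintro ⟨ν, h⟩
    exact ⟨ν, mem_of_top h.1, h⟩

include hR in
theorem cp_ex (μ : ℕ) (v w v' w' : V) : Cp (fun x => Ex (R x) μ v w v' w') := by
  refine (Cp.const _).and ((Cp.const _).and ((Cp.const _).or ?_))
  have h : Cp (fun x => ∃ ν ∈ (w.1 - v.1).support, (R x ν μ = true ∧ Top (R x) (w.1 - v.1) ν ∧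
      Top (R x) (w'.1 - v'.1) ν ∧ (w.1 - v.1) ν = (w'.1 - v'.1) ν)) :=
    Cp.exFin _ fun ν => (Cp.eqB (hR ν μ) true).and
      ((cp_top hR _ ν).and ((cp_top hR _ ν).and (Cp.const _)))
  refine h.congr fun x => ?_
  constructor
  · rintro ⟨ν, _, h⟩
    exact ⟨ν, h⟩
  · rintro ⟨ν, h⟩
    exact ⟨ν, mem_of_top h.2.1, h⟩

include hR in
theorem cp_far (μ : ℕ) (v w : V) : Cp (fun x => Far (R x) μ v w) := by
  refine (Cp.const _).or ?_
  have h : Cp (fun x => ∃ ν ∈ (w.1 - v.1).support, (R x ν μ = false ∧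
      Top (R x) (w.1 - v.1) ν)) :=
    Cp.exFin _ fun ν => (Cp.eqB (hR ν μ) false).and (cp_top hR _ ν)
  refine h.congr fun x => ?_
  constructor
  · rintro ⟨ν, _, h⟩
    exact ⟨ν, h⟩
  · rintro ⟨ν, h⟩
    exact ⟨ν, mem_of_top h.2, h⟩

include hR hE in
theorem cp_eqv (μ : ℕ) (v w v' w' : V) : Cp (fun x => Eqv (R x) (E x) μ v w v' w') :=
  (cp_ex hR μ v w v' w').or ((cp_far hR μ v w).and ((cp_far hR μ v' w').and
    ((cp_lt hR hE v w).iff (cp_lt hR hE v' w'))))

variable {ar : ℕ → ℕ} {Nf : X → RS ar}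
  (hN : ∀ (i : ℕ) (s : Fin (ar i) → ℕ), Continuous fun x => Nf x i s)

include hR hE hN in
theorem closed_triv (μ : ℕ) (e : ℕ ≃ A) : IsClosed {x | Triv (R x) (E x) μ e (Nf x)} := by
  have : {x | Triv (R x) (E x) μ e (Nf x)} = ⋂ (i : ℕ), ⋂ (s : Fin (ar i) → ℕ),
      ⋂ (t : Fin (ar i) → ℕ), {x | (∀ p q, Eqv (R x) (E x) μ (e (s p), false) (e (s q), false)
        (e (t p), false) (e (t q), false)) → Nf x i s = Nf x i t} := by
    ext x
    simp only [mem_setOf_eq, mem_iInter]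
    exact Iff.rfl
  rw [this]
  refine isClosed_iInter fun i => isClosed_iInter fun s => isClosed_iInter fun t => ?_
  have h : Cp (fun x => (∀ p q, Eqv (R x) (E x) μ (e (s p), false) (e (s q), false)
        (e (t p), false) (e (t q), false)) → Nf x i s = Nf x i t) :=
    Cp.imp (Cp.all fun p => Cp.all fun q => cp_eqv hR hE μ _ _ _ _)
      (Cp.eqBB (hN i s) (hN i t))
  exact h.1

include hR hN in
theorem closed_inv (e : ℕ ≃ A) : IsClosed {x | Inv (R x) e (Nf x)} := by
  have : {x | Inv (R x) e (Nf x)} = ⋂ (i : ℕ), ⋂ (s : Fin (ar i) → ℕ),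
      ⋂ (t : Fin (ar i) → ℕ), {x | (∀ p q, ExA (R x) (e (s p)) (e (s q)) (e (t p)) (e (t q))) →
        Nf x i s = Nf x i t} := by
    ext x
    simp only [mem_setOf_eq, mem_iInter]
    exact Iff.rfl
  rw [this]
  refine isClosed_iInter fun i => isClosed_iInter fun s => isClosed_iInter fun t => ?_
  have h : Cp (fun x => (∀ p q, ExA (R x) (e (s p)) (e (s q)) (e (t p)) (e (t q))) →
        Nf x i s = Nf x i t) :=
    Cp.imp (Cp.all fun p => Cp.all fun q => cp_exA hR _ _ _ _)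
      (Cp.eqBB (hN i s) (hN i t))
  exact h.1

include hR in
theorem closed_slo : IsClosed {x | SLO (R x)} := by
  have : {x | SLO (R x)} = (⋂ m, {x | R x m m = false}) ∩
      ((⋂ (l : ℕ), ⋂ (m : ℕ), ⋂ (n : ℕ), {x | R x l m = true → R x m n = true → R x l n = true}) ∩
      (⋂ (m : ℕ), ⋂ (n : ℕ), {x | m ≠ n → R x m n = true ∨ R x n m = true})) := by
    ext x
    simp only [mem_setOf_eq, mem_iInter, mem_inter_iff]
    exact Iff.rfl
  rw [this]
  refine IsClosed.inter (isClosed_iInter fun m => (Cp.eqB (hR m m) false).1) (IsClosed.inter ?_ ?_)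
  · refine isClosed_iInter fun l => isClosed_iInter fun m => isClosed_iInter fun n => ?_
    exact (Cp.imp (Cp.eqB (hR l m) true) (Cp.imp (Cp.eqB (hR m n) true) (Cp.eqB (hR l n) true))).1
  · refine isClosed_iInter fun m => isClosed_iInter fun n => ?_
    exact (Cp.imp (Cp.const _) (Cp.or (Cp.eqB (hR m n) true) (Cp.eqB (hR n m) true))).1

end

end BOR

open BOR in
/-- BOR -/
theorem meas_U {ar : ℕ → ℕ} (e : ℕ ≃ A) (S : Set (RS ar)) (hS : MeasurableSet S) :
    MeasurableSet (Uset e S) := by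
  have hR : ∀ m n, Continuous fun P : (ℕ → ℕ → Bool) × RS ar => P.1 m n := fun m n =>
    (continuous_apply n).comp ((continuous_apply m).comp continuous_fst)
  have hN : ∀ (i : ℕ) (s : Fin (ar i) → ℕ), Continuous fun P : (ℕ → ℕ → Bool) × RS ar =>
      P.2 i s := fun i s =>
    (continuous_apply s).comp ((continuous_apply i).comp continuous_snd)
  have h4 : ∀ μ, IsClosed {P : (ℕ → ℕ → Bool) × RS ar | ∃ ε, Triv P.1 ε μ e P.2} := by
    intro μ
    have hc : IsClosed {Q : (ℕ → Bool) × ((ℕ → ℕ → Bool) × RS ar) |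
        Triv Q.2.1 Q.1 μ e Q.2.2} := by
      refine closed_triv (X := (ℕ → Bool) × ((ℕ → ℕ → Bool) × RS ar))
        (R := fun Q => Q.2.1) (E := fun Q => Q.1) (Nf := fun Q => Q.2.2) ?_ ?_ ?_ μ e
      · exact fun m n => (hR m n).comp continuous_snd
      · exact fun m => (continuous_apply m).comp continuous_fst
      · exact fun i s => (hN i s).comp continuous_snd
    have h5 := isClosedMap_snd_of_compactSpace _ hc
    have : {P : (ℕ → ℕ → Bool) × RS ar | ∃ ε, Triv P.1 ε μ e P.2} =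
        Prod.snd '' {Q : (ℕ → Bool) × ((ℕ → ℕ → Bool) × RS ar) |
          Triv Q.2.1 Q.1 μ e Q.2.2} := by
      ext P
      constructor
      · rintro ⟨ε, h⟩
        exact ⟨(ε, P), h, rfl⟩
      · rintro ⟨⟨ε, P'⟩, h, rfl⟩
        exact ⟨ε, h⟩
    rw [this]
    exact h5
  have e1 : Uset e S = {P : (ℕ → ℕ → Bool) × RS ar | SLO P.1} ∩
      ({P : (ℕ → ℕ → Bool) × RS ar | Inv P.1 e P.2} ∩ (Prod.snd ⁻¹' S ∩
        ⋂ μ, {P : (ℕ → ℕ → Bool) × RS ar | ∃ ε, Triv P.1 ε μ e P.2}ᶜ)) := by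
    ext P
    simp only [mem_inter_iff, mem_iInter, mem_compl_iff, mem_setOf_eq, mem_preimage]
    exact Iff.rfl
  rw [e1]
  have m1 : MeasurableSet {P : (ℕ → ℕ → Bool) × RS ar | SLO P.1} :=
    (closed_slo (R := fun P : (ℕ → ℕ → Bool) × RS ar => P.1) hR).measurableSet
  have m2 : MeasurableSet {P : (ℕ → ℕ → Bool) × RS ar | Inv P.1 e P.2} :=
    (closed_inv (R := fun P : (ℕ → ℕ → Bool) × RS ar => P.1) (Nf := fun P => P.2)
      hR hN e).measurableSet
  exact m1.inter (m2.inter ((measurable_snd hS).inter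
    (MeasurableSet.iInter fun μ => (h4 μ).measurableSet.compl)))

end Pool.Agent.H533R2.OG.P
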