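import Pool.Agent.H533R2.OG.Defs
import Pool.Agent.H899R2.VP.Bnd

set_option autoImplicit false

/-! Task CLOSED: the range of a Borel injective equivariant coding is closed under back-and-forth
equivalence of some countable rank (helper317; the boundedness argument is that of
`Pool.Agent.H899R2.VP.Borel.closed_rank`). -/

namespace Pool.Agent.H533R2.OG.P

open Set MeasureTheory
open Pool.Agent.H899R2.VP (BF St IsoOn PIso bounding)

theorem exists_equiv' {a : ℕ → ℕ} {N N' : St a} {p : Set (ℕ × ℕ)}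
    (h : IsoOn N N' univ univ p) :
    ∃ e : ℕ ≃ ℕ, PIso N N' {u | u.2 = e u.1} := by
  obtain ⟨q, hpq, -, hq, h1, h2⟩ := h
  choose f hf using fun x => h1 x (mem_univ x)
  choose g hg using fun y => h2 y (mem_univ y)
  refine ⟨⟨f, g, fun x => ?_, fun y => ?_⟩, ?_⟩
  · exact (hq.1 _ (hg (f x)) _ (hf x)).2 rfl
  · exact (hq.1 _ (hf (g y)) _ (hg y)).1 rfl
  · have hsub : {u : ℕ × ℕ | u.2 = f u.1} ⊆ q := by
      rintro ⟨u, v⟩ (rfl : v = f u)
      exact hf u
    exact ⟨fun u hu v hv => hq.1 u (hsub hu) v (hsub hv),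
      fun u hu v hv => hq.2.1 u (hsub hu) v (hsub hv),
      fun i t ht => hq.2.2 i t (fun k => hsub (ht k))⟩

theorem polish_of' {X : Type*} [TopologicalSpace X] [h1 : SecondCountableTopology X]
    [h2 : TopologicalSpace.IsCompletelyMetrizableSpace X] : PolishSpace X := { h1, h2 with }

theorem closed_rank' {a : ℕ → ℕ} {K : Set (St a)} (hK : MeasurableSet K)
    (hinv : ∀ M ∈ K, ∀ N : St a, IsoOn M N univ univ ∅ → N ∈ K) :
    ∃ α : Ordinal.{0}, α < Ordinal.omega 1 ∧ ∀ M ∈ K, ∀ N : St a,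
      BF M N univ univ α ∅ → N ∈ K := by
  by_contra hcon
  push Not at hcon
  have b1 : BorelSpace ((i : ℕ) → (Fin (a i) → ℕ) → Bool) := inferInstance
  have b2 : BorelSpace (ℕ → ℕ → Bool) := inferInstance
  have s1 : SecondCountableTopology (St a) := inferInstance
  have b3 : BorelSpace (St a) := inferInstance
  have b4 : BorelSpace (St a × St a) := inferInstance
  have b5 : PolishSpace (St a × St a) := polish_of'
  have han : AnalyticSet (K ×ˢ Kᶜ) := (hK.prod hK.compl).analyticSet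
  rw [AnalyticSet] at han
  rcases han with he | ⟨f, hf, hr⟩
  · obtain ⟨M, hM, N, -, hN⟩ := hcon 0 (Ordinal.omega_pos 1)
    have : (M, N) ∈ K ×ˢ Kᶜ := ⟨hM, hN⟩
    rw [he] at this
    exact this
  · obtain ⟨z, hz⟩ := bounding f hf ∅ (by
      intro β hβ
      obtain ⟨M, hM, N, hb, hN⟩ := hcon β hβ
      have : (M, N) ∈ range f := by rw [hr]; exact ⟨hM, hN⟩
      obtain ⟨z, hz⟩ := this
      exact ⟨z, by rw [hz]; exact hb⟩)
    have h1 : f z ∈ K ×ˢ Kᶜ := by rw [← hr]; exact mem_range_self z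
    exact h1.2 (hinv _ h1.1 _ hz)

/-- CLOSED -/
theorem closed_code {X : Type} [TopologicalSpace X] [PolishSpace X] [MeasurableSpace X]
    [BorelSpace X] (ar : ℕ → ℕ) (N : X → RS ar) (hm : Measurable N) (hi : Function.Injective N)
    (hinv : ∀ (x : X) (σ : Equiv.Perm ℕ), ∃ y, ∀ (i : ℕ) (v : Fin (ar i) → ℕ),
      N y i (⇑σ ∘ v) = N x i v) :
    MeasurableSet (range N) ∧ ∃ γ : Ordinal.{0}, γ < Ordinal.omega 1 ∧ ∀ (x : X) (N' : RS ar),
      BF ((fun _ _ => false), N x) ((fun _ _ => false), N') univ univ γ ∅ → ∃ y, N y = N' := by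
  have hR : MeasurableSet (range N) := (hm.measurableEmbedding hi).measurableSet_range
  refine ⟨hR, ?_⟩
  set K : Set (St ar) := {P : St ar | P.1 = (fun _ _ => false) ∧ P.2 ∈ range N} with hKdef
  have hKm : MeasurableSet K := by
    have h1 : MeasurableSet {P : St ar | P.1 = (fun _ _ => false)} := by
      have : {P : St ar | P.1 = (fun _ _ => false)} =
          Prod.fst ⁻¹' ({fun _ _ => false} : Set (ℕ → ℕ → Bool)) := rfl
      rw [this]
      exact measurable_fst (measurableSet_singleton _)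
    exact h1.inter (measurable_snd hR)
  have hKinv : ∀ M ∈ K, ∀ P : St ar, IsoOn M P univ univ ∅ → P ∈ K := by
    rintro M ⟨hM1, x, hx⟩ P hMP
    obtain ⟨e, he⟩ := exists_equiv' hMP
    have hrel : ∀ (i : ℕ) (v : Fin (ar i) → ℕ), P.2 i (⇑e ∘ v) = M.2 i v := fun i v =>
      (he.2.2 i (fun k => (v k, e (v k))) (fun k => rfl)).symm
    refine ⟨?_, ?_⟩
    · funext a b
      have h1 : M.1 (e.symm a) (e.symm b) = P.1 a b := by
        have := he.2.1 (e.symm a, e (e.symm a)) rfl (e.symm b, e (e.symm b)) rfl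
        simpa using this
      rw [← h1, hM1]
    · obtain ⟨y, hy⟩ := hinv x e
      refine ⟨y, ?_⟩
      funext i v
      have h2 : v = ⇑e ∘ (⇑e.symm ∘ v) := by ext; simp
      rw [h2, hy, hrel, hx]
  obtain ⟨γ, hγ, hcl⟩ := closed_rank' hKm hKinv
  refine ⟨γ, hγ, fun x N' hN' => ?_⟩
  have := hcl ((fun _ _ => false), N x) ⟨rfl, x, rfl⟩ ((fun _ _ => false), N') hN'
  exact this.2

end Pool.Agent.H533R2.OG.P
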