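import Pool.Agent.H533R2.OG.Defs

/-!
# CODE (helper537)

Becker-Kechris style coding of a continuous action of `S_∞` by countable structures.
-/

set_option autoImplicit false

namespace Pool.Agent.H533R2.OG.P

open Set MeasureTheory
open Pool.Agent.H533R2.OG

/-- CODE -/
theorem code_exists {X : Type} [TopologicalSpace X] [PolishSpace X] [MeasurableSpace X]
    [BorelSpace X] (act : Equiv.Perm ℕ → X → X) (h1 : ∀ x, act 1 x = x)
    (hmul : ∀ g h x, act (g * h) x = act g (act h x))
    (hcont : @Continuous (Equiv.Perm ℕ × X) X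
      (@instTopologicalSpaceProd (Equiv.Perm ℕ) X
        (TopologicalSpace.induced (fun g : Equiv.Perm ℕ => (⇑g : ℕ → ℕ)) inferInstance) _)
      _ (fun p => act p.1 p.2)) :
    ∃ (ar : ℕ → ℕ) (N : X → RS ar), Measurable N ∧ Function.Injective N ∧
      ∀ (g : Equiv.Perm ℕ) (x : X) (i : ℕ) (v : Fin (ar i) → ℕ),
        N (act g x) i (⇑g ∘ v) = N x i v := by
  classical
  letI τ : TopologicalSpace (Equiv.Perm ℕ) :=
    TopologicalSpace.induced (fun g : Equiv.Perm ℕ => (⇑g : ℕ → ℕ)) inferInstance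
  obtain ⟨b, hbc, -, hb⟩ := TopologicalSpace.exists_countable_basis X
  obtain ⟨U, hU⟩ := (hbc.insert (∅ : Set X)).exists_eq_range (insert_nonempty _ _)
  have hUo : ∀ n, IsOpen (U n) := by
    intro n
    have hmem : U n ∈ insert (∅ : Set X) b := hU ▸ mem_range_self n
    rcases hmem with h | h
    · rw [h]; exact isOpen_empty
    · exact hb.isOpen h
  have hUb : ∀ (x : X) (O : Set X), IsOpen O → x ∈ O → ∃ n, x ∈ U n ∧ U n ⊆ O := by
    intro x O hO hx
    obtain ⟨w, hw, hxw, hwO⟩ := hb.exists_subset_of_mem_open hx hO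
    have : w ∈ range U := hU ▸ mem_insert_of_mem _ hw
    obtain ⟨n, rfl⟩ := this
    exact ⟨n, hxw, hwO⟩
  have hact : ∀ g : Equiv.Perm ℕ, Continuous (act g) := by
    intro g
    exact hcont.comp (continuous_const.prodMk continuous_id : Continuous fun x : X => (g, x))
  refine ⟨fun i => (Nat.unpair i).2, fun x i v =>
    decide (∃ g : Equiv.Perm ℕ, (∀ k, g (v k) = (k : ℕ)) ∧ act g x ∈ U (Nat.unpair i).1),
    ?_, ?_, ?_⟩
  · refine measurable_pi_iff.2 fun i => measurable_pi_iff.2 fun v => ?_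
    refine measurable_to_bool ?_
    have : ((fun x : X => decide (∃ g : Equiv.Perm ℕ, (∀ k, g (v k) = (k : ℕ)) ∧
        act g x ∈ U (Nat.unpair i).1)) ⁻¹' {true}) =
        ⋃ g : {g : Equiv.Perm ℕ // ∀ k, g (v k) = (k : ℕ)},
          (act g.1) ⁻¹' (U (Nat.unpair i).1) := by
      ext x
      simp [Subtype.exists]
    rw [this]
    exact (isOpen_iUnion fun (g : {g : Equiv.Perm ℕ // ∀ k, g (v k) = (k : ℕ)}) =>
      (hUo _).preimage (hact g.1)).measurableSet
  · intro x y hxy
    by_contra hne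
    obtain ⟨u, v, hu, hv, hxu, hyv, huv⟩ := t2_separation hne
    obtain ⟨n, hxn, hnu⟩ := hUb x u hu hxu
    have key : ∀ k : ℕ, ∃ g : Equiv.Perm ℕ, (∀ j, j < k → g j = j) ∧ act g y ∈ U n := by
      intro k
      have h := congrFun (congrFun hxy (Nat.pair n k)) (fun j => (j : ℕ))
      simp only [decide_eq_decide] at h
      have hx : ∃ g : Equiv.Perm ℕ, (∀ j : Fin (Nat.unpair (Nat.pair n k)).2, g (j : ℕ) = (j : ℕ)) ∧
          act g x ∈ U (Nat.unpair (Nat.pair n k)).1 := by
        refine ⟨1, fun j => rfl, ?_⟩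
        rw [h1, Nat.unpair_pair]
        exact hxn
      obtain ⟨g, hg, hgy⟩ := h.1 hx
      rw [Nat.unpair_pair] at hgy
      refine ⟨g, fun j hj => ?_, hgy⟩
      have hlt : j < (Nat.unpair (Nat.pair n k)).2 := by rw [Nat.unpair_pair]; exact hj
      exact hg ⟨j, hlt⟩
    choose g hg hgy using key
    have hlim : Filter.Tendsto g Filter.atTop (nhds (1 : Equiv.Perm ℕ)) := by
      rw [nhds_induced, Filter.tendsto_comap_iff, tendsto_pi_nhds]
      intro j
      refine tendsto_const_nhds.congr' ?_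
      filter_upwards [Filter.eventually_gt_atTop j] with k hk
      exact (hg k j hk).symm
    have hlim2 : Filter.Tendsto (fun k => act (g k) y) Filter.atTop (nhds (act 1 y)) := by
      have h3 : Filter.Tendsto (fun p : Equiv.Perm ℕ × X => act p.1 p.2)
          (nhds ((1 : Equiv.Perm ℕ), y)) (nhds (act 1 y)) := hcont.continuousAt
      exact h3.comp (hlim.prodMk_nhds tendsto_const_nhds)
    rw [h1] at hlim2
    have hev := hlim2.eventually (hv.mem_nhds hyv)
    obtain ⟨k, hk⟩ := hev.exists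
    exact Set.disjoint_left.1 huv (hnu (hgy k)) hk
  · intro g x i v
    simp only [decide_eq_decide]
    constructor
    · rintro ⟨g', h, h'⟩
      refine ⟨g' * g, fun k => ?_, ?_⟩
      · exact h k
      · rw [hmul]; exact h'
    · rintro ⟨g', h, h'⟩
      refine ⟨g' * g⁻¹, fun k => ?_, ?_⟩
      · have := h k
        simpa using this
      · rw [← hmul, inv_mul_cancel_right]; exact h'

end Pool.Agent.H533R2.OG.P
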