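import Pool.Agent.H533R2.OG.Defs

set_option autoImplicit false

/-! EXT: the core combinatorial extension step. -/

namespace Pool.Agent.H533R2.OG.P

namespace EXT

/-- all levels of the support are below `l` -/
def Low (r : ℕ → ℕ → Bool) (l : ℕ) (a : A) : Prop := ∀ κ, a κ ≠ 0 → r κ l = true

theorem exists_max {β : Type} (R : β → β → Prop) (htr : ∀ a b c, R a b → R b c → R a c)
    (hirr : ∀ a, ¬ R a a) (S : Finset β) (hS : S.Nonempty) : ∃ m ∈ S, ∀ n ∈ S, ¬ R m n := by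
  induction hS using Finset.Nonempty.cons_induction with
  | singleton a => exact ⟨a, by simp, by simpa using hirr a⟩
  | cons a s ha hs ih =>
    obtain ⟨m, hm, hmax⟩ := ih
    by_cases h : R m a
    · refine ⟨a, by simp, ?_⟩
      intro n hn hRn
      rcases Finset.mem_cons.1 hn with rfl | hn
      · exact hirr _ hRn
      · exact hmax n hn (htr _ _ _ h hRn)
    · refine ⟨m, by simp [hm], ?_⟩
      intro n hn
      rcases Finset.mem_cons.1 hn with rfl | hn
      · exact h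
      · exact hmax n hn

variable {r : ℕ → ℕ → Bool}

theorem asymm (hr : SLO r) {m n : ℕ} (h : r m n = true) (h' : r n m = true) : False := by
  have := hr.2.1 _ _ _ h h'
  rw [hr.1 m] at this
  exact absurd this (by simp)

theorem top_exists (hr : SLO r) {a : A} (ha : a ≠ 0) : ∃ ν, Top r a ν := by
  have hne : a.support.Nonempty := by simpa [Finset.nonempty_iff_ne_empty] using ha
  obtain ⟨m, hm, hmax⟩ := exists_max (fun m n => r m n = true) (fun _ _ _ => hr.2.1 _ _ _)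
    (fun a h => by rw [hr.1 a] at h; exact absurd h (by simp)) a.support hne
  refine ⟨m, by simpa using hm, ?_⟩
  intro κ hκ
  by_cases h : κ = m
  · exact Or.inl h
  · rcases hr.2.2 κ m h with h1 | h1
    · exact Or.inr h1
    · exact absurd h1 (hmax κ (by simpa using hκ))

theorem top_unique (hr : SLO r) {a : A} {ν κ : ℕ} (h : Top r a ν) (h' : Top r a κ) : ν = κ := by
  rcases h.2 κ h'.1 with h1 | h1
  · exact h1.symm
  · rcases h'.2 ν h.1 with h2 | h2
    · exact h2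
    · exact (asymm hr h1 h2).elim

theorem top_neg {a : A} {ν : ℕ} (h : Top r a ν) : Top r (-a) ν := by
  refine ⟨by simpa using h.1, fun κ hκ => h.2 κ (by simpa using hκ)⟩

theorem low_of_top (hr : SLO r) {a : A} {ν l : ℕ} (h : Top r a ν) (hl : r ν l = true) :
    Low r l a := by
  intro κ hκ
  rcases h.2 κ hκ with h1 | h1
  · rw [h1]; exact hl
  · exact hr.2.1 _ _ _ h1 hl

theorem low_neg {a : A} {l : ℕ} (h : Low r l a) : Low r l (-a) :=
  fun κ hκ => h κ (by simpa using hκ)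

theorem low_mono (hr : SLO r) {a : A} {l m : ℕ} (h : Low r l a) (hm : r m l = false) :
    Low r m a := by
  intro κ hκ
  have h1 := h κ hκ
  by_cases hlm : l = m
  · rw [← hlm]; exact h1
  · rcases hr.2.2 l m hlm with h2 | h2
    · exact hr.2.1 _ _ _ h1 h2
    · rw [hm] at h2; exact absurd h2 (by simp)

theorem top_add_low (hr : SLO r) {a b : A} {κ : ℕ} (h : Top r a κ) (hb : Low r κ b) :
    Top r (a + b) κ ∧ (a + b) κ = a κ := by
  have hb0 : b κ = 0 := by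
    by_contra hne
    have := hb κ hne
    rw [hr.1 κ] at this
    exact absurd this (by simp)
  have he : (a + b) κ = a κ := by simp [hb0]
  refine ⟨⟨by rw [he]; exact h.1, ?_⟩, he⟩
  intro κ' hκ'
  by_cases h1 : a κ' = 0
  · have h2 : b κ' ≠ 0 := by
      intro h2; apply hκ'; simp [h1, h2]
    exact Or.inr (hb κ' h2)
  · exact h.2 κ' h1

theorem top_add_same {a b : A} {κ : ℕ} (h : Top r a κ) (hb : Top r b κ)
    (hne : a κ + b κ ≠ 0) : Top r (a + b) κ := by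
  refine ⟨by simpa using hne, ?_⟩
  intro κ' hκ'
  by_cases h1 : a κ' = 0
  · have h2 : b κ' ≠ 0 := by
      intro h2; apply hκ'; simp [h1, h2]
    exact hb.2 κ' h2
  · exact h.2 κ' h1

theorem sg_sq (b : Bool) : sg b * sg b = 1 := by cases b <;> simp [sg]

theorem sg_ne (b : Bool) : sg b ≠ 0 := by cases b <;> simp [sg]

theorem pos_iff (hr : SLO r) (ε : ℕ → Bool) {a : A} {ν : ℕ} (h : Top r a ν) :
    Pos r ε a ↔ 0 < sg (ε ν) * a ν := by
  constructor
  · rintro ⟨κ, hκ, h1⟩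
    rw [top_unique hr h hκ]; exact h1
  · intro h1
    exact ⟨ν, h, h1⟩

theorem pos_zero (ε : ℕ → Bool) : ¬ Pos r ε 0 := by
  rintro ⟨ν, h, -⟩
  exact h.1 (by simp)

theorem pos_neg_iff (hr : SLO r) (ε : ℕ → Bool) {a : A} (ha : a ≠ 0) :
    Pos r ε (-a) ↔ ¬ Pos r ε a := by
  obtain ⟨ν, h⟩ := top_exists hr ha
  rw [pos_iff hr ε h, pos_iff hr ε (top_neg h)]
  have h1 : sg (ε ν) * a ν ≠ 0 := mul_ne_zero (sg_ne _) h.1
  have h2 : sg (ε ν) * (-a) ν = -(sg (ε ν) * a ν) := by simp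
  rw [h2]
  constructor
  · intro h3 h4; omega
  · intro h3; omega

/-- `a` is not low -/
def AFar (r : ℕ → ℕ → Bool) (l : ℕ) (a : A) : Prop := ∃ ν, r ν l = false ∧ Top r a ν

theorem pos_add (hr : SLO r) (ε : ℕ → Bool) {a b : A} (ha : Pos r ε a) (hb : Pos r ε b) :
    Pos r ε (a + b) ∧ ∀ l, AFar r l b → AFar r l (a + b) := by
  obtain ⟨ν, h1, h2⟩ := ha
  obtain ⟨κ, h3, h4⟩ := hb
  by_cases hνκ : ν = κ
  · subst hνκ
    have hs : 0 < sg (ε ν) * (a ν + b ν) := by rw [mul_add]; omega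
    have hne : a ν + b ν ≠ 0 := by
      intro h; rw [h] at hs; simp at hs
    have ht := top_add_same h1 h3 hne
    refine ⟨⟨ν, ht, by simpa using hs⟩, ?_⟩
    rintro l ⟨κ', hκ', htop⟩
    rw [top_unique hr htop h3] at hκ'
    exact ⟨ν, hκ', ht⟩
  · rcases hr.2.2 ν κ hνκ with h5 | h5
    · obtain ⟨ht, he⟩ := top_add_low hr h3 (low_of_top hr h1 h5)
      rw [add_comm b a] at ht he
      refine ⟨⟨κ, ht, by rw [he]; exact h4⟩, ?_⟩
      rintro l ⟨κ', hκ', htop⟩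
      rw [top_unique hr htop h3] at hκ'
      exact ⟨κ, hκ', ht⟩
    · obtain ⟨ht, he⟩ := top_add_low hr h1 (low_of_top hr h3 h5)
      refine ⟨⟨ν, ht, by rw [he]; exact h2⟩, ?_⟩
      rintro l ⟨κ', hκ', htop⟩
      rw [top_unique hr htop h3] at hκ'
      refine ⟨ν, ?_, ht⟩
      by_contra h6
      rw [Bool.not_eq_false] at h6
      have := hr.2.1 _ _ _ h5 h6
      rw [hκ'] at this
      exact absurd this (by simp)

theorem lt_irrefl (ε : ℕ → Bool) (v : V) : ¬ Lt r ε v v := by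
  rintro (⟨h1, h2⟩ | ⟨-, h⟩)
  · rw [h1] at h2; exact absurd h2 (by simp)
  · rw [sub_self] at h; exact pos_zero ε h

theorem lt_trans (hr : SLO r) (ε : ℕ → Bool) {u v w : V} (h : Lt r ε u v) (h' : Lt r ε v w) :
    Lt r ε u w := by
  rcases h with ⟨h1, h2⟩ | ⟨h1, h2⟩ <;> rcases h' with ⟨h3, h4⟩ | ⟨h3, h4⟩
  · rw [h2] at h3; exact absurd h3 (by simp)
  · exact Or.inl ⟨h1, by rw [← h3]; exact h2⟩
  · exact Or.inl ⟨by rw [h1]; exact h3, h4⟩
  · refine Or.inr ⟨h1.trans h3, ?_⟩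
    have := (pos_add hr ε h2 h4).1
    rwa [show v.1 - u.1 + (w.1 - v.1) = w.1 - u.1 by abel] at this

theorem lt_total (hr : SLO r) (ε : ℕ → Bool) {v w : V} (h : v ≠ w) : Lt r ε v w ∨ Lt r ε w v := by
  by_cases h2 : v.2 = w.2
  · have h1 : w.1 - v.1 ≠ 0 := by
      intro h1
      exact h (Prod.ext (sub_eq_zero.1 h1).symm h2)
    by_cases hp : Pos r ε (w.1 - v.1)
    · exact Or.inl (Or.inr ⟨h2, hp⟩)
    · refine Or.inr (Or.inr ⟨h2.symm, ?_⟩)
      rw [← neg_sub, pos_neg_iff hr ε h1]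
      exact hp
  · rcases hv : v.2 with _ | _ <;> rcases hw : w.2 with _ | _
    · rw [hv, hw] at h2; exact absurd rfl h2
    · exact Or.inl (Or.inl ⟨hv, hw⟩)
    · exact Or.inr (Or.inl ⟨hw, hv⟩)
    · rw [hv, hw] at h2; exact absurd rfl h2

theorem lt_asymm (hr : SLO r) (ε : ℕ → Bool) {v w : V} (h : Lt r ε v w) : ¬ Lt r ε w v :=
  fun h' => lt_irrefl ε _ (lt_trans hr ε h h')

theorem far_ne {μ : ℕ} {v w : V} (h : Far r μ v w) : v ≠ w := by
  rintro rfl
  rcases h with h | ⟨ν, -, h⟩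
  · exact h rfl
  · exact h.1 (by simp)

theorem far_symm {μ : ℕ} {v w : V} (h : Far r μ v w) : Far r μ w v := by
  rcases h with h | ⟨ν, h1, h⟩
  · exact Or.inl (Ne.symm h)
  · refine Or.inr ⟨ν, h1, ?_⟩
    rw [← neg_sub]; exact top_neg h

theorem far_lt_symm (hr : SLO r) (ε : ℕ → Bool) {μ : ℕ} {v w : V} (h : Far r μ v w) :
    Lt r ε w v ↔ ¬ Lt r ε v w := by
  constructor
  · exact fun h' => lt_asymm hr ε h'
  · intro h'
    rcases lt_total hr ε (far_ne h) with h1 | h1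
    · exact absurd h1 h'
    · exact h1

theorem eqv_symm (hr : SLO r) (ε : ℕ → Bool) {μ : ℕ} {v w v' w' : V}
    (h : Eqv r ε μ v w v' w') : Eqv r ε μ w v w' v' := by
  rcases h with ⟨h1, h2, h3⟩ | ⟨h1, h2, h3⟩
  · refine Or.inl ⟨h1.symm, h2.symm, ?_⟩
    rcases h3 with ⟨h3, h4⟩ | ⟨ν, h3, h4, h5, h6⟩
    · exact Or.inl ⟨h3.symm, h4.symm⟩
    · refine Or.inr ⟨ν, h3, ?_, ?_, ?_⟩
      · rw [← neg_sub]; exact top_neg h4
      · rw [← neg_sub]; exact top_neg h5
      · rw [← neg_sub, ← neg_sub w'.1 v'.1, Finsupp.neg_apply, Finsupp.neg_apply, h6]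
  · refine Or.inr ⟨far_symm h1, far_symm h2, ?_⟩
    rw [far_lt_symm hr ε h1, far_lt_symm hr ε h2, h3]

theorem far_mono (hr : SLO r) {l l' : ℕ} (hl : r l' l = true) {v w : V} (h : Far r l v w) :
    Far r l' v w := by
  rcases h with h | ⟨ν, h1, h⟩
  · exact Or.inl h
  · refine Or.inr ⟨ν, ?_, h⟩
    by_contra h2
    rw [Bool.not_eq_false] at h2
    rw [hr.2.1 _ _ _ h2 hl] at h1
    exact absurd h1 (by simp)

theorem eqv_mono (hr : SLO r) (ε : ℕ → Bool) {l l' : ℕ} (hl : r l' l = true) {v w v' w' : V}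
    (h : Eqv r ε l v w v' w') : Eqv r ε l' v w v' w' := by
  rcases h with ⟨h1, h2, h3⟩ | ⟨h1, h2, h3⟩
  · rcases h3 with h3 | ⟨ν, h3, h4, h5, h6⟩
    · exact Or.inl ⟨h1, h2, Or.inl h3⟩
    · by_cases hν : r ν l' = true
      · exact Or.inl ⟨h1, h2, Or.inr ⟨ν, hν, h4, h5, h6⟩⟩
      · rw [Bool.not_eq_true] at hν
        refine Or.inr ⟨Or.inr ⟨ν, hν, h4⟩, Or.inr ⟨ν, hν, h5⟩, ?_⟩
        have e1 : Lt r ε v w ↔ Pos r ε (w.1 - v.1) := by
          constructor
          · rintro (⟨h7, h8⟩ | ⟨-, h7⟩)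
            · rw [h1, h8] at h7; exact absurd h7 (by simp)
            · exact h7
          · intro h7; exact Or.inr ⟨h1, h7⟩
        have e2 : Lt r ε v' w' ↔ Pos r ε (w'.1 - v'.1) := by
          constructor
          · rintro (⟨h7, h8⟩ | ⟨-, h7⟩)
            · rw [h2, h8] at h7; exact absurd h7 (by simp)
            · exact h7
          · intro h7; exact Or.inr ⟨h2, h7⟩
        rw [e1, e2, pos_iff hr ε h4, pos_iff hr ε h5, h6]
  · exact Or.inr ⟨far_mono hr hl h1, far_mono hr hl h2, h3⟩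

/-- Moving `u` a little does not change anything far away. -/
theorem shift (hr : SLO r) (ε : ℕ → Bool) {l : ℕ} {u x v : V} (h2 : x.2 = u.2)
    (hlow : Low r l (x.1 - u.1)) (hf : Far r l u v) :
    Far r l x v ∧ (Lt r ε x v ↔ Lt r ε u v) := by
  by_cases hc : u.2 = v.2
  · rcases hf with hf | ⟨ν, h3, h4⟩
    · exact absurd hc hf
    · obtain ⟨h5, h6⟩ := top_add_low hr h4 (low_neg (low_mono hr hlow h3))
      rw [show v.1 - u.1 + -(x.1 - u.1) = v.1 - x.1 by abel] at h5 h6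
      refine ⟨Or.inr ⟨ν, h3, h5⟩, ?_⟩
      have e1 : Lt r ε x v ↔ Pos r ε (v.1 - x.1) := by
        constructor
        · rintro (⟨h7, h8⟩ | ⟨-, h7⟩)
          · rw [h2, hc, h8] at h7; exact absurd h7 (by simp)
          · exact h7
        · intro h7; exact Or.inr ⟨h2.trans hc, h7⟩
      have e2 : Lt r ε u v ↔ Pos r ε (v.1 - u.1) := by
        constructor
        · rintro (⟨h7, h8⟩ | ⟨-, h7⟩)
          · rw [hc, h8] at h7; exact absurd h7 (by simp)
          · exact h7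
        · intro h7; exact Or.inr ⟨hc, h7⟩
      rw [e1, e2, pos_iff hr ε h5, pos_iff hr ε h4, h6]
  · refine ⟨Or.inl (by rw [h2]; exact hc), ?_⟩
    unfold Lt
    rw [h2]
    simp [hc]

/-- The near case. -/
theorem near (hr : SLO r) (ε : ℕ → Bool) {l : ℕ} (p : Set (V × V)) (hp : p.Finite)
    (hpe : ∀ u ∈ p, ∀ v ∈ p, Eqv r ε l u.1 v.1 u.2 v.2) (x : V) (hx : ∀ u ∈ p, u.1 ≠ x)
    (hn : ∃ u ∈ p, u.1.2 = x.2 ∧ ∃ κ, r κ l = true ∧ Top r (x.1 - u.1.1) κ) :
    ∃ y : V, (∃ u ∈ p, y.2 = u.2.2) ∧ ∀ v ∈ p, Eqv r ε l x v.1 y v.2 := by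
  classical
  -- choose the minimal level
  obtain ⟨u0, hu0, hu02, κ0, hκ0, ht0⟩ := hn
  have hex : ∃ u ∈ p, u.1.2 = x.2 ∧ ∃ κ, r κ l = true ∧ Top r (x.1 - u.1.1) κ ∧
      ∀ v ∈ p, v.1.2 = x.2 → ∀ κ', Top r (x.1 - v.1.1) κ' → r κ' κ = false := by
    let S : Finset (V × V) := hp.toFinset.filter (fun u => u.1.2 = x.2)
    obtain ⟨m, hm, hmax⟩ := exists_max
      (fun u v : V × V => ∃ κ κ', Top r (x.1 - u.1.1) κ ∧ Top r (x.1 - v.1.1) κ' ∧ r κ' κ = true)
      (by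
        rintro a b c ⟨k1, k2, h1, h2, h3⟩ ⟨k3, k4, h4, h5, h6⟩
        rw [← top_unique hr h2 h4] at h6
        exact ⟨k1, k4, h1, h5, hr.2.1 _ _ _ h6 h3⟩)
      (by
        rintro a ⟨k1, k2, h1, h2, h3⟩
        rw [top_unique hr h1 h2, hr.1] at h3
        exact absurd h3 (by simp))
      S ⟨u0, by simp [S, hu0, hu02]⟩
    have hm' : m ∈ p ∧ m.1.2 = x.2 := by simpa [S] using hm
    have hmx : x.1 - m.1.1 ≠ 0 := by
      intro h
      exact hx m hm'.1 (Prod.ext (sub_eq_zero.1 h).symm hm'.2)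
    obtain ⟨κ, hκ⟩ := top_exists hr hmx
    refine ⟨m, hm'.1, hm'.2, κ, ?_, hκ, ?_⟩
    · have h1 : ¬ r κ0 κ = true := fun h =>
        hmax u0 (by simp [S, hu0, hu02]) ⟨κ, κ0, hκ, ht0, h⟩
      by_cases h2 : κ0 = κ
      · rw [← h2]; exact hκ0
      · rcases hr.2.2 κ0 κ h2 with h3 | h3
        · exact absurd h3 h1
        · exact hr.2.1 _ _ _ h3 hκ0
    · intro v hv hv2 κ' hκ'
      by_contra h
      rw [Bool.not_eq_false] at h
      exact hmax v (by simp [S, hv, hv2]) ⟨κ, κ', hκ, hκ', h⟩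
  obtain ⟨u, hu, hu2, κ, hκl, hκ, hmin⟩ := hex
  set d : A := x.1 - u.1.1 with hd
  refine ⟨(u.2.1 + d, u.2.2), ⟨u, hu, rfl⟩, ?_⟩
  intro v hv
  rcases hpe u hu v hv with ⟨h1, h2, h3⟩ | ⟨h1, h2, h3⟩
  · refine Or.inl ⟨hu2.symm.trans h1, h2, Or.inr ?_⟩
    have e1 : v.1.1 - x.1 = (v.1.1 - u.1.1) + -d := by rw [hd]; abel
    have e2 : v.2.1 - (u.2.1 + d) = (v.2.1 - u.2.1) + -d := by abel
    simp only
    rw [e1, e2]
    rcases h3 with ⟨h3, h4⟩ | ⟨ν, h3, h4, h5, h6⟩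
    · rw [h3, h4, sub_self, sub_self, zero_add]
      exact ⟨κ, hκl, top_neg hκ, top_neg hκ, rfl⟩
    · by_cases hνκ : ν = κ
      · subst hνκ
        have hne : (v.1.1 - u.1.1) ν + (-d) ν ≠ 0 := by
          intro h0
          -- then `x - v` is low
          have hlow : Low r ν ((v.1.1 - u.1.1) + -d) := by
            intro κ' hκ'
            have hne' : κ' ≠ ν := by
              rintro rfl
              exact hκ' (by simpa using h0)
            by_cases h7 : (v.1.1 - u.1.1) κ' = 0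
            · have h8 : (-d) κ' ≠ 0 := by
                intro h8; apply hκ'; rw [Finsupp.add_apply, h7, h8, zero_add]
              rcases (top_neg hκ).2 κ' h8 with h9 | h9
              · exact absurd h9 hne'
              · exact h9
            · rcases h4.2 κ' h7 with h9 | h9
              · exact absurd h9 hne'
              · exact h9
          have hxv : x.1 - v.1.1 ≠ 0 := by
            intro h
            exact hx v hv (Prod.ext (sub_eq_zero.1 h).symm (h1.symm.trans hu2))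
          obtain ⟨κ', hκ'⟩ := top_exists hr hxv
          have h10 := hmin v hv (h1.symm.trans hu2) κ' hκ'
          rw [← e1] at hlow
          have h11 := hlow κ' (by
            have := (top_neg hκ').1
            rwa [neg_sub] at this)
          rw [h10] at h11
          exact absurd h11 (by simp)
        refine ⟨ν, h3, top_add_same h4 (top_neg hκ) hne, top_add_same h5 (top_neg hκ) ?_, ?_⟩
        · rw [← h6]; exact hne
        · rw [Finsupp.add_apply, Finsupp.add_apply, h6]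
      · rcases hr.2.2 ν κ hνκ with h7 | h7
        · obtain ⟨t1, c1⟩ := top_add_low hr (top_neg hκ) (low_of_top hr h4 h7)
          obtain ⟨t2, c2⟩ := top_add_low hr (top_neg hκ) (low_of_top hr h5 h7)
          rw [add_comm] at t1 c1 t2 c2
          exact ⟨κ, hκl, t1, t2, c1.trans c2.symm⟩
        · obtain ⟨t1, c1⟩ := top_add_low hr h4 (low_neg (low_of_top hr hκ h7))
          obtain ⟨t2, c2⟩ := top_add_low hr h5 (low_neg (low_of_top hr hκ h7))
          exact ⟨ν, h3, t1, t2, by rw [c1, c2, h6]⟩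
  · have hlow : Low r l d := low_of_top hr hκ hκl
    obtain ⟨f1, g1⟩ := shift hr ε (x := x) hu2.symm hlow h1
    obtain ⟨f2, g2⟩ := shift hr ε (x := (u.2.1 + d, u.2.2)) (u := u.2) rfl
      (by simpa using hlow) h2
    exact Or.inr ⟨f1, f2, by rw [g1, g2, h3]⟩

/-- The far case, some point on the left. -/
theorem far_case (hr : SLO r) (ε : ℕ → Bool) {l l' : ℕ} (hl : r l' l = true)
    (p : Set (V × V)) (hp : p.Finite)
    (hpe : ∀ u ∈ p, ∀ v ∈ p, Eqv r ε l u.1 v.1 u.2 v.2) (x : V)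
    (hfar : ∀ u ∈ p, Far r l x u.1) (hn : ∃ u ∈ p, Lt r ε u.1 x) :
    ∃ y : V, (∃ u ∈ p, y.2 = u.2.2) ∧ ∀ v ∈ p, Eqv r ε l' x v.1 y v.2 := by
  classical
  obtain ⟨u0, hu0, hlt0⟩ := hn
  obtain ⟨u, hu, hmax⟩ := exists_max (fun u v : V × V => Lt r ε u.1 v.1)
    (fun _ _ _ => lt_trans hr ε) (fun a => lt_irrefl ε a.1)
    (hp.toFinset.filter (fun u => Lt r ε u.1 x)) ⟨u0, by simp [hu0, hlt0]⟩
  have hu' : u ∈ p ∧ Lt r ε u.1 x := by simpa using hu
  have hmax' : ∀ v ∈ p, Lt r ε v.1 x → ¬ Lt r ε u.1 v.1 := fun v hv hvx =>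
    hmax v (by simp [hv, hvx])
  obtain ⟨hup, hux⟩ := hu'
  set δ : A := Finsupp.single l' (sg (ε l')) with hδ
  have hδtop : Top r δ l' := by
    refine ⟨by simp [hδ, sg_ne], ?_⟩
    intro κ hκ
    by_cases h : κ = l'
    · exact Or.inl h
    · exfalso; apply hκ
      rw [hδ, Finsupp.single_apply, if_neg (Ne.symm h)]
  have hδpos : Pos r ε δ := ⟨l', hδtop, by simp [hδ, sg_sq]⟩
  have hδfar : AFar r l' δ := ⟨l', hr.1 l', hδtop⟩
  have hδlow : Low r l δ := low_of_top hr hδtop hl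
  refine ⟨(u.2.1 + δ, u.2.2), ⟨u, hup, rfl⟩, ?_⟩
  intro v hv
  have hf1 : Far r l' x v.1 := far_mono hr hl (hfar v hv)
  refine Or.inr ?_
  rcases hpe u hup v hv with ⟨h1, h2, h3⟩ | ⟨h1, h2, h3⟩
  · -- the close case: `v.1 < x`
    have hvx : Lt r ε v.1 x := by
      by_contra hnot
      have hxv : Lt r ε x v.1 := by
        rcases lt_total hr ε (far_ne (hfar v hv)) with h | h
        · exact h
        · exact absurd h hnot
      -- same copies
      have hc : x.2 = u.1.2 := by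
        rcases hux with ⟨h4, h5⟩ | ⟨h4, -⟩
        · rcases hxv with ⟨h6, h7⟩ | ⟨h6, -⟩
          · rw [h5] at h6; exact absurd h6 (by simp)
          · rw [h1, ← h6]
        · exact h4.symm
      have hp1 : Pos r ε (x.1 - u.1.1) := by
        rcases hux with ⟨h4, h5⟩ | ⟨-, h4⟩
        · rw [hc, h4] at h5; exact absurd h5 (by simp)
        · exact h4
      have hp2 : Pos r ε (v.1.1 - x.1) := by
        rcases hxv with ⟨h4, h5⟩ | ⟨-, h4⟩
        · rw [← h1, ← hc, h4] at h5; exact absurd h5 (by simp)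
        · exact h4
      have hfx : AFar r l (v.1.1 - x.1) := by
        rcases hfar v hv with h4 | h4
        · exact absurd (hc.trans h1) h4
        · exact h4
      obtain ⟨ν, hν, htop⟩ := (pos_add hr ε hp1 hp2).2 l hfx
      rw [show x.1 - u.1.1 + (v.1.1 - x.1) = v.1.1 - u.1.1 by abel] at htop
      rcases h3 with ⟨h3, -⟩ | ⟨κ, h3, h4, -, -⟩
      · rw [h3, sub_self] at htop
        exact htop.1 (by simp)
      · rw [top_unique hr htop h4, h3] at hν
        exact absurd hν (by simp)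
    have hnuv : ¬ Lt r ε u.1 v.1 := hmax' v hv hvx
    -- `y - v.2 = (u.2 - v.2) + δ` is positive and far
    have key : Pos r ε ((u.2.1 + δ) - v.2.1) ∧ AFar r l' ((u.2.1 + δ) - v.2.1) := by
      have e : (u.2.1 + δ) - v.2.1 = (u.2.1 - v.2.1) + δ := by abel
      rw [e]
      rcases h3 with ⟨-, h3⟩ | ⟨κ, h3, h4, h5, h6⟩
      · rw [h3, sub_self, zero_add]; exact ⟨hδpos, hδfar⟩
      · have hq : Pos r ε (u.2.1 - v.2.1) := by
          have h7 : ¬ Pos r ε (v.1.1 - u.1.1) := fun h => hnuv (Or.inr ⟨h1, h⟩)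
          have h8 : v.2.1 - u.2.1 ≠ 0 := by
            intro h; exact h5.1 (by rw [h]; simp)
          rw [← neg_sub, pos_neg_iff hr ε h8, pos_iff hr ε h5, ← h6, ← pos_iff hr ε h4]
          exact h7
        obtain ⟨k1, k2⟩ := pos_add hr ε hq hδpos
        exact ⟨k1, k2 l' hδfar⟩
    have hf2 : Far r l' v.2 (u.2.1 + δ, u.2.2) := Or.inr key.2
    have hlt2 : Lt r ε v.2 (u.2.1 + δ, u.2.2) := Or.inr ⟨h2.symm, key.1⟩
    refine ⟨hf1, far_symm hf2, ?_⟩
    constructor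
    · intro h; exact absurd h (lt_asymm hr ε hvx)
    · intro h; exact absurd h (lt_asymm hr ε hlt2)
  · obtain ⟨f2, g2⟩ := shift hr ε (x := (u.2.1 + δ, u.2.2)) (u := u.2) rfl
      (by simpa using hδlow) h2
    refine ⟨hf1, far_mono hr hl f2, ?_⟩
    rw [g2, ← h3]
    constructor
    · intro h; exact lt_trans hr ε hux h
    · intro h
      rcases lt_total hr ε (far_ne (hfar v hv)) with h4 | h4
      · exact h4
      · exact absurd h (hmax' v hv h4)

/-- reversal -/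
noncomputable def R (v : V) : V := (-v.1, !v.2)

theorem R_R (v : V) : R (R v) = v := by simp [R]

theorem lt_R (ε : ℕ → Bool) (v w : V) : Lt r ε (R v) (R w) ↔ Lt r ε w v := by
  unfold Lt R
  simp only [Bool.not_eq_false', Bool.not_eq_true']
  have e : -w.1 - -v.1 = v.1 - w.1 := by abel
  rw [e]
  constructor
  · rintro (⟨h1, h2⟩ | ⟨h1, h2⟩)
    · exact Or.inl ⟨h2, h1⟩
    · exact Or.inr ⟨by simpa using h1.symm, h2⟩
  · rintro (⟨h1, h2⟩ | ⟨h1, h2⟩)
    · exact Or.inl ⟨h2, h1⟩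
    · exact Or.inr ⟨by rw [h1], h2⟩

theorem far_R {μ : ℕ} {v w : V} (h : Far r μ v w) : Far r μ (R v) (R w) := by
  rcases h with h | ⟨ν, h1, h⟩
  · refine Or.inl ?_
    intro h'; apply h; simpa [R] using h'
  · refine Or.inr ⟨ν, h1, ?_⟩
    have := top_neg h
    rwa [show -(w.1 - v.1) = (R w).1 - (R v).1 by simp only [R]; abel] at this

theorem eqv_R (hr : SLO r) (ε : ℕ → Bool) {μ : ℕ} {v w v' w' : V}
    (h : Eqv r ε μ v w v' w') : Eqv r ε μ (R v) (R w) (R v') (R w') := by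
  rcases h with ⟨h1, h2, h3⟩ | ⟨h1, h2, h3⟩
  · refine Or.inl ⟨by simp [R, h1], by simp [R, h2], ?_⟩
    rcases h3 with ⟨h3, h4⟩ | ⟨ν, h3, h4, h5, h6⟩
    · exact Or.inl ⟨by simp [R, h3], by simp [R, h4]⟩
    · refine Or.inr ⟨ν, h3, ?_, ?_, ?_⟩
      · have := top_neg h4
        rwa [show -(w.1 - v.1) = (R w).1 - (R v).1 by simp only [R]; abel] at this
      · have := top_neg h5
        rwa [show -(w'.1 - v'.1) = (R w').1 - (R v').1 by simp only [R]; abel] at this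
      · rw [show (R w).1 - (R v).1 = -(w.1 - v.1) by simp only [R]; abel,
          show (R w').1 - (R v').1 = -(w'.1 - v'.1) by simp only [R]; abel,
          Finsupp.neg_apply, Finsupp.neg_apply, h6]
  · refine Or.inr ⟨far_R h1, far_R h2, ?_⟩
    rw [lt_R, lt_R, far_lt_symm hr ε h1, far_lt_symm hr ε h2, h3]

end EXT

open EXT in
/-- EXT -/
theorem ext_step {r : ℕ → ℕ → Bool} (hr : SLO r) (ε : ℕ → Bool) {l l' : ℕ} (hl : r l' l = true)
    (p : Set (V × V)) (hp : p.Finite) (hpe : ∀ u ∈ p, ∀ v ∈ p, Eqv r ε l u.1 v.1 u.2 v.2)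
    (x : V) : ∃ y : V, (y.2 = false ∨ ∃ u ∈ p, y.2 = u.2.2) ∧
      ∀ u ∈ insert (x, y) p, ∀ v ∈ insert (x, y) p, Eqv r ε l' u.1 v.1 u.2 v.2 := by
  suffices hmain : ∃ y : V, (y.2 = false ∨ ∃ u ∈ p, y.2 = u.2.2) ∧
      ∀ v ∈ p, Eqv r ε l' x v.1 y v.2 by
    obtain ⟨y, hy, hv⟩ := hmain
    refine ⟨y, hy, ?_⟩
    intro u hu v hv'
    rcases Set.mem_insert_iff.1 hu with rfl | hu
    · rcases Set.mem_insert_iff.1 hv' with rfl | hv'
      · exact Or.inl ⟨rfl, rfl, Or.inl ⟨rfl, rfl⟩⟩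
      · exact hv v hv'
    · rcases Set.mem_insert_iff.1 hv' with rfl | hv'
      · exact eqv_symm hr ε (hv u hu)
      · exact eqv_mono hr ε hl (hpe u hu v hv')
  by_cases hA : ∃ u ∈ p, u.1 = x
  · obtain ⟨u, hu, rfl⟩ := hA
    exact ⟨u.2, Or.inr ⟨u, hu, rfl⟩, fun v hv => eqv_mono hr ε hl (hpe u hu v hv)⟩
  have hx : ∀ u ∈ p, u.1 ≠ x := fun u hu h => hA ⟨u, hu, h⟩
  by_cases hN : ∃ u ∈ p, u.1.2 = x.2 ∧ ∃ κ, r κ l = true ∧ Top r (x.1 - u.1.1) κ
  · obtain ⟨y, hy, hv⟩ := near hr ε p hp hpe x hx hN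
    exact ⟨y, Or.inr hy, fun v hv' => eqv_mono hr ε hl (hv v hv')⟩
  have hfar : ∀ u ∈ p, Far r l x u.1 := by
    intro u hu
    apply far_symm
    by_cases hc : u.1.2 = x.2
    · have hne : x.1 - u.1.1 ≠ 0 := by
        intro h
        exact hx u hu (Prod.ext (sub_eq_zero.1 h).symm hc)
      obtain ⟨κ, hκ⟩ := top_exists hr hne
      refine Or.inr ⟨κ, ?_, hκ⟩
      by_contra h
      rw [Bool.not_eq_false] at h
      exact hN ⟨u, hu, hc, κ, h, hκ⟩
    · exact Or.inl hc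
  by_cases hF : ∃ u ∈ p, Lt r ε u.1 x
  · obtain ⟨y, hy, hv⟩ := far_case hr ε hl p hp hpe x hfar hF
    exact ⟨y, Or.inr hy, hv⟩
  by_cases hE : ∃ u, u ∈ p
  · obtain ⟨u0, hu0⟩ := hE
    have h := far_case hr ε hl ((fun u : V × V => (R u.1, R u.2)) '' p) (hp.image _)
      (by
        rintro _ ⟨u, hu, rfl⟩ _ ⟨v, hv, rfl⟩
        exact eqv_R hr ε (hpe u hu v hv))
      (R x)
      (by
        rintro _ ⟨u, hu, rfl⟩
        exact far_R (hfar u hu))
      ⟨_, ⟨u0, hu0, rfl⟩, by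
        rw [lt_R]
        rcases lt_total hr ε (hx u0 hu0) with h | h
        · exact absurd ⟨u0, hu0, h⟩ hF
        · exact h⟩
    obtain ⟨y, ⟨_, ⟨u, hu, rfl⟩, hy⟩, hv⟩ := h
    refine ⟨R y, Or.inr ⟨u, hu, ?_⟩, ?_⟩
    · simp only [R] at hy ⊢
      rw [hy, Bool.not_not]
    · intro v hv'
      have := eqv_R hr ε (hv _ ⟨v, hv', rfl⟩)
      simpa only [R_R] using this
  · exact ⟨(0, false), Or.inl rfl, fun v hv => absurd ⟨v, hv⟩ hE⟩

end Pool.Agent.H533R2.OG.P
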