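import Pool.Agent.H533R2.OG.Defs

set_option autoImplicit false

/-! Task HOM (helper989): homogeneity of `A` for top levels and top coefficients.

The proof is by induction on the number of points; one point is moved by the translation of a
ball. -/

namespace Pool.Agent.H533R2.OG.P

variable {r : ℕ → ℕ → Bool}

theorem HOM_irr (hr : SLO r) {m : ℕ} (h : r m m = true) : False := by
  rw [hr.1 m] at h; exact Bool.false_ne_true h

theorem HOM_asymm (hr : SLO r) {m n : ℕ} (h : r m n = true) (h' : r n m = true) : False :=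
  HOM_irr hr (hr.2.1 _ _ _ h h')

theorem HOM_max (hr : SLO r) (s : Finset ℕ) (hs : s.Nonempty) :
    ∃ ν ∈ s, ∀ κ ∈ s, κ = ν ∨ r κ ν = true := by
  classical
  induction hs using Finset.Nonempty.cons_induction with
  | singleton a => exact ⟨a, by simp, fun κ hκ => Or.inl (by simpa using hκ)⟩
  | cons a s ha hs ih =>
    obtain ⟨ν, hν, h⟩ := ih
    by_cases h1 : r ν a = true
    · refine ⟨a, by simp, fun κ hκ => ?_⟩
      rcases Finset.mem_cons.1 hκ with rfl | hκ
      · exact Or.inl rfl
      · rcases h κ hκ with rfl | h2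
        · exact Or.inr h1
        · exact Or.inr (hr.2.1 _ _ _ h2 h1)
    · refine ⟨ν, Finset.mem_cons.2 (Or.inr hν), fun κ hκ => ?_⟩
      rcases Finset.mem_cons.1 hκ with rfl | hκ
      · by_cases h3 : κ = ν
        · exact Or.inl h3
        · rcases hr.2.2 κ ν h3 with h4 | h4
          · exact Or.inr h4
          · exact absurd h4 h1
      · exact h κ hκ

theorem HOM_top_exists (hr : SLO r) {a : A} (ha : a ≠ 0) : ∃ ν, Top r a ν := by
  obtain ⟨ν, h1, h2⟩ := HOM_max hr a.support (Finsupp.support_nonempty_iff.2 ha)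
  exact ⟨ν, Finsupp.mem_support_iff.1 h1, fun κ hκ => h2 κ (Finsupp.mem_support_iff.2 hκ)⟩

theorem HOM_top_unique (hr : SLO r) {a : A} {ν ν' : ℕ} (h : Top r a ν) (h' : Top r a ν') :
    ν = ν' := by
  rcases h.2 ν' h'.1 with h1 | h1
  · exact h1.symm
  · rcases h'.2 ν h.1 with h2 | h2
    · exact h2
    · exact (HOM_asymm hr h1 h2).elim

/-- all levels are at most `ν` -/
def HOM_le (r : ℕ → ℕ → Bool) (ν : ℕ) (a : A) : Prop := ∀ κ, a κ ≠ 0 → κ = ν ∨ r κ ν = true

theorem HOM_le_add {ν : ℕ} {a b : A} (ha : HOM_le r ν a) (hb : HOM_le r ν b) :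
    HOM_le r ν (a + b) := by
  intro κ hκ
  by_cases h : a κ = 0
  · refine hb κ fun h' => hκ ?_
    rw [Finsupp.add_apply, h, h', add_zero]
  · exact ha κ h

theorem HOM_le_neg {ν : ℕ} {a : A} (ha : HOM_le r ν a) : HOM_le r ν (-a) := by
  intro κ hκ
  refine ha κ fun h => hκ ?_
  rw [Finsupp.neg_apply, h, neg_zero]

theorem HOM_le_sub {ν : ℕ} {a b : A} (ha : HOM_le r ν a) (hb : HOM_le r ν b) :
    HOM_le r ν (a - b) := by
  rw [sub_eq_add_neg]; exact HOM_le_add ha (HOM_le_neg hb)

theorem HOM_exA_of_eq (hr : SLO r) {v w v' w' : A} (h : w' - v' = w - v) : ExA r v w v' w' := by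
  by_cases h0 : w - v = 0
  · left
    exact ⟨(sub_eq_zero.1 h0).symm, (sub_eq_zero.1 (h.trans h0)).symm⟩
  · right
    obtain ⟨ν, hν⟩ := HOM_top_exists hr h0
    exact ⟨ν, hν, by rw [h]; exact hν, by rw [h]⟩

theorem HOM_exA_pert (hr : SLO r) {ν : ℕ} {v w v' w' : A} (hout : ¬ HOM_le r ν (w - v))
    (hδ : HOM_le r ν ((w' - v') - (w - v))) : ExA r v w v' w' := by
  right
  have h0 : w - v ≠ 0 := by
    intro h
    apply hout
    rw [h]
    intro κ hκ
    exact absurd rfl hκ
  obtain ⟨κ, hκ⟩ := HOM_top_exists hr h0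
  have h1 : r ν κ = true := by
    by_contra h
    apply hout
    have h2 : κ = ν ∨ r κ ν = true := by
      by_cases h3 : κ = ν
      · exact Or.inl h3
      · rcases hr.2.2 κ ν h3 with h4 | h4
        · exact Or.inr h4
        · exact absurd h4 h
    intro κ' hκ'
    rcases hκ.2 κ' hκ' with rfl | h3
    · exact h2
    · rcases h2 with rfl | h2
      · exact Or.inr h3
      · exact Or.inr (hr.2.1 _ _ _ h3 h2)
  set δ : A := (w' - v') - (w - v) with hδe
  have h2 : δ κ = 0 := by
    by_contra h
    rcases hδ κ h with h3 | h3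
    · rw [h3] at h1; exact HOM_irr hr h1
    · exact HOM_asymm hr h1 h3
  have h3 : w' - v' = (w - v) + δ := by rw [hδe]; abel
  have h4 : (w' - v') κ = (w - v) κ := by rw [h3, Finsupp.add_apply, h2, add_zero]
  refine ⟨κ, hκ, ⟨by rw [h4]; exact hκ.1, fun κ' hκ' => ?_⟩, h4.symm⟩
  by_cases h5 : (w - v) κ' = 0
  · have h6 : δ κ' ≠ 0 := by
      intro h6
      apply hκ'
      rw [h3, Finsupp.add_apply, h5, h6, add_zero]
    rcases hδ κ' h6 with h7 | h7
    · exact Or.inr (by rw [h7]; exact h1)
    · exact Or.inr (hr.2.1 _ _ _ h7 h1)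
  · exact hκ.2 κ' h5

theorem HOM_exA_trans (hr : SLO r) {v w v' w' v'' w'' : A} (h : ExA r v w v' w')
    (h' : ExA r v' w' v'' w'') : ExA r v w v'' w'' := by
  rcases h with ⟨h1, h2⟩ | ⟨ν, h1, h2, h3⟩
  · rcases h' with ⟨h4, h5⟩ | ⟨ν, h4, h5, h6⟩
    · exact Or.inl ⟨h1, h5⟩
    · exfalso
      apply h4.1
      rw [h2, sub_self, Finsupp.zero_apply]
  · rcases h' with ⟨h4, h5⟩ | ⟨ν', h4, h5, h6⟩
    · exfalso
      apply h2.1
      rw [h4, sub_self, Finsupp.zero_apply]
    · obtain rfl := HOM_top_unique hr h2 h4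
      exact Or.inr ⟨ν, h1, h5, h3.trans h6⟩

theorem HOM_exA_symm {v w v' w' : A} (h : ExA r v w v' w') : ExA r v' w' v w := by
  rcases h with ⟨h1, h2⟩ | ⟨ν, h1, h2, h3⟩
  · exact Or.inl ⟨h2, h1⟩
  · exact Or.inr ⟨ν, h2, h1, h3.symm⟩

open Classical in
/-- translation of a ball -/
noncomputable def HOM_tr (r : ℕ → ℕ → Bool) (ν : ℕ) (c0 δ : A) (hδ : HOM_le r ν δ) : A ≃ A where
  toFun c := if HOM_le r ν (c - c0) then c + δ else c
  invFun c := if HOM_le r ν (c - c0) then c - δ else c
  left_inv c := by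
    by_cases h : HOM_le r ν (c - c0)
    · have h1 : HOM_le r ν (c + δ - c0) := by
        have : c + δ - c0 = (c - c0) + δ := by abel
        rw [this]; exact HOM_le_add h hδ
      simp only [if_pos h, if_pos h1]
      abel
    · simp only [if_neg h]
  right_inv c := by
    by_cases h : HOM_le r ν (c - c0)
    · have h1 : HOM_le r ν (c - δ - c0) := by
        have : c - δ - c0 = (c - c0) - δ := by abel
        rw [this]; exact HOM_le_sub h hδ
      simp only [if_pos h, if_pos h1]
      abel
    · simp only [if_neg h]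

open Classical in
theorem HOM_tr_in {ν : ℕ} {c0 δ : A} (hδ : HOM_le r ν δ) {c : A} (h : HOM_le r ν (c - c0)) :
    HOM_tr r ν c0 δ hδ c = c + δ := by
  show (if HOM_le r ν (c - c0) then c + δ else c) = _
  rw [if_pos h]

open Classical in
theorem HOM_tr_out {ν : ℕ} {c0 δ : A} (hδ : HOM_le r ν δ) {c : A} (h : ¬ HOM_le r ν (c - c0)) :
    HOM_tr r ν c0 δ hδ c = c := by
  show (if HOM_le r ν (c - c0) then c + δ else c) = _
  rw [if_neg h]

theorem HOM_tr_W (hr : SLO r) {ν : ℕ} {c0 δ : A} (hδ : HOM_le r ν δ) :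
    W r (HOM_tr r ν c0 δ hδ) := by
  intro v w
  by_cases hv : HOM_le r ν (v - c0)
  · by_cases hw : HOM_le r ν (w - c0)
    · rw [HOM_tr_in hδ hv, HOM_tr_in hδ hw]
      exact HOM_exA_of_eq hr (by abel)
    · rw [HOM_tr_in hδ hv, HOM_tr_out hδ hw]
      refine HOM_exA_pert hr (ν := ν) (fun h => hw ?_) ?_
      · have : w - c0 = (w - v) + (v - c0) := by abel
        rw [this]; exact HOM_le_add h hv
      · have : w - (v + δ) - (w - v) = -δ := by abel
        rw [this]; exact HOM_le_neg hδ
  · by_cases hw : HOM_le r ν (w - c0)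
    · rw [HOM_tr_out hδ hv, HOM_tr_in hδ hw]
      refine HOM_exA_pert hr (ν := ν) (fun h => hv ?_) ?_
      · have : v - c0 = (w - c0) - (w - v) := by abel
        rw [this]; exact HOM_le_sub hw h
      · have : w + δ - v - (w - v) = δ := by abel
        rw [this]; exact hδ
    · rw [HOM_tr_out hδ hv, HOM_tr_out hδ hw]
      exact HOM_exA_of_eq hr rfl

theorem hom {r : ℕ → ℕ → Bool} (hr : SLO r) {k : ℕ} (s t : Fin k → A)
    (h : ∀ p q, ExA r (s p) (s q) (t p) (t q)) : ∃ g : A ≃ A, W r g ∧ ∀ p, g (s p) = t p := by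
  induction k with
  | zero => exact ⟨Equiv.refl A, fun v w => HOM_exA_of_eq hr rfl, fun p => p.elim0⟩
  | succ k ih =>
    obtain ⟨g, hg, hgs⟩ := ih (fun p => s p.castSucc) (fun p => t p.castSucc)
      (fun p q => h _ _)
    by_cases hlast : g (s (Fin.last k)) = t (Fin.last k)
    · refine ⟨g, hg, fun p => ?_⟩
      induction p using Fin.lastCases with
      | last => exact hlast
      | cast p => exact hgs p
    · have hδ0 : t (Fin.last k) - g (s (Fin.last k)) ≠ 0 := fun h => hlast (sub_eq_zero.1 h).symm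
      obtain ⟨ν, hν⟩ := HOM_top_exists hr hδ0
      have hδ : HOM_le r ν (t (Fin.last k) - g (s (Fin.last k))) := hν.2
      refine ⟨g.trans (HOM_tr r ν (g (s (Fin.last k))) _ hδ), fun v w =>
        HOM_exA_trans hr (hg v w) (HOM_tr_W hr hδ _ _), fun p => ?_⟩
      rw [Equiv.trans_apply]
      induction p using Fin.lastCases with
      | last =>
        rw [HOM_tr_in hδ]
        · abel
        · rw [sub_self]
          intro κ hκ
          exact absurd rfl hκ
      | cast p =>
        have hp : g (s p.castSucc) = t p.castSucc := hgs p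
        rw [hp]
        have h1 : ExA r (t p.castSucc) (g (s (Fin.last k))) (t p.castSucc) (t (Fin.last k)) := by
          refine HOM_exA_trans hr (HOM_exA_symm ?_) (h p.castSucc (Fin.last k))
          have := hg (s p.castSucc) (s (Fin.last k))
          rw [hp] at this
          exact this
        refine HOM_tr_out hδ fun hle => ?_
        rcases h1 with ⟨h2, h3⟩ | ⟨κ, h2, h3, h4⟩
        · exact hlast (h2.symm.trans h3)
        · have h5 : (t (Fin.last k) - g (s (Fin.last k))) =
              (t (Fin.last k) - t p.castSucc) - (g (s (Fin.last k)) - t p.castSucc) := by abel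
          have h6 : r ν κ = true := by
            have h7 := hν.1
            rw [h5, Finsupp.sub_apply] at h7
            by_cases h8 : ν = κ
            · exfalso
              apply h7
              rw [h8, ← h4, sub_self]
            · by_cases h9 : (g (s (Fin.last k)) - t p.castSucc) ν = 0
              · rw [h9, sub_zero] at h7
                exact (h3.2 ν h7).resolve_left h8
              · exact (h2.2 ν h9).resolve_left h8
          have h7 : (t p.castSucc - g (s (Fin.last k))) κ ≠ 0 := by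
            intro h8
            apply h2.1
            have : g (s (Fin.last k)) - t p.castSucc = -(t p.castSucc - g (s (Fin.last k))) := by
              abel
            rw [this, Finsupp.neg_apply, h8, neg_zero]
          rcases hle κ h7 with h8 | h8
          · rw [h8] at h6; exact HOM_irr hr h6
          · exact HOM_asymm hr h6 h8

end Pool.Agent.H533R2.OG.P
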