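import Pool.Agent.H533R2.OG.Defs

set_option autoImplicit false

/-! General lemmas on `Top`, `Pos`, `ExA`, `W`. -/

namespace Pool.Agent.H533R2.OG.P

variable {r : ℕ → ℕ → Bool} {ε : ℕ → Bool}

lemma slo_irrefl (hr : SLO r) {m : ℕ} (h : r m m = true) : False := by
  have := hr.1 m
  rw [h] at this
  exact Bool.noConfusion this

lemma slo_trans (hr : SLO r) {l m n : ℕ} (h : r l m = true) (h' : r m n = true) :
    r l n = true := hr.2.1 l m n h h'

lemma slo_asymm (hr : SLO r) {m n : ℕ} (h : r m n = true) (h' : r n m = true) : False :=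
  slo_irrefl hr (slo_trans hr h h')

lemma slo_ne (hr : SLO r) {m n : ℕ} (h : r m n = true) : m ≠ n := by
  rintro rfl
  exact slo_irrefl hr h

lemma slo_tri (hr : SLO r) (m n : ℕ) : r m n = true ∨ m = n ∨ r n m = true := by
  by_cases h : m = n
  · exact Or.inr (Or.inl h)
  · rcases hr.2.2 m n h with h' | h'
    · exact Or.inl h'
    · exact Or.inr (Or.inr h')

lemma slo_false_iff (hr : SLO r) (m n : ℕ) : r m n = false ↔ (m = n ∨ r n m = true) := by
  constructor
  · intro h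
    rcases slo_tri hr m n with h' | h' | h'
    · rw [h] at h'; exact absurd h' (by decide)
    · exact Or.inl h'
    · exact Or.inr h'
  · rintro (rfl | h)
    · exact hr.1 m
    · by_contra h'
      have h'' : r m n = true := by simpa using h'
      exact slo_asymm hr h h''

lemma top_ne_zero {a : A} {ν : ℕ} (h : Top r a ν) : a ≠ 0 := by
  rintro rfl
  exact h.1 rfl

lemma not_top_zero {ν : ℕ} : ¬ Top r (0 : A) ν := fun h => h.1 rfl

/-- everything above the top level vanishes -/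
lemma top_above (hr : SLO r) {a : A} {ν κ : ℕ} (h : Top r a ν) (hκ : r ν κ = true) : a κ = 0 := by
  by_contra hne
  rcases h.2 κ hne with rfl | h'
  · exact slo_irrefl hr hκ
  · exact slo_asymm hr hκ h'

lemma top_iff (hr : SLO r) (a : A) (ν : ℕ) :
    Top r a ν ↔ a ν ≠ 0 ∧ ∀ κ, r ν κ = true → a κ = 0 := by
  constructor
  · intro h
    exact ⟨h.1, fun κ hκ => top_above hr h hκ⟩
  · rintro ⟨h1, h2⟩
    refine ⟨h1, fun κ hκ => ?_⟩
    rcases slo_tri hr κ ν with h | h | h
    · exact Or.inr h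
    · exact Or.inl h
    · exact absurd (h2 κ h) hκ

lemma finset_max (hr : SLO r) (s : Finset ℕ) (hs : s.Nonempty) :
    ∃ ν ∈ s, ∀ κ ∈ s, κ = ν ∨ r κ ν = true := by
  classical
  induction s using Finset.induction_on with
  | empty => exact absurd hs (by simp)
  | insert a s ha ih =>
    rcases s.eq_empty_or_nonempty with rfl | hne
    · exact ⟨a, by simp, by simp⟩
    · obtain ⟨ν, hν, hmax⟩ := ih hne
      rcases slo_tri hr a ν with h | h | h
      · refine ⟨ν, Finset.mem_insert_of_mem hν, fun κ hκ => ?_⟩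
        rcases Finset.mem_insert.1 hκ with rfl | hκ
        · exact Or.inr h
        · exact hmax κ hκ
      · subst h
        exact absurd hν ha
      · refine ⟨a, Finset.mem_insert_self _ _, fun κ hκ => ?_⟩
        rcases Finset.mem_insert.1 hκ with rfl | hκ
        · exact Or.inl rfl
        · rcases hmax κ hκ with rfl | h'
          · exact Or.inr h
          · exact Or.inr (slo_trans hr h' h)

theorem top_exists (hr : SLO r) (a : A) (ha : a ≠ 0) : ∃ ν, Top r a ν := by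
  obtain ⟨ν, hν, hmax⟩ := finset_max hr a.support (Finsupp.support_nonempty_iff.2 ha)
  refine ⟨ν, Finsupp.mem_support_iff.1 hν, fun κ hκ => hmax κ (Finsupp.mem_support_iff.2 hκ)⟩

theorem top_unique (hr : SLO r) {a : A} {ν ν' : ℕ} (h : Top r a ν) (h' : Top r a ν') : ν = ν' := by
  rcases h.2 ν' h'.1 with e | e
  · exact e.symm
  · rcases h'.2 ν h.1 with e' | e'
    · exact e'
    · exact (slo_asymm hr e e').elim

theorem top_neg {a : A} {ν : ℕ} (h : Top r a ν) : Top r (-a) ν := by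
  refine ⟨by simpa using h.1, fun κ hκ => h.2 κ (by simpa using hκ)⟩

theorem top_neg_iff {a : A} {ν : ℕ} : Top r (-a) ν ↔ Top r a ν :=
  ⟨fun h => by simpa using top_neg h, top_neg⟩

/-- adding something which lives below the top level -/
theorem top_add_low (hr : SLO r) {a b : A} {ν : ℕ} (h : Top r a ν)
    (hb : ∀ κ, b κ ≠ 0 → r κ ν = true) : Top r (a + b) ν ∧ (a + b) ν = a ν := by
  have hbν : b ν = 0 := by
    by_contra hne
    exact slo_irrefl hr (hb ν hne)
  have e : (a + b) ν = a ν := by rw [Finsupp.add_apply, hbν, add_zero]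
  refine ⟨⟨by rw [e]; exact h.1, fun κ hκ => ?_⟩, e⟩
  rw [Finsupp.add_apply] at hκ
  by_cases h1 : a κ = 0
  · right
    apply hb
    intro h2
    rw [h1, h2] at hκ
    exact hκ (by simp)
  · exact h.2 κ h1

theorem top_add_lt (hr : SLO r) {a b : A} {ν κ : ℕ} (h : Top r a ν) (h' : Top r b κ)
    (hlt : r κ ν = true) : Top r (a + b) ν ∧ (a + b) ν = a ν := by
  apply top_add_low hr h
  intro l hl
  rcases h'.2 l hl with rfl | h2
  · exact hlt
  · exact slo_trans hr h2 hlt

theorem top_add_eq {a b : A} {ν : ℕ} (h : Top r a ν) (h' : Top r b ν)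
    (hne : (a + b) ν ≠ 0) : Top r (a + b) ν := by
  refine ⟨hne, fun κ hκ => ?_⟩
  rw [Finsupp.add_apply] at hκ
  by_cases h1 : a κ = 0
  · have h2 : b κ ≠ 0 := by
      intro h2
      rw [h1, h2] at hκ
      exact hκ (by simp)
    exact h'.2 κ h2
  · exact h.2 κ h1

theorem top_add_cancel (hr : SLO r) {a b : A} {ν : ℕ} (h : Top r a ν) (h' : Top r b ν)
    (h0 : (a + b) ν = 0) : a + b = 0 ∨ ∃ κ, r κ ν = true ∧ Top r (a + b) κ := by
  by_cases hz : a + b = 0
  · exact Or.inl hz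
  · right
    obtain ⟨κ, hκ⟩ := top_exists hr _ hz
    refine ⟨κ, ?_, hκ⟩
    have h1 := hκ.1
    have hne : κ ≠ ν := by
      rintro rfl
      exact h1 h0
    rw [Finsupp.add_apply] at h1
    by_cases h2 : a κ = 0
    · have h3 : b κ ≠ 0 := by
        intro h3
        rw [h2, h3] at h1
        exact h1 (by simp)
      exact (h'.2 κ h3).resolve_left hne
    · exact (h.2 κ h2).resolve_left hne

theorem top_single (r : ℕ → ℕ → Bool) (ν : ℕ) {m : ℤ} (hm : m ≠ 0) :
    Top r (Finsupp.single ν m : A) ν := by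
  refine ⟨by simpa using hm, fun κ hκ => ?_⟩
  left
  by_contra hne
  exact hκ (by rw [Finsupp.single_apply, if_neg (Ne.symm hne)])

lemma sg_ne_zero (b : Bool) : sg b ≠ 0 := by cases b <;> simp [sg]

lemma sg_mul_self (b : Bool) : sg b * sg b = 1 := by cases b <;> simp [sg]

lemma pos_ne_zero {a : A} (h : Pos r ε a) : a ≠ 0 := by
  obtain ⟨ν, h1, _⟩ := h
  exact top_ne_zero h1

lemma not_pos_zero : ¬ Pos r ε (0 : A) := fun h => pos_ne_zero h rfl

lemma pos_iff_of_top (hr : SLO r) {a : A} {ν : ℕ} (h : Top r a ν) :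
    Pos r ε a ↔ 0 < sg (ε ν) * a ν := by
  constructor
  · rintro ⟨κ, h1, h2⟩
    rw [top_unique hr h h1]; exact h2
  · intro h2
    exact ⟨ν, h, h2⟩

theorem pos_total (hr : SLO r) (ε : ℕ → Bool) {a : A} (ha : a ≠ 0) :
    (Pos r ε a ∨ Pos r ε (-a)) ∧ ¬ (Pos r ε a ∧ Pos r ε (-a)) := by
  obtain ⟨ν, hν⟩ := top_exists hr a ha
  rw [pos_iff_of_top hr hν, pos_iff_of_top hr (top_neg hν)]
  have hne : sg (ε ν) * a ν ≠ 0 := mul_ne_zero (sg_ne_zero _) hν.1
  have e : sg (ε ν) * (-a) ν = -(sg (ε ν) * a ν) := by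
    rw [Finsupp.neg_apply]; ring
  rw [e]
  constructor
  · rcases lt_or_gt_of_ne hne with h | h
    · right; omega
    · left; exact h
  · rintro ⟨h1, h2⟩
    omega

theorem pos_add (hr : SLO r) {a b : A} (ha : Pos r ε a) (hb : Pos r ε b) : Pos r ε (a + b) := by
  obtain ⟨ν, h1, h2⟩ := ha
  obtain ⟨κ, h3, h4⟩ := hb
  rcases slo_tri hr ν κ with h | h | h
  · obtain ⟨h5, h6⟩ := top_add_lt hr h3 h1 h
    rw [add_comm] at h5 h6
    exact ⟨κ, h5, by rw [h6]; exact h4⟩
  · subst h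
    have h5 : 0 < sg (ε ν) * (a + b) ν := by
      rw [Finsupp.add_apply, mul_add]; exact add_pos h2 h4
    have h6 : (a + b) ν ≠ 0 := by
      intro h6
      rw [h6, mul_zero] at h5
      exact lt_irrefl _ h5
    exact ⟨ν, top_add_eq h1 h3 h6, h5⟩
  · obtain ⟨h5, h6⟩ := top_add_lt hr h1 h3 h
    exact ⟨ν, h5, by rw [h6]; exact h2⟩

theorem exA_refl (hr : SLO r) (v w : A) : ExA r v w v w := by
  by_cases h : v = w
  · exact Or.inl ⟨h, h⟩
  · obtain ⟨ν, hν⟩ := top_exists hr (w - v) (sub_ne_zero.2 (Ne.symm h))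
    exact Or.inr ⟨ν, hν, hν, rfl⟩

theorem exA_symm {v w v' w' : A} (h : ExA r v w v' w') : ExA r v' w' v w := by
  rcases h with ⟨h1, h2⟩ | ⟨ν, h1, h2, h3⟩
  · exact Or.inl ⟨h2, h1⟩
  · exact Or.inr ⟨ν, h2, h1, h3.symm⟩

theorem exA_trans (hr : SLO r) {v w v' w' v'' w'' : A} (h : ExA r v w v' w')
    (h' : ExA r v' w' v'' w'') : ExA r v w v'' w'' := by
  rcases h with ⟨h1, h2⟩ | ⟨ν, h1, h2, h3⟩
  · rcases h' with ⟨h4, h5⟩ | ⟨κ, h4, h5, h6⟩
    · exact Or.inl ⟨h1, h5⟩
    · exact absurd (sub_eq_zero.2 h2.symm) (top_ne_zero h4)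
  · rcases h' with ⟨h4, h5⟩ | ⟨κ, h4, h5, h6⟩
    · exact absurd (sub_eq_zero.2 h4.symm) (top_ne_zero h2)
    · obtain rfl := top_unique hr h2 h4
      exact Or.inr ⟨ν, h1, h5, h3.trans h6⟩

/-- the reversed pair -/
theorem exA_swap {v w v' w' : A} (h : ExA r v w v' w') : ExA r w v w' v' := by
  rcases h with ⟨h1, h2⟩ | ⟨ν, h1, h2, h3⟩
  · exact Or.inl ⟨h1.symm, h2.symm⟩
  · refine Or.inr ⟨ν, ?_, ?_, ?_⟩
    · have := top_neg h1
      rwa [neg_sub] at this
    · have := top_neg h2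
      rwa [neg_sub] at this
    · have e1 : (v - w) ν = -((w - v) ν) := by simp
      have e2 : (v' - w') ν = -((w' - v') ν) := by simp
      rw [e1, e2, h3]

theorem exA_eq_iff {v w v' w' : A} (h : ExA r v w v' w') : v = w ↔ v' = w' := by
  rcases h with ⟨h1, h2⟩ | ⟨ν, h1, h2, _⟩
  · exact ⟨fun _ => h2, fun _ => h1⟩
  · constructor
    · intro e
      exact absurd (sub_eq_zero.2 e.symm) (top_ne_zero h1)
    · intro e
      exact absurd (sub_eq_zero.2 e.symm) (top_ne_zero h2)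

/-- `ExA` pairs have the same order -/
theorem exA_pos (hr : SLO r) {v w v' w' : A} (h : ExA r v w v' w') :
    Pos r ε (w - v) ↔ Pos r ε (w' - v') := by
  rcases h with ⟨h1, h2⟩ | ⟨ν, h1, h2, h3⟩
  · rw [h1, h2, sub_self, sub_self]
  · rw [pos_iff_of_top hr h1, pos_iff_of_top hr h2, h3]

/-- pairs with the same difference -/
theorem exA_of_sub_eq (hr : SLO r) {v w v' w' : A} (h : w - v = w' - v') : ExA r v w v' w' := by
  by_cases h0 : w - v = 0
  · exact Or.inl ⟨(sub_eq_zero.1 h0).symm, (sub_eq_zero.1 (h ▸ h0)).symm⟩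
  · obtain ⟨ν, hν⟩ := top_exists hr _ h0
    exact Or.inr ⟨ν, hν, h ▸ hν, by rw [h]⟩

/-- translations -/
theorem W_trans (hr : SLO r) (c : A) : W r (Equiv.addRight c) := by
  intro v w
  apply exA_of_sub_eq hr
  simp

theorem W_pos (hr : SLO r) {g : A ≃ A} (hg : W r g) (v w : A) :
    Pos r ε (w - v) ↔ Pos r ε (g w - g v) := exA_pos hr (hg v w)

theorem W_symm {g : A ≃ A} (hg : W r g) : W r g.symm := by
  intro v w
  have := hg (g.symm v) (g.symm w)
  rw [Equiv.apply_symm_apply, Equiv.apply_symm_apply] at this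
  exact exA_symm this

theorem W_comp (hr : SLO r) {g h : A ≃ A} (hg : W r g) (hh : W r h) : W r (g.trans h) := by
  intro v w
  exact exA_trans hr (hg v w) (hh (g v) (g w))

/-- the order on `A` -/
theorem pos_trichotomy (hr : SLO r) (ε : ℕ → Bool) (v w : A) :
    v = w ∨ Pos r ε (w - v) ∨ Pos r ε (v - w) := by
  by_cases h : v = w
  · exact Or.inl h
  · right
    have := (pos_total hr ε (sub_ne_zero.2 (Ne.symm h))).1
    rwa [neg_sub] at this

theorem pos_asymm (hr : SLO r) {a : A} (h : Pos r ε a) (h' : Pos r ε (-a)) : False :=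
  (pos_total hr ε (pos_ne_zero h)).2 ⟨h, h'⟩

theorem pos_trans (hr : SLO r) {u v w : A} (h : Pos r ε (v - u)) (h' : Pos r ε (w - v)) :
    Pos r ε (w - u) := by
  have := pos_add hr h h'
  rwa [show v - u + (w - v) = w - u by abel] at this

/-! The strict linear order `Lt` on `V`. -/

theorem lt_irrefl' (v : V) : ¬ Lt r ε v v := by
  rintro (⟨h1, h2⟩ | ⟨_, h2⟩)
  · rw [h1] at h2; exact Bool.noConfusion h2
  · rw [sub_self] at h2; exact not_pos_zero h2

theorem lt_trans' (hr : SLO r) {u v w : V} (h : Lt r ε u v) (h' : Lt r ε v w) : Lt r ε u w := by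
  rcases h with ⟨h1, h2⟩ | ⟨h1, h2⟩
  · rcases h' with ⟨h3, h4⟩ | ⟨h3, h4⟩
    · rw [h2] at h3; exact Bool.noConfusion h3
    · exact Or.inl ⟨h1, by rw [← h3]; exact h2⟩
  · rcases h' with ⟨h3, h4⟩ | ⟨h3, h4⟩
    · exact Or.inl ⟨by rw [h1]; exact h3, h4⟩
    · exact Or.inr ⟨h1.trans h3, pos_trans hr h2 h4⟩

theorem lt_total' (hr : SLO r) (ε : ℕ → Bool) (u v : V) :
    u = v ∨ Lt r ε u v ∨ Lt r ε v u := by
  rcases u with ⟨a, i⟩
  rcases v with ⟨b, j⟩
  by_cases hij : i = j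
  · subst hij
    rcases pos_trichotomy hr ε a b with h | h | h
    · exact Or.inl (by rw [h])
    · exact Or.inr (Or.inl (Or.inr ⟨rfl, h⟩))
    · exact Or.inr (Or.inr (Or.inr ⟨rfl, h⟩))
  · right
    cases i <;> cases j
    · exact absurd rfl hij
    · exact Or.inl (Or.inl ⟨rfl, rfl⟩)
    · exact Or.inr (Or.inl ⟨rfl, rfl⟩)
    · exact absurd rfl hij

end Pool.Agent.H533R2.OG.P
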