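import Pool.Agent.H533R2.OG.P.HOM
import Pool.Agent.H533R2.OG.DENSE
import Pool.Agent.H533R2.OG.P.TOP

set_option autoImplicit false

/-! ILL: structures on `A` with all order automorphisms of an ill-founded lexicographic order. -/

namespace Pool.Agent.H533R2.OG.P

namespace ILL

variable {r : ℕ → ℕ → Bool} {ε : ℕ → Bool}

/-- the ill-founded part of `r` -/
def C (r : ℕ → ℕ → Bool) : Set ℕ := {n | ¬ Acc (fun m n => r m n = true) n}

lemma C_up {m n : ℕ} (hm : m ∈ C r) (h : r m n = true) : n ∈ C r := fun hn => hm (hn.inv h)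

lemma C_low {n : ℕ} (hn : n ∈ C r) : ∃ m ∈ C r, r m n = true := by
  by_contra hcon
  apply hn
  refine Acc.intro n fun m hm => ?_
  by_contra h
  exact hcon ⟨m, h, hm⟩

lemma D_lt (hr : SLO r) {m n : ℕ} (hm : m ∉ C r) (hn : n ∈ C r) : r m n = true := by
  rcases slo_tri hr m n with h | h | h
  · exact h
  · subst h; exact absurd hn hm
  · exact absurd (C_up hn h) hm

lemma C_of_desc (s : ℕ → ℕ) (hs : ∀ n, r (s (n + 1)) (s n) = true) : s 0 ∈ C r := by
  have key : ∀ x, Acc (fun m n => r m n = true) x → ∀ n, s n = x → False := by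
    intro x hx
    induction hx with
    | intro x _ ih =>
      rintro n rfl
      exact ih (s (n + 1)) (hs n) (n + 1) rfl
  intro h
  exact key _ h 0 rfl

open Classical in
/-- the part in `C` -/
noncomputable def pC (r : ℕ → ℕ → Bool) (a : A) : A := a.filter (fun n => n ∈ C r)

open Classical in
/-- the part outside `C` -/
noncomputable def pD (r : ℕ → ℕ → Bool) (a : A) : A := a.filter (fun n => n ∉ C r)

lemma pC_pos {a : A} {n : ℕ} (h : n ∈ C r) : pC r a n = a n := by
  unfold pC; rw [Finsupp.filter_apply, if_pos h]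

lemma pC_neg {a : A} {n : ℕ} (h : n ∉ C r) : pC r a n = 0 := by
  unfold pC; rw [Finsupp.filter_apply, if_neg h]

lemma pD_pos {a : A} {n : ℕ} (h : n ∉ C r) : pD r a n = a n := by
  unfold pD; rw [Finsupp.filter_apply, if_pos h]

lemma pD_neg {a : A} {n : ℕ} (h : n ∈ C r) : pD r a n = 0 := by
  unfold pD; rw [Finsupp.filter_apply, if_neg (not_not.2 h)]

lemma pCD (a : A) : pD r a + pC r a = a := by
  ext n
  rw [Finsupp.add_apply]
  by_cases h : n ∈ C r
  · rw [pC_pos h, pD_neg h, zero_add]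
  · rw [pC_neg h, pD_pos h, add_zero]

lemma pC_sub (a b : A) : pC r (a - b) = pC r a - pC r b := by
  ext n
  by_cases h : n ∈ C r
  · simp [pC_pos h]
  · simp [pC_neg h]

lemma pD_sub (a b : A) : pD r (a - b) = pD r a - pD r b := by
  ext n
  by_cases h : n ∈ C r
  · simp [pD_neg h]
  · simp [pD_pos h]

lemma top_pC {x : A} {ν : ℕ} (h : Top r x ν) (hν : ν ∈ C r) :
    Top r (pC r x) ν := by
  refine ⟨by rw [pC_pos hν]; exact h.1, fun κ hκ => ?_⟩
  by_cases hC : κ ∈ C r
  · rw [pC_pos hC] at hκ; exact h.2 κ hκ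
  · exact absurd (pC_neg hC) hκ

lemma mem_of_top_pC {x : A} {ν : ℕ} (h : Top r (pC r x) ν) : ν ∈ C r := by
  by_contra hC
  exact h.1 (pC_neg hC)

lemma top_of_pC (hr : SLO r) {x : A} {ν : ℕ} (h : Top r (pC r x) ν) : Top r x ν := by
  have hν := mem_of_top_pC h
  refine ⟨by rw [← pC_pos hν]; exact h.1, fun κ hκ => ?_⟩
  by_cases hC : κ ∈ C r
  · rw [← pC_pos hC] at hκ; exact h.2 κ hκ
  · exact Or.inr (D_lt hr hC hν)

/-- the dense order -/
def B (r : ℕ → ℕ → Bool) : Type := {b : A // pC r b = b}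

instance : Countable (B r) := by unfold B; infer_instance

instance : Nonempty (B r) := ⟨⟨0, by ext n; by_cases h : n ∈ C r <;> simp [pC_pos, pC_neg, h]⟩⟩

/-- the order on `B` -/
def ltB (ε : ℕ → Bool) (b b' : B r) : Prop := Pos r ε (b'.1 - b.1)

lemma sto (hr : SLO r) (ε : ℕ → Bool) : IsStrictTotalOrder (B r) (ltB ε) where
  irrefl b h := by
    unfold ltB at h
    rw [sub_self] at h
    exact not_pos_zero h
  trans a b c h h' := pos_trans hr h h'
  trichotomous a b h h' := by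
    rcases pos_trichotomy hr ε a.1 b.1 with h1 | h1 | h1
    · exact Subtype.ext h1
    · exact absurd h1 h
    · exact absurd h1 h'

/-- the linear order on `B` -/
@[reducible] noncomputable def linB (hr : SLO r) (ε : ℕ → Bool) : LinearOrder (B r) :=
  letI := sto hr ε
  letI : DecidableRel (ltB (r := r) ε) := Classical.decRel _
  linearOrderOfSTO (ltB ε)

lemma pC_idem (a : A) : pC r (pC r a) = pC r a := by
  ext n
  by_cases h : n ∈ C r
  · rw [pC_pos h]
  · rw [pC_neg h, pC_neg h]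

lemma pC_pD (a : A) : pC r (pD r a) = 0 := by
  ext n
  by_cases h : n ∈ C r
  · rw [pC_pos h, pD_neg h]; rfl
  · rw [pC_neg h]; rfl

lemma pD_pC (a : A) : pD r (pC r a) = 0 := by
  ext n
  by_cases h : n ∈ C r
  · rw [pD_neg h]; rfl
  · rw [pD_pos h, pC_neg h]; rfl

lemma pD_idem (a : A) : pD r (pD r a) = pD r a := by
  ext n
  by_cases h : n ∈ C r
  · rw [pD_neg h, pD_neg h]
  · rw [pD_pos h]

lemma pC_add (a b : A) : pC r (a + b) = pC r a + pC r b := by
  ext n
  by_cases h : n ∈ C r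
  · simp [pC_pos h]
  · simp [pC_neg h]

lemma pD_add (a b : A) : pD r (a + b) = pD r a + pD r b := by
  ext n
  by_cases h : n ∈ C r
  · simp [pD_neg h]
  · simp [pD_pos h]

lemma pC_single {n : ℕ} (h : n ∈ C r) (m : ℤ) :
    pC r (Finsupp.single n m : A) = Finsupp.single n m := by
  ext k
  by_cases hk : k ∈ C r
  · rw [pC_pos hk]
  · rw [pC_neg hk, Finsupp.single_apply, if_neg]
    rintro rfl
    exact hk h

lemma pos_single (ε : ℕ → Bool) (n : ℕ) :
    Pos r ε (Finsupp.single n (sg (ε n)) : A) := by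
  refine ⟨n, top_single r n (sg_ne_zero _), ?_⟩
  rw [Finsupp.single_eq_same, sg_mul_self]
  exact one_pos

/-- adding a unit at a level of `C` -/
noncomputable def addB (b : B r) {n : ℕ} (h : n ∈ C r) (m : ℤ) : B r :=
  ⟨b.1 + Finsupp.single n m, by rw [pC_add, pC_single h, b.2]⟩

lemma dense (hr : SLO r) (ε : ℕ → Bool) :
    @DenselyOrdered (B r) (linB hr ε).toLT := by
  letI := linB hr ε
  refine ⟨fun b b' hlt => ?_⟩
  have hlt' : Pos r ε (b'.1 - b.1) := hlt
  obtain ⟨ν, h1, h2⟩ := hlt'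
  have hν : ν ∈ C r := by
    by_contra hC
    apply h1.1
    have e1 : b'.1 ν = 0 := by rw [← b'.2]; exact pC_neg hC
    have e2 : b.1 ν = 0 := by rw [← b.2]; exact pC_neg hC
    rw [Finsupp.sub_apply, e1, e2, sub_zero]
  obtain ⟨m, hm, hmν⟩ := C_low hν
  refine ⟨addB b hm (sg (ε m)), ?_, ?_⟩
  · show Pos r ε ((addB b hm (sg (ε m))).1 - b.1)
    have e : (addB b hm (sg (ε m))).1 - b.1 = Finsupp.single m (sg (ε m)) := by
      show b.1 + Finsupp.single m (sg (ε m)) - b.1 = _
      abel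
    rw [e]; exact pos_single (r := r) ε m
  · show Pos r ε (b'.1 - (addB b hm (sg (ε m))).1)
    have e : b'.1 - (addB b hm (sg (ε m))).1 =
        (b'.1 - b.1) + -(Finsupp.single m (sg (ε m)) : A) := by
      show b'.1 - (b.1 + Finsupp.single m (sg (ε m))) = _
      abel
    rw [e]
    obtain ⟨h3, h4⟩ := top_add_lt hr h1 (top_neg (top_single r m (sg_ne_zero (ε m)))) hmν
    exact ⟨ν, h3, by rw [h4]; exact h2⟩

lemma noMax (hr : SLO r) (ε : ℕ → Bool) {μ : ℕ} (hμ : μ ∈ C r) :
    @NoMaxOrder (B r) (linB hr ε).toLT := by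
  letI := linB hr ε
  refine ⟨fun b => ⟨addB b hμ (sg (ε μ)), ?_⟩⟩
  show Pos r ε ((addB b hμ (sg (ε μ))).1 - b.1)
  have e : (addB b hμ (sg (ε μ))).1 - b.1 = Finsupp.single μ (sg (ε μ)) := by
    show b.1 + Finsupp.single μ (sg (ε μ)) - b.1 = _
    abel
  rw [e]; exact pos_single (r := r) ε μ

lemma noMin (hr : SLO r) (ε : ℕ → Bool) {μ : ℕ} (hμ : μ ∈ C r) :
    @NoMinOrder (B r) (linB hr ε).toLT := by
  letI := linB hr ε
  refine ⟨fun b => ⟨addB b hμ (-sg (ε μ)), ?_⟩⟩
  show Pos r ε (b.1 - (addB b hμ (-sg (ε μ))).1)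
  have e : b.1 - (addB b hμ (-sg (ε μ))).1 = Finsupp.single μ (sg (ε μ)) := by
    show b.1 - (b.1 + Finsupp.single μ (-sg (ε μ))) = _
    rw [Finsupp.single_neg]
    abel
  rw [e]; exact pos_single (r := r) ε μ

/-- the projection to `B` -/
noncomputable def prB (r : ℕ → ℕ → Bool) (a : A) : B r := ⟨pC r a, pC_idem a⟩

lemma pD_B (b : B r) : pD r b.1 = 0 := by rw [← b.2]; exact pD_pC _

lemma prB_mk (a : A) (b : B r) : prB r (pD r a + b.1) = b := by
  apply Subtype.ext
  show pC r (pD r a + b.1) = b.1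
  rw [pC_add, pC_pD, zero_add, b.2]

lemma pD_mk (a : A) (b : B r) : pD r (pD r a + b.1) = pD r a := by
  rw [pD_add, pD_idem, pD_B, add_zero]

/-- the map induced by a permutation of `B` -/
noncomputable def G1 (h : B r ≃ B r) : A ≃ A where
  toFun a := pD r a + (h (prB r a)).1
  invFun a := pD r a + (h.symm (prB r a)).1
  left_inv a := by
    show pD r (pD r a + (h (prB r a)).1) + (h.symm (prB r (pD r a + (h (prB r a)).1))).1 = a
    rw [pD_mk, prB_mk, Equiv.symm_apply_apply]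
    exact pCD a
  right_inv a := by
    show pD r (pD r a + (h.symm (prB r a)).1) + (h (prB r (pD r a + (h.symm (prB r a)).1))).1 = a
    rw [pD_mk, prB_mk, Equiv.apply_symm_apply]
    exact pCD a

lemma G1_apply (h : B r ≃ B r) (a : A) : G1 h a = pD r a + (h (prB r a)).1 := rfl

/-- a `D` part does not matter -/
lemma pos_pD_add (hr : SLO r) (ε : ℕ → Bool) (d : A) {c : A} (hc : pC r c = c) (hne : c ≠ 0) :
    Pos r ε (pD r d + c) ↔ Pos r ε c := by
  obtain ⟨ν, hν⟩ := top_exists hr c hne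
  have h1 : Top r (pC r (pD r d + c)) ν := by
    rw [pC_add, pC_pD, zero_add, hc]; exact hν
  have h2 := top_of_pC hr h1
  have hC := mem_of_top_pC h1
  rw [pos_iff_of_top hr h2, pos_iff_of_top hr hν, Finsupp.add_apply, pD_neg hC, zero_add]

lemma G1_pos (hr : SLO r) (ε : ℕ → Bool) (h : B r ≃ B r)
    (hh : ∀ b b', ltB ε b b' → ltB ε (h b) (h b')) (a b : A) (hab : Pos r ε (b - a)) :
    Pos r ε (G1 h b - G1 h a) := by
  by_cases hC : prB r a = prB r b
  · have e1 : pC r a = pC r b := congrArg Subtype.val hC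
    have e : G1 h b - G1 h a = b - a := by
      rw [G1_apply, G1_apply, hC]
      calc pD r b + (h (prB r b)).1 - (pD r a + (h (prB r b)).1) = pD r b - pD r a := by abel
        _ = (pD r b + pC r b) - (pD r a + pC r a) := by rw [e1]; abel
        _ = b - a := by rw [pCD, pCD]
    rw [e]; exact hab
  · have e1 : b - a = pD r (b - a) + (pC r b - pC r a) := by
      rw [← pC_sub, pCD]
    have hne : pC r b - pC r a ≠ 0 := by
      intro h0
      exact hC (Subtype.ext (sub_eq_zero.1 h0).symm)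
    have h1 : Pos r ε (pC r b - pC r a) := by
      rw [e1, pos_pD_add hr ε _ _ hne] at hab
      · exact hab
      · rw [pC_sub, pC_idem, pC_idem]
    have h2 : ltB ε (h (prB r a)) (h (prB r b)) := hh _ _ h1
    have e2 : G1 h b - G1 h a = pD r (b - a) + ((h (prB r b)).1 - (h (prB r a)).1) := by
      rw [G1_apply, G1_apply, pD_sub]; abel
    rw [e2, pos_pD_add hr ε]
    · exact h2
    · rw [pC_sub, (h (prB r b)).2, (h (prB r a)).2]
    · intro h0
      unfold ltB at h2
      rw [h0] at h2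
      exact not_pos_zero h2

lemma lt_false (a b : A) : Lt r ε (a, false) (b, false) ↔ Pos r ε (b - a) := by
  unfold Lt
  constructor
  · rintro (⟨_, h⟩ | ⟨_, h⟩)
    · exact absurd h (by simp)
    · exact h
  · intro h
    exact Or.inr ⟨rfl, h⟩

lemma far_false {μ : ℕ} {a b : A} (h : Far r μ (a, false) (b, false)) :
    ∃ ν, r ν μ = false ∧ Top r (b - a) ν := by
  rcases h with h | h
  · exact absurd rfl h
  · exact h

lemma eqv_symm {μ : ℕ} {v w v' w' : V} (h : Eqv r ε μ v w v' w') : Eqv r ε μ v' w' v w := by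
  rcases h with ⟨h1, h2, h3⟩ | ⟨h1, h2, h3⟩
  · refine Or.inl ⟨h2, h1, ?_⟩
    rcases h3 with ⟨h4, h5⟩ | ⟨ν, h4, h5, h6, h7⟩
    · exact Or.inl ⟨h5, h4⟩
    · exact Or.inr ⟨ν, h4, h6, h5, h7.symm⟩
  · exact Or.inr ⟨h2, h1, h3.symm⟩

/-- the order of the `C` parts -/
lemma pos_pC (hr : SLO r) {μ : ℕ} (hμ : μ ∈ C r) {a b a' b' : A}
    (h : Eqv r ε μ (a, false) (b, false) (a', false) (b', false))
    (hp : Pos r ε (pC r b - pC r a)) : Pos r ε (pC r b' - pC r a') := by
  rw [← pC_sub] at hp ⊢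
  obtain ⟨ν, h1, h2⟩ := hp
  have hν := mem_of_top_pC h1
  have h3 := top_of_pC hr h1
  rw [pC_pos hν] at h2
  rcases h with ⟨_, _, h4⟩ | ⟨h4, h5, h6⟩
  · rcases h4 with ⟨h4, _⟩ | ⟨ν', _, h5, h6, h7⟩
    · exact absurd (sub_eq_zero.2 h4.symm) (top_ne_zero h3)
    · obtain rfl := top_unique hr h3 h5
      refine ⟨ν, top_pC h6 hν, ?_⟩
      rw [pC_pos hν]
      show 0 < sg (ε ν) * (b' - a') ν
      rw [← h7]; exact h2
  · obtain ⟨ν', h7, h8⟩ := far_false h5
    have hν' : ν' ∈ C r := by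
      rcases (slo_false_iff hr _ _).1 h7 with h | h
      · rw [h]; exact hμ
      · exact C_up hμ h
    have h9 : Pos r ε (b' - a') := (lt_false _ _).1 (h6.1 ((lt_false _ _).2 ⟨ν, h3, h2⟩))
    rw [pos_iff_of_top hr h8] at h9
    exact ⟨ν', top_pC h8 hν', by rw [pC_pos hν']; exact h9⟩

end ILL

open ILL in
/-- ILL -/
theorem ill {r : ℕ → ℕ → Bool} (hr : SLO r) (hd : Desc r) (ε : ℕ → Bool) {ar : ℕ → ℕ}
    (e : ℕ ≃ A) (N : RS ar)
    (hN : ∀ σ : Equiv.Perm ℕ, (∀ m n, Pos r ε (e n - e m) → Pos r ε (e (σ n) - e (σ m))) →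
      ∀ (i : ℕ) (v : Fin (ar i) → ℕ), N i (⇑σ ∘ v) = N i v) :
    ∃ μ, Triv r ε μ e N := by
  obtain ⟨s₀, hs₀⟩ := hd
  have hμ := C_of_desc s₀ hs₀
  set μ := s₀ 0 with hμdef
  refine ⟨μ, fun i s t hst => ?_⟩
  letI := linB hr ε
  haveI := dense hr ε
  haveI := noMax hr ε hμ
  haveI := noMin hr ε hμ
  have hiff : ∀ p q, prB r (e (s p)) < prB r (e (s q)) ↔ prB r (e (t p)) < prB r (e (t q)) := by
    intro p q
    exact ⟨fun h => pos_pC hr hμ (hst p q) h, fun h => pos_pC hr hμ (eqv_symm (hst p q)) h⟩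
  obtain ⟨h, hh⟩ := OG.dense_hom (fun p => prB r (e (s p))) (fun p => prB r (e (t p))) hiff
  have hlt : ∀ b b', ltB ε b b' → ltB ε (h b) (h b') := fun b b' hb => (h.lt_iff_lt).2 hb
  set s' : Fin (ar i) → A := fun p => G1 h.toEquiv (e (s p)) with hs'
  have hs'p : ∀ p, s' p = pD r (e (s p)) + pC r (e (t p)) := by
    intro p
    show pD r (e (s p)) + (h (prB r (e (s p)))).1 = _
    rw [hh p]; rfl
  have heqv : ∀ p q, ExA r (s' p) (s' q) (e (t p)) (e (t q)) := by
    intro p q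
    by_cases hC : prB r (e (t p)) = prB r (e (t q))
    · have hC' : prB r (e (s p)) = prB r (e (s q)) := by
        rcases lt_trichotomy (prB r (e (s p))) (prB r (e (s q))) with h1 | h1 | h1
        · exact absurd ((hiff p q).1 h1) (by rw [hC]; exact lt_irrefl _)
        · exact h1
        · exact absurd ((hiff q p).1 h1) (by rw [hC]; exact lt_irrefl _)
      have e1 : pC r (e (s p)) = pC r (e (s q)) := congrArg Subtype.val hC'
      have e2 : pC r (e (t p)) = pC r (e (t q)) := congrArg Subtype.val hC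
      have e3 : s' q - s' p = e (s q) - e (s p) := by
        rw [hs'p, hs'p, e2]
        calc pD r (e (s q)) + pC r (e (t q)) - (pD r (e (s p)) + pC r (e (t q)))
            = (pD r (e (s q)) + pC r (e (s q))) - (pD r (e (s p)) + pC r (e (s q))) := by abel
          _ = _ := by
            conv_lhs => rw [← e1]
            rw [pCD, e1, pCD]
      have hE : ExA r (s' p) (s' q) (e (s p)) (e (s q)) := exA_of_sub_eq hr e3
      refine exA_trans hr hE ?_
      rcases hst p q with ⟨_, _, h3⟩ | ⟨h1, h2, _⟩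
      · rcases h3 with ⟨h4, h5⟩ | ⟨ν, _, h5, h6, h7⟩
        · exact Or.inl ⟨h4, h5⟩
        · exact Or.inr ⟨ν, h5, h6, h7⟩
      · obtain ⟨ν, h3, h4⟩ := far_false h1
        exfalso
        have hν : ν ∈ C r := by
          rcases (slo_false_iff hr _ _).1 h3 with h | h
          · rw [h]; exact hμ
          · exact C_up hμ h
        have h5 := top_pC h4 hν
        rw [pC_sub, e1, sub_self] at h5
        exact not_top_zero h5
    · have hne : pC r (e (t q)) - pC r (e (t p)) ≠ 0 := by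
        intro h0
        exact hC (Subtype.ext (sub_eq_zero.1 h0).symm)
      obtain ⟨ν, hν⟩ := top_exists hr _ hne
      rw [← pC_sub] at hν
      have hνC := mem_of_top_pC hν
      have e1 : pC r (s' q - s' p) = pC r (e (t q) - e (t p)) := by
        rw [hs'p, hs'p, pC_sub, pC_sub, pC_add, pC_add, pC_pD, pC_pD, pC_idem, pC_idem]
        abel
      refine Or.inr ⟨ν, top_of_pC hr (by rw [e1]; exact hν), top_of_pC hr hν, ?_⟩
      rw [← pC_pos hνC, e1, pC_pos hνC]
  obtain ⟨g, hg, hgs⟩ := P.hom hr s' (fun p => e (t p)) heqv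
  set σ : Equiv.Perm ℕ := (e.trans ((G1 h.toEquiv).trans g)).trans e.symm with hσ
  have hσe : ∀ n, e (σ n) = g (G1 h.toEquiv (e n)) := by
    intro n
    rw [hσ]
    simp
  have h1 := hN σ (by
    intro m n hmn
    rw [hσe, hσe]
    exact (W_pos hr hg _ _).1 (G1_pos hr ε _ hlt _ _ hmn)) i s
  rw [← h1]
  congr 1
  funext p
  apply e.injective
  show e (σ (s p)) = e (t p)
  rw [hσe]
  exact hgs p

end Pool.Agent.H533R2.OG.P
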