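import Pool.Agent.H533R2.OG.Defs

set_option autoImplicit false

/-!
# INVD: the doubled structure is invariant under `W × W`
-/

namespace Pool.Agent.H533R2.OG.P

namespace INVD

theorem top_unique {r : ℕ → ℕ → Bool} (hr : SLO r) {a : A} {ν κ : ℕ} (h1 : Top r a ν)
    (h2 : Top r a κ) : ν = κ := by
  by_contra hne
  have h3 : r κ ν = true := by
    rcases h1.2 κ h2.1 with h | h
    · exact absurd h.symm hne
    · exact h
  have h4 : r ν κ = true := by
    rcases h2.2 ν h1.1 with h | h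
    · exact absurd h hne
    · exact h
  have h5 := hr.2.1 _ _ _ h3 h4
  rw [hr.1 κ] at h5
  exact Bool.false_ne_true h5

theorem top_zero {r : ℕ → ℕ → Bool} {ν : ℕ} : ¬ Top r 0 ν := fun h => h.1 rfl

/-- the map on `V` -/
def G (g : Bool → (A ≃ A)) (v : V) : V := (g v.2 v.1, v.2)

theorem facts {r : ℕ → ℕ → Bool} (hr : SLO r) (g : Bool → (A ≃ A)) (hg : ∀ j, W r (g j))
    (v w : V) (hvw : v.2 = w.2) :
    (∀ ν, Top r (w.1 - v.1) ν ↔ Top r ((G g w).1 - (G g v).1) ν) ∧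
    (∀ ν, Top r (w.1 - v.1) ν → (w.1 - v.1) ν = ((G g w).1 - (G g v).1) ν) ∧
    (v.1 = w.1 ↔ (G g v).1 = (G g w).1) := by
  obtain ⟨v1, v2⟩ := v
  obtain ⟨w1, w2⟩ := w
  simp only at hvw
  subst hvw
  simp only [G]
  rcases hg v2 v1 w1 with ⟨h1, h2⟩ | ⟨ν0, h1, h2, h3⟩
  · subst h1
    simp
  · refine ⟨?_, ?_, ?_⟩
    · intro ν
      constructor
      · intro h
        rw [top_unique hr h h1]
        exact h2
      · intro h
        rw [top_unique hr h h2]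
        exact h1
    · intro ν h
      rw [top_unique hr h h1]
      exact h3
    · constructor
      · intro h
        rw [h]
      · intro h
        exact (g v2).injective h

theorem ex_iff {r : ℕ → ℕ → Bool} (hr : SLO r) (μ : ℕ) (g : Bool → (A ≃ A))
    (hg : ∀ j, W r (g j)) (a b v w : V) :
    Ex r μ a b v w ↔ Ex r μ a b (G g v) (G g w) := by
  unfold Ex
  refine and_congr_right fun _ => ?_
  have h2 : (G g v).2 = v.2 := rfl
  have h3 : (G g w).2 = w.2 := rfl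
  rw [h2, h3]
  refine and_congr_right fun hvw => ?_
  obtain ⟨hT, hc, h0⟩ := facts hr g hg v w hvw
  rw [h0]
  refine or_congr Iff.rfl ?_
  constructor
  · rintro ⟨ν, h4, h5, h6, h7⟩
    exact ⟨ν, h4, h5, (hT ν).1 h6, by rw [h7]; exact hc ν h6⟩
  · rintro ⟨ν, h4, h5, h6, h7⟩
    have h8 := (hT ν).2 h6
    exact ⟨ν, h4, h5, h8, by rw [h7]; exact (hc ν h8).symm⟩

theorem far_iff {r : ℕ → ℕ → Bool} (hr : SLO r) (μ : ℕ) (g : Bool → (A ≃ A))
    (hg : ∀ j, W r (g j)) (v w : V) : Far r μ v w ↔ Far r μ (G g v) (G g w) := by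
  unfold Far
  have h2 : (G g v).2 = v.2 := rfl
  have h3 : (G g w).2 = w.2 := rfl
  rw [h2, h3]
  by_cases hvw : v.2 = w.2
  · obtain ⟨hT, -, -⟩ := facts hr g hg v w hvw
    refine or_congr Iff.rfl ?_
    refine exists_congr fun ν => ?_
    rw [hT ν]
  · exact ⟨fun _ => Or.inl hvw, fun _ => Or.inl hvw⟩

theorem lt_iff {r : ℕ → ℕ → Bool} (hr : SLO r) (ε : ℕ → Bool) (g : Bool → (A ≃ A))
    (hg : ∀ j, W r (g j)) (v w : V) : Lt r ε v w ↔ Lt r ε (G g v) (G g w) := by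
  unfold Lt
  have h2 : (G g v).2 = v.2 := rfl
  have h3 : (G g w).2 = w.2 := rfl
  rw [h2, h3]
  refine or_congr Iff.rfl (and_congr_right fun hvw => ?_)
  obtain ⟨hT, hc, -⟩ := facts hr g hg v w hvw
  unfold Pos
  refine exists_congr fun ν => ?_
  constructor
  · rintro ⟨h4, h5⟩
    refine ⟨(hT ν).1 h4, ?_⟩
    rwa [← hc ν h4]
  · rintro ⟨h4, h5⟩
    have h6 := (hT ν).2 h4
    refine ⟨h6, ?_⟩
    rwa [hc ν h6]

theorem eqv_iff {r : ℕ → ℕ → Bool} (hr : SLO r) (ε : ℕ → Bool) (μ : ℕ) (g : Bool → (A ≃ A))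
    (hg : ∀ j, W r (g j)) (a b v w : V) :
    Eqv r ε μ a b v w ↔ Eqv r ε μ a b (G g v) (G g w) := by
  unfold Eqv
  rw [ex_iff hr μ g hg a b v w, far_iff hr μ g hg v w, lt_iff hr ε g hg v w]

end INVD

/-- INVD -/
theorem dbl_inv {r : ℕ → ℕ → Bool} (hr : SLO r) (ε : ℕ → Bool) {ar : ℕ → ℕ} (e : ℕ ≃ A)
    (e' : ℕ ≃ V) (N : RS ar) (μ : ℕ) (g : Bool → (A ≃ A)) (hg : ∀ j, W r (g j))
    (i : ℕ) (t : Fin (ar i) → ℕ) :
    dbl r ε μ e e' N i (fun p => e'.symm (g (e' (t p)).2 (e' (t p)).1, (e' (t p)).2)) =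
      dbl r ε μ e e' N i t := by
  unfold dbl
  congr 1
  refine propext (exists_congr fun s => ?_)
  refine and_congr_left fun _ => ?_
  refine forall_congr' fun p => forall_congr' fun q => ?_
  rw [Equiv.apply_symm_apply, Equiv.apply_symm_apply]
  exact (INVD.eqv_iff hr ε μ g hg _ _ _ _).symm

end Pool.Agent.H533R2.OG.P
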