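import Pool.Agent.H533R2.OG.Defs

set_option autoImplicit false

/-!
Task MF1: the code of the lexicographic order belongs to `Mset` when the levels are well-ordered.
-/

namespace Pool.Agent.H533R2.OG.P

open Pool.Agent.H533R2.OG

/-- MF1 -/
theorem code_mem {r : ℕ → ℕ → Bool} (hr : SLO r) (hwf : WellFounded (fun m n => r m n = true))
    (e : ℕ ≃ A) (x : ℕ × ℕ → Bool)
    (hx : ∀ m n, x (m, n) = true ↔ (e m = e n ∨ Pos r (fun _ => true) (e n - e m))) :
    x ∈ Mset := by
  classical
  obtain ⟨hirr, htr, htri⟩ := hr
  let s : ℕ → ℕ → Prop := fun m n => r m n = true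
  have hs : IsWellOrder ℕ s :=
    { trichotomous := by
        intro a b h1 h2
        by_contra hne
        rcases htri a b hne with h | h
        · exact h1 h
        · exact h2 h
      wf := hwf }
  have hasym : ∀ m n, r m n = true → r n m = true → False := by
    intro m n h1 h2
    have := htr m n m h1 h2
    rw [hirr] at this
    exact absurd this (by simp)
  let τ : ℕ → Ordinal.{0} := fun n => Ordinal.typein s n
  have hτlt : ∀ m n, τ m < τ n ↔ r m n = true := fun m n => Ordinal.typein_lt_typein s
  have hτinj : Function.Injective τ := Ordinal.typein_injective s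
  have hτα : ∀ n, τ n < Ordinal.type s := fun n => Ordinal.typein_lt_type s n
  have hτsurj : ∀ β, β < Ordinal.type s → ∃ n, τ n = β := fun β hβ => Ordinal.typein_surj s hβ
  let T := Subtype (fun f : (Ordinal.{0} → ℤ) =>
              (∀ β : Ordinal.{0}, f β ≠ 0 → β < Ordinal.type s) ∧ (Function.support f).Finite)
  have hex : ∀ (a : A) (β : Ordinal.{0}), Function.extend τ (⇑a) 0 β ≠ 0 → ∃ n, τ n = β ∧ a n ≠ 0 := by
    intro a β h
    by_cases hβ : ∃ n, τ n = β
    · obtain ⟨n, rfl⟩ := hβ
      rw [hτinj.extend_apply] at h
      exact ⟨n, rfl, h⟩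
    · rw [Function.extend_apply' _ _ _ hβ] at h
      exact absurd rfl h
  let E : A ≃ T :=
    { toFun := fun a => ⟨Function.extend τ (⇑a) 0, by
        intro β hβ
        obtain ⟨n, rfl, -⟩ := hex a β hβ
        exact hτα n, by
        refine (a.support.finite_toSet.image τ).subset ?_
        intro β hβ
        obtain ⟨n, rfl, hn⟩ := hex a β hβ
        exact ⟨n, Finsupp.mem_support_iff.2 hn, rfl⟩⟩
      invFun := fun f => Finsupp.ofSupportFinite (fun n => f.1 (τ n)) (by
        have := f.2.2.preimage (hτinj.injOn (s := τ ⁻¹' Function.support f.1))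
        exact this)
      left_inv := by
        intro a
        ext n
        show Function.extend τ (⇑a) 0 (τ n) = a n
        rw [hτinj.extend_apply]
      right_inv := by
        intro f
        apply Subtype.ext
        funext β
        show Function.extend τ (fun n => f.1 (τ n)) 0 β = f.1 β
        by_cases hβ : ∃ n, τ n = β
        · obtain ⟨n, rfl⟩ := hβ
          rw [hτinj.extend_apply]
        · rw [Function.extend_apply' _ _ _ hβ]
          by_contra hne
          exact hβ (hτsurj β (f.2.1 β (fun h => hne h.symm))) }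
  have hE : ∀ (a : A) (n : ℕ), (E a).1 (τ n) = a n := fun a n => hτinj.extend_apply _ _ _
  have hE0 : ∀ (a : A) (β : Ordinal.{0}), (¬ ∃ n, τ n = β) → (E a).1 β = 0 :=
    fun a β h => Function.extend_apply' _ _ _ h
  have key : ∀ a b : A, Pos r (fun _ => true) (b - a) ↔ ∃ β : Ordinal.{0},
      (E a).1 β < (E b).1 β ∧ ∀ γ : Ordinal.{0}, β < γ → (E a).1 γ = (E b).1 γ := by
    intro a b
    constructor
    · rintro ⟨ν, ⟨h1, h2⟩, h3⟩
      refine ⟨τ ν, ?_, ?_⟩
      · rw [hE, hE]
        simp only [sg, if_true, one_mul, Finsupp.coe_sub, Pi.sub_apply] at h3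
        linarith
      · intro γ hγ
        by_cases hr' : ∃ n, τ n = γ
        · obtain ⟨κ, rfl⟩ := hr'
          rw [hE, hE]
          by_contra hne
          have h4 : (b - a) κ ≠ 0 := by
            rw [Finsupp.coe_sub, Pi.sub_apply]
            intro h
            exact hne (by linarith)
          have h5 := (hτlt ν κ).1 hγ
          rcases h2 κ h4 with h | h
          · rw [h, hirr] at h5
            exact absurd h5 (by simp)
          · exact hasym _ _ h h5
        · rw [hE0 _ _ hr', hE0 _ _ hr']
    · rintro ⟨β, h1, h2⟩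
      have hβ : ∃ n, τ n = β := by
        by_contra hcon
        rw [hE0 _ _ hcon, hE0 _ _ hcon] at h1
        exact absurd h1 (lt_irrefl _)
      obtain ⟨ν, rfl⟩ := hβ
      rw [hE, hE] at h1
      refine ⟨ν, ⟨?_, ?_⟩, ?_⟩
      · rw [Finsupp.coe_sub, Pi.sub_apply]
        omega
      · intro κ hκ
        by_cases hκν : κ = ν
        · exact Or.inl hκν
        · right
          rcases htri κ ν hκν with h | h
          · exact h
          · exfalso
            have := h2 (τ κ) ((hτlt ν κ).2 h)
            rw [hE, hE] at this
            rw [Finsupp.coe_sub, Pi.sub_apply] at hκ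
            omega
      · simp only [sg, if_true, one_mul, Finsupp.coe_sub, Pi.sub_apply]
        omega
  refine ⟨Ordinal.type s, ?_, Or.inl ⟨e.trans E, ?_⟩⟩
  · rw [Ordinal.card_type, Cardinal.mk_nat]
  · intro m n
    rw [hx, key]
    constructor
    · rintro (h | h)
      · left
        show E (e m) = E (e n)
        rw [h]
      · exact Or.inr h
    · rintro (h | h)
      · left
        exact E.injective h
      · exact Or.inr h

end Pool.Agent.H533R2.OG.P
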