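import Pool.Agent.H533R2.OG.Defs

/-!
# Facts on the codes of `ζ^α`, `ζ^α · η`: linear orders with transitive automorphism group
-/

set_option autoImplicit false

namespace Pool.Agent.H533R2.OG.P

/-- The additive group underlying `ζ^α`. -/
private def MF2G (α : Ordinal.{0}) : AddSubgroup (Ordinal.{0} → ℤ) where
  carrier := {f | (∀ β : Ordinal.{0}, f β ≠ 0 → β < α) ∧ (Function.support f).Finite}
  zero_mem' := by
    refine ⟨fun β h => absurd rfl h, ?_⟩
    simp
  add_mem' := by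
    rintro f g ⟨hf1, hf2⟩ ⟨hg1, hg2⟩
    refine ⟨fun β h => ?_, (hf2.union hg2).subset (Function.support_add f g)⟩
    by_cases h0 : f β = 0
    · refine hg1 β fun h1 => h ?_
      simp [h0, h1]
    · exact hf1 β h0
  neg_mem' := by
    rintro f ⟨hf1, hf2⟩
    refine ⟨fun β h => hf1 β fun h0 => h (by simp [h0]), ?_⟩
    rw [Function.support_neg]
    exact hf2

/-- The lexicographic order on functions. -/
private def MF2R (f g : Ordinal.{0} → ℤ) : Prop :=
  ∃ β : Ordinal.{0}, f β < g β ∧ ∀ γ : Ordinal.{0}, β < γ → f γ = g γ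

private theorem MF2R_irrefl (f : Ordinal.{0} → ℤ) : ¬ MF2R f f := by
  rintro ⟨β, h, -⟩
  exact lt_irrefl _ h

private theorem MF2R_trans {f g h : Ordinal.{0} → ℤ} (h1 : MF2R f g) (h2 : MF2R g h) :
    MF2R f h := by
  obtain ⟨β, hb1, hb2⟩ := h1
  obtain ⟨γ, hc1, hc2⟩ := h2
  rcases lt_trichotomy β γ with hlt | heq | hgt
  · refine ⟨γ, ?_, fun δ hδ => ?_⟩
    · rw [hb2 γ hlt]; exact hc1
    · rw [hb2 δ (hlt.trans hδ), hc2 δ hδ]
  · subst heq
    exact ⟨β, hb1.trans hc1, fun δ hδ => by rw [hb2 δ hδ, hc2 δ hδ]⟩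
  · refine ⟨β, ?_, fun δ hδ => ?_⟩
    · rw [← hc2 β hgt]; exact hb1
    · rw [hb2 δ hδ, hc2 δ (hgt.trans hδ)]

private theorem MF2R_total {f g : Ordinal.{0} → ℤ} (hf : (Function.support f).Finite)
    (hg : (Function.support g).Finite) (hne : f ≠ g) : MF2R f g ∨ MF2R g f := by
  classical
  have hfin : (Function.support (fun β => g β - f β)).Finite := by
    refine (hf.union hg).subset fun β hβ => ?_
    by_contra hcon
    simp only [Set.mem_union, Function.mem_support, not_or, not_not] at hcon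
    exact hβ (by simp [hcon.1, hcon.2])
  have hne' : hfin.toFinset.Nonempty := by
    obtain ⟨β, hβ⟩ := Function.ne_iff.1 hne
    refine ⟨β, ?_⟩
    simp only [Set.Finite.mem_toFinset, Function.mem_support]
    intro h0
    exact hβ (by omega)
  have hmax := hfin.toFinset.max'_mem hne'
  set β := hfin.toFinset.max' hne' with hβ
  simp only [Set.Finite.mem_toFinset, Function.mem_support] at hmax
  have hab : ∀ γ : Ordinal.{0}, β < γ → f γ = g γ := by
    intro γ hγ
    by_contra hcon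
    have : γ ∈ hfin.toFinset := by
      simp only [Set.Finite.mem_toFinset, Function.mem_support]
      intro h0
      exact hcon (by omega)
    exact absurd (hfin.toFinset.le_max' γ this) (not_le.2 hγ)
  rcases lt_trichotomy (f β) (g β) with h | h | h
  · exact Or.inl ⟨β, h, hab⟩
  · exact absurd (by omega) hmax
  · exact Or.inr ⟨β, h, fun γ hγ => (hab γ hγ).symm⟩

private theorem MF2R_add (f g c : Ordinal.{0} → ℤ) : MF2R (f + c) (g + c) ↔ MF2R f g := by
  unfold MF2R
  simp only [Pi.add_apply, add_lt_add_iff_right, add_left_inj]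

private theorem MF2_general {B : Type*} (R : B → B → Prop) (hirr : ∀ a, ¬ R a a)
    (htr : ∀ a b c, R a b → R b c → R a c) (htot : ∀ a b, a ≠ b → R a b ∨ R b a)
    (hhom : ∀ a b, ∃ τ : B ≃ B, τ a = b ∧ ∀ p q, R (τ p) (τ q) ↔ R p q)
    (e : ℕ ≃ B) (x : ℕ × ℕ → Bool) (hx : ∀ m n, x (m, n) = true ↔ (e m = e n ∨ R (e m) (e n))) :
    (∀ m, x (m, m) = true) ∧ (∀ l m n, x (l, m) = true → x (m, n) = true → x (l, n) = true) ∧
    (∀ m n, x (m, n) = true → x (n, m) = true → m = n) ∧
    (∀ m n, x (m, n) = true ∨ x (n, m) = true) ∧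
    (∀ m n, ∃ σ : Equiv.Perm ℕ, σ m = n ∧ ∀ p q, x (σ p, σ q) = x (p, q)) := by
  refine ⟨fun m => (hx m m).2 (Or.inl rfl), ?_, ?_, ?_, ?_⟩
  · intro l m n h1 h2
    rw [hx] at h1 h2 ⊢
    rcases h1 with h1 | h1
    · rw [h1]; exact h2
    · rcases h2 with h2 | h2
      · rw [← h2]; exact Or.inr h1
      · exact Or.inr (htr _ _ _ h1 h2)
  · intro m n h1 h2
    rw [hx] at h1 h2
    rcases h1 with h1 | h1
    · exact e.injective h1
    · rcases h2 with h2 | h2
      · exact e.injective h2.symm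
      · exact absurd (htr _ _ _ h1 h2) (hirr _)
  · intro m n
    by_cases h : e m = e n
    · exact Or.inl ((hx m n).2 (Or.inl h))
    · rcases htot _ _ h with h1 | h1
      · exact Or.inl ((hx m n).2 (Or.inr h1))
      · exact Or.inr ((hx n m).2 (Or.inr h1))
  · intro m n
    obtain ⟨τ, h1, h2⟩ := hhom (e m) (e n)
    refine ⟨(e.trans τ).trans e.symm, ?_, fun p q => ?_⟩
    · simp [h1]
    · rw [Bool.eq_iff_iff, hx, hx]
      simp only [Equiv.trans_apply, Equiv.apply_symm_apply, EmbeddingLike.apply_eq_iff_eq, h2]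

theorem code_facts (x : ℕ × ℕ → Bool) (hx : x ∈ Mset) :
    (∀ m, x (m, m) = true) ∧ (∀ l m n, x (l, m) = true → x (m, n) = true → x (l, n) = true) ∧
    (∀ m n, x (m, n) = true → x (n, m) = true → m = n) ∧
    (∀ m n, x (m, n) = true ∨ x (n, m) = true) ∧
    (∀ m n, ∃ σ : Equiv.Perm ℕ, σ m = n ∧ ∀ p q, x (σ p, σ q) = x (p, q)) := by
  obtain ⟨α, -, ⟨e, he⟩ | ⟨e, he⟩⟩ := hx
  · refine MF2_general (B := MF2G α) (fun a b => MF2R a.1 b.1) (fun a => MF2R_irrefl _)
      (fun a b c => MF2R_trans) ?_ ?_ e x he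
    · intro a b hab
      exact MF2R_total a.2.2 b.2.2 fun h => hab (Subtype.ext h)
    · intro a b
      refine ⟨Equiv.addRight (b - a), ?_, fun p q => ?_⟩
      · simp
      · simp only [Equiv.coe_addRight, AddSubgroup.coe_add]
        exact MF2R_add _ _ _
  · refine MF2_general (B := ℚ × MF2G α)
      (fun a b => a.1 < b.1 ∨ (a.1 = b.1 ∧ MF2R a.2.1 b.2.1)) ?_ ?_ ?_ ?_ e x he
    · rintro a (h | ⟨-, h⟩)
      · exact lt_irrefl _ h
      · exact MF2R_irrefl _ h
    · rintro a b c (h | ⟨h1, h2⟩) (h' | ⟨h1', h2'⟩)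
      · exact Or.inl (h.trans h')
      · exact Or.inl (h1' ▸ h)
      · exact Or.inl (h1 ▸ h')
      · exact Or.inr ⟨h1.trans h1', MF2R_trans h2 h2'⟩
    · intro a b hab
      rcases lt_trichotomy a.1 b.1 with h | h | h
      · exact Or.inl (Or.inl h)
      · rcases MF2R_total a.2.2.2 b.2.2.2 (fun h' => hab (Prod.ext h (Subtype.ext h')))
          with h1 | h1
        · exact Or.inl (Or.inr ⟨h, h1⟩)
        · exact Or.inr (Or.inr ⟨h.symm, h1⟩)
      · exact Or.inr (Or.inl h)
    · intro a b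
      refine ⟨(Equiv.addRight (b.1 - a.1)).prodCongr (Equiv.addRight (b.2 - a.2)), ?_,
        fun p q => ?_⟩
      · ext <;> simp
      · simp only [Equiv.prodCongr_apply, Prod.map_fst, Prod.map_snd, Equiv.coe_addRight,
          AddSubgroup.coe_add, add_lt_add_iff_right, add_left_inj, MF2R_add]

end Pool.Agent.H533R2.OG.P
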