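import Pool.Agent.H533R2.OG.Defs

set_option autoImplicit false

/-! RIGID: automorphisms of the doubled lexicographic order preserve the two copies
(proof by helper818). -/

namespace Pool.Agent.H533R2.OG.P

open Pool.Agent.H533R2.OG

namespace RIGID

variable {r : ℕ → ℕ → Bool}

theorem irr (hr : SLO r) {m : ℕ} (h : r m m = true) : False := by
  rw [hr.1 m] at h; exact absurd h (by simp)

theorem asym (hr : SLO r) {m n : ℕ} (h : r m n = true) (h' : r n m = true) : False :=
  irr hr (hr.2.1 _ _ _ h h')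

theorem exists_max (hr : SLO r) (s : Finset ℕ) (hs : s.Nonempty) :
    ∃ ν ∈ s, ∀ κ ∈ s, κ = ν ∨ r κ ν = true := by
  induction hs using Finset.Nonempty.cons_induction with
  | singleton a => exact ⟨a, by simp, fun κ hκ => Or.inl (by simpa using hκ)⟩
  | cons a s ha hs ih =>
    obtain ⟨ν, hν, hm⟩ := ih
    by_cases h : a = ν
    · subst h
      exact absurd hν ha
    · rcases hr.2.2 a ν h with h1 | h1
      · refine ⟨ν, by simp [hν], fun κ hκ => ?_⟩
        rcases Finset.mem_cons.mp hκ with rfl | hκ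
        · exact Or.inr h1
        · exact hm κ hκ
      · refine ⟨a, by simp, fun κ hκ => ?_⟩
        rcases Finset.mem_cons.mp hκ with rfl | hκ
        · exact Or.inl rfl
        · rcases hm κ hκ with rfl | h2
          · exact Or.inr h1
          · exact Or.inr (hr.2.1 _ _ _ h2 h1)

theorem exists_top (hr : SLO r) {a : A} (ha : a ≠ 0) : ∃ ν, Top r a ν := by
  obtain ⟨ν, hν, hm⟩ := exists_max hr a.support (Finsupp.support_nonempty_iff.mpr ha)
  exact ⟨ν, Finsupp.mem_support_iff.mp hν, fun κ hκ => hm κ (Finsupp.mem_support_iff.mpr hκ)⟩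

/-- the support of `a` is below `μ` -/
def Bel (r : ℕ → ℕ → Bool) (μ : ℕ) (a : A) : Prop := ∀ κ, a κ ≠ 0 → r κ μ = true

/-- same class at level `μ` -/
def E (r : ℕ → ℕ → Bool) (μ : ℕ) (x y : V) : Prop := x.2 = y.2 ∧ Bel r μ (y.1 - x.1)

/-- `y` is above `x` with top level `μ` -/
def Pp (r : ℕ → ℕ → Bool) (μ : ℕ) (x y : V) : Prop :=
  x.2 = y.2 ∧ Top r (y.1 - x.1) μ ∧ 0 < (y.1 - x.1) μ

/-- the order -/
abbrev LT (r : ℕ → ℕ → Bool) (x y : V) : Prop := Lt r (fun _ => true) x y

/-- the class of `y` is the successor of the class of `x` -/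
def S (r : ℕ → ℕ → Bool) (μ : ℕ) (x y : V) : Prop :=
  LT r x y ∧ ¬ E r μ x y ∧ ∀ z, (z = x ∨ LT r x z) → (z = y ∨ LT r z y) → E r μ z x ∨ E r μ z y

theorem pos_iff {a : A} : Pos r (fun _ => true) a ↔ ∃ ν, Top r a ν ∧ 0 < a ν := by
  simp [Pos, sg]

theorem E_refl (μ : ℕ) (x : V) : E r μ x x := ⟨rfl, fun κ h => absurd (by simp) h⟩

theorem Pp.lt {μ : ℕ} {x y : V} (h : Pp r μ x y) : LT r x y :=
  Or.inr ⟨h.1, pos_iff.mpr ⟨μ, h.2.1, h.2.2⟩⟩

theorem Pp.trans {μ : ℕ} {x y z : V} (h : Pp r μ x y) (h' : Pp r μ y z) :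
    Pp r μ x z := by
  obtain ⟨h1, h2, h3⟩ := h
  obtain ⟨h1', h2', h3'⟩ := h'
  have e : ∀ κ, (z.1 - x.1) κ = (y.1 - x.1) κ + (z.1 - y.1) κ := by
    intro κ; simp
  refine ⟨h1.trans h1', ⟨?_, ?_⟩, ?_⟩
  · rw [e]; omega
  · intro κ hκ
    rw [e] at hκ
    by_cases ha : (y.1 - x.1) κ = 0
    · have hb : (z.1 - y.1) κ ≠ 0 := by
        intro hb; rw [ha, hb] at hκ; simp at hκ
      exact h2'.2 κ hb
    · exact h2.2 κ ha
  · rw [e]; omega

/-- the base step -/
theorem S_of_one (hr : SLO r) {μ : ℕ} {x y : V} (h1 : x.2 = y.2) (h2 : Top r (y.1 - x.1) μ)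
    (h3 : (y.1 - x.1) μ = 1) : S r μ x y := by
  refine ⟨Or.inr ⟨h1, pos_iff.mpr ⟨μ, h2, by omega⟩⟩, ?_, ?_⟩
  · intro h
    exact irr hr (h.2 μ (by omega))
  · intro z hz hz'
    rcases hz with rfl | hz
    · exact Or.inl (E_refl μ z)
    rcases hz' with rfl | hz'
    · exact Or.inr (E_refl μ z)
    have hzx : x.2 = z.2 ∧ z.2 = y.2 ∧ Pos r (fun _ => true) (z.1 - x.1) ∧
        Pos r (fun _ => true) (y.1 - z.1) := by
      rcases hz with ⟨ha, hb⟩ | ⟨ha, hb⟩
      · rcases hz' with ⟨hc, hd⟩ | ⟨hc, hd⟩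
        · rw [hb] at hc; exact absurd hc (by simp)
        · rw [ha, ← hc, hb] at h1; exact absurd h1 (by simp)
      · rcases hz' with ⟨hc, hd⟩ | ⟨hc, hd⟩
        · rw [ha, hc, hd] at h1; exact absurd h1 (by simp)
        · exact ⟨ha, hc, hb, hd⟩
    obtain ⟨ha, hb, hp, hq⟩ := hzx
    obtain ⟨ν, hν, hνp⟩ := pos_iff.mp hp
    obtain ⟨κ, hκ, hκp⟩ := pos_iff.mp hq
    have e : ∀ i, (y.1 - x.1) i = (z.1 - x.1) i + (y.1 - z.1) i := by
      intro i; simp
    have hν1 : ¬ r μ ν = true := by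
      intro h
      have h0 : (y.1 - x.1) ν = 0 := by
        by_contra h0
        rcases h2.2 ν h0 with h4 | h4
        · subst h4; exact irr hr h
        · exact asym hr h h4
      have hc : (y.1 - z.1) ν ≠ 0 := by have := e ν; omega
      rcases hκ.2 ν hc with h4 | h4
      · subst h4; have := e ν; omega
      · have h5 : r μ κ = true := hr.2.1 _ _ _ h h4
        have h6 : (y.1 - x.1) κ = 0 := by
          by_contra h0
          rcases h2.2 κ h0 with h7 | h7
          · subst h7; exact irr hr h5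
          · exact asym hr h5 h7
        have h8 : (z.1 - x.1) κ ≠ 0 := by have := e κ; omega
        rcases hν.2 κ h8 with h9 | h9
        · subst h9; exact irr hr h4
        · exact asym hr h4 h9
    have hκ1 : ¬ r μ κ = true := by
      intro h
      have h0 : (y.1 - x.1) κ = 0 := by
        by_contra h0
        rcases h2.2 κ h0 with h4 | h4
        · subst h4; exact irr hr h
        · exact asym hr h h4
      have hc : (z.1 - x.1) κ ≠ 0 := by have := e κ; omega
      rcases hν.2 κ hc with h4 | h4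
      · subst h4; have := e κ; omega
      · exact hν1 (hr.2.1 _ _ _ h h4)
    by_cases hνμ : ν = μ
    · subst hνμ
      right
      refine ⟨hb, fun i hi => ?_⟩
      have hκν : κ ≠ ν := by
        rintro rfl
        have := e κ; omega
      have hlt : r κ ν = true := by
        rcases hr.2.2 κ ν hκν with h | h
        · exact h
        · exact absurd h hκ1
      rcases hκ.2 i hi with h | h
      · rw [h]; exact hlt
      · exact hr.2.1 _ _ _ h hlt
    · left
      have hlt : r ν μ = true := by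
        rcases hr.2.2 ν μ hνμ with h | h
        · exact h
        · exact absurd h hν1
      refine ⟨ha.symm, fun i hi => ?_⟩
      have hi' : (z.1 - x.1) i ≠ 0 := by
        intro h; apply hi
        have : (x.1 - z.1) i = -((z.1 - x.1) i) := by simp
        rw [this, h]; simp
      rcases hν.2 i hi' with h | h
      · rw [h]; exact hlt
      · exact hr.2.1 _ _ _ h hlt

theorem sgl_top (μ : ℕ) : Top r (Finsupp.single μ (1:ℤ)) μ := by
  refine ⟨by simp, fun κ hκ => Or.inl ?_⟩
  by_contra h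
  exact hκ (by rw [Finsupp.single_apply, if_neg (fun h' => h h'.symm)])

theorem Pp.of_S (hr : SLO r) {μ : ℕ} {x y : V} (h : S r μ x y) : Pp r μ x y := by
  obtain ⟨h1, h2, h3⟩ := h
  set z : V := (x.1 + Finsupp.single μ 1, x.2) with hz
  have hxz : LT r x z := by
    refine Or.inr ⟨rfl, pos_iff.mpr ⟨μ, ?_, ?_⟩⟩
    · rw [hz]; simpa using sgl_top (r := r) μ
    · rw [hz]; simp
  have hnE : ¬ E r μ z x := by
    intro h
    have := h.2 μ (by rw [hz]; simp)
    exact irr hr this
  rcases h1 with ⟨ha, hb⟩ | ⟨ha, hb⟩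
  · exfalso
    rcases h3 z (Or.inr hxz) (Or.inr (Or.inl ⟨ha, hb⟩)) with h4 | h4
    · exact hnE h4
    · have : x.2 = y.2 := h4.1
      rw [ha, hb] at this; exact absurd this (by simp)
  · obtain ⟨ν, hν, hνp⟩ := pos_iff.mp hb
    by_cases hνμ : ν = μ
    · subst hνμ; exact ⟨ha, hν, hνp⟩
    exfalso
    rcases hr.2.2 ν μ hνμ with h4 | h4
    · apply h2
      refine ⟨ha, fun i hi => ?_⟩
      rcases hν.2 i hi with h5 | h5
      · rw [h5]; exact h4
      · exact hr.2.1 _ _ _ h5 h4
    · have e : ∀ i, (y.1 - z.1) i = (y.1 - x.1) i - (Finsupp.single μ (1:ℤ)) i := by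
        intro i; rw [hz]; simp; ring
      have eν : (y.1 - z.1) ν = (y.1 - x.1) ν := by
        rw [e, Finsupp.single_apply, if_neg (fun h => hνμ h.symm)]; simp
      have htop : Top r (y.1 - z.1) ν := by
        refine ⟨by rw [eν]; exact hν.1, fun i hi => ?_⟩
        by_cases hiμ : i = μ
        · subst hiμ; exact Or.inr h4
        · rw [e, Finsupp.single_apply, if_neg (fun h => hiμ h.symm), sub_zero] at hi
          exact hν.2 i hi
      have hzy : LT r z y := Or.inr ⟨ha, pos_iff.mpr ⟨ν, htop, by rw [eν]; exact hνp⟩⟩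
      rcases h3 z (Or.inr hxz) (Or.inr hzy) with h5 | h5
      · exact hnE h5
      · exact asym hr h4 (h5.2 ν (by rw [eν]; exact hν.1))

theorem transGen_of (hr : SLO r) {μ : ℕ} (n : ℕ) : ∀ {x y : V}, x.2 = y.2 →
    Top r (y.1 - x.1) μ → (y.1 - x.1) μ = (n : ℤ) + 1 → Relation.TransGen (S r μ) x y := by
  induction n with
  | zero =>
    intro x y h1 h2 h3
    exact Relation.TransGen.single (S_of_one hr h1 h2 (by simpa using h3))
  | succ n ih =>
    intro x y h1 h2 h3
    set z : V := (x.1 + Finsupp.single μ 1, x.2) with hz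
    have hS : S r μ x z := by
      refine S_of_one hr rfl ?_ ?_
      · rw [hz]; simpa using sgl_top (r := r) μ
      · rw [hz]; simp
    have e : ∀ i, (y.1 - z.1) i = (y.1 - x.1) i - (Finsupp.single μ (1:ℤ)) i := by
      intro i; rw [hz]; simp; ring
    have e2 : (y.1 - z.1) μ = (n : ℤ) + 1 := by
      rw [e, h3]; simp
    refine Relation.TransGen.head hS (ih (by rw [hz]; exact h1) ⟨by omega, fun i hi => ?_⟩ e2)
    by_cases hiμ : i = μ
    · exact Or.inl hiμ
    · rw [e, Finsupp.single_apply, if_neg (fun h => hiμ h.symm), sub_zero] at hi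
      exact h2.2 i hi

theorem Pp_iff (hr : SLO r) {μ : ℕ} {x y : V} : Pp r μ x y ↔ Relation.TransGen (S r μ) x y := by
  constructor
  · rintro ⟨h1, h2, h3⟩
    obtain ⟨n, hn⟩ := Int.eq_ofNat_of_zero_le (show (0:ℤ) ≤ (y.1 - x.1) μ - 1 by omega)
    exact transGen_of hr n h1 h2 (by omega)
  · intro h
    induction h with
    | single h => exact Pp.of_S hr h
    | tail _ h ih => exact Pp.trans ih (Pp.of_S hr h)

theorem sign_cases (hr : SLO r) {x y : V} (h : x.2 = y.2) :
    x = y ∨ ∃ ν, (y.1 - x.1) ν ≠ 0 ∧ (Pp r ν x y ∨ Pp r ν y x) := by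
  by_cases h0 : y.1 - x.1 = 0
  · left
    exact Prod.ext (sub_eq_zero.mp h0).symm h
  · right
    obtain ⟨ν, hν⟩ := exists_top hr h0
    refine ⟨ν, hν.1, ?_⟩
    rcases lt_or_gt_of_ne hν.1 with h1 | h1
    · right
      have e : ∀ i, (x.1 - y.1) i = -((y.1 - x.1) i) := by intro i; simp
      refine ⟨h.symm, ⟨by rw [e]; omega, fun κ hκ => hν.2 κ ?_⟩, by rw [e]; omega⟩
      rw [e] at hκ; omega
    · left
      exact ⟨h, hν, h1⟩

theorem E_iff (hr : SLO r) {μ : ℕ} {x y : V} :
    E r μ x y ↔ x = y ∨ ∃ ν, r ν μ = true ∧ (Pp r ν x y ∨ Pp r ν y x) := by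
  constructor
  · rintro ⟨h1, h2⟩
    rcases sign_cases hr h1 with h | ⟨ν, h3, h4⟩
    · exact Or.inl h
    · exact Or.inr ⟨ν, h2 ν h3, h4⟩
  · rintro (rfl | ⟨ν, h1, h2 | h2⟩)
    · exact E_refl μ x
    · refine ⟨h2.1, fun i hi => ?_⟩
      rcases h2.2.1.2 i hi with h | h
      · rw [h]; exact h1
      · exact hr.2.1 _ _ _ h h1
    · refine ⟨h2.1.symm, fun i hi => ?_⟩
      have hi' : (x.1 - y.1) i ≠ 0 := by
        have e : (x.1 - y.1) i = -((y.1 - x.1) i) := by simp
        rw [e]; omega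
      rcases h2.2.1.2 i hi' with h | h
      · rw [h]; exact h1
      · exact hr.2.1 _ _ _ h h1

theorem same_iff (hr : SLO r) {x y : V} :
    x.2 = y.2 ↔ x = y ∨ ∃ ν, (Pp r ν x y ∨ Pp r ν y x) := by
  constructor
  · intro h1
    rcases sign_cases hr h1 with h | ⟨ν, h3, h4⟩
    · exact Or.inl h
    · exact Or.inr ⟨ν, h4⟩
  · rintro (rfl | ⟨ν, h2 | h2⟩)
    · rfl
    · exact h2.1
    · exact h2.1.symm

theorem S_pres (g : V ≃ V) (hg : ∀ x y, LT r x y ↔ LT r (g x) (g y)) {μ : ℕ}
    (hE : ∀ x y, E r μ x y ↔ E r μ (g x) (g y)) (x y : V) : S r μ x y ↔ S r μ (g x) (g y) := by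
  unfold S
  rw [← hg x y, ← hE x y]
  refine and_congr_right fun _ => and_congr_right fun _ => ⟨fun h z hz hz' => ?_,
    fun h z hz hz' => ?_⟩
  · obtain ⟨z, rfl⟩ := g.surjective z
    rw [← hE, ← hE]
    apply h z
    · rw [hg x z]; exact hz.imp (fun h => g.injective h) id
    · rw [hg z y]; exact hz'.imp (fun h => g.injective h) id
  · rw [hE z x, hE z y]
    apply h (g z)
    · rw [← hg x z]; exact hz.imp (fun h => by rw [h]) id
    · rw [← hg z y]; exact hz'.imp (fun h => by rw [h]) id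

theorem Pp_pres (hr : SLO r) (g : V ≃ V) (hg : ∀ x y, LT r x y ↔ LT r (g x) (g y)) {μ : ℕ}
    (hE : ∀ x y, E r μ x y ↔ E r μ (g x) (g y)) (x y : V) : Pp r μ x y ↔ Pp r μ (g x) (g y) := by
  rw [Pp_iff hr, Pp_iff hr]
  constructor
  · intro h
    exact Relation.TransGen.lift (p := S r μ) g (fun a b h => (S_pres g hg hE a b).mp h) _ _ h
  · intro h
    have := Relation.TransGen.lift (r := S r μ) (p := S r μ) g.symm (fun a b h => by
      change S r μ (g.symm a) (g.symm b)
      rw [S_pres g hg hE, g.apply_symm_apply, g.apply_symm_apply]; exact h) _ _ h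
    simpa [Function.onFun] using this

theorem E_pres (hr : SLO r) (hwf : WellFounded (fun m n => r m n = true)) (g : V ≃ V)
    (hg : ∀ x y, LT r x y ↔ LT r (g x) (g y)) (μ : ℕ) :
    ∀ x y, E r μ x y ↔ E r μ (g x) (g y) := by
  induction μ using hwf.induction with
  | _ μ ih =>
    intro x y
    rw [E_iff hr, E_iff hr]
    refine or_congr g.injective.eq_iff.symm (exists_congr fun ν => and_congr_right fun hν => ?_)
    exact or_congr (Pp_pres hr g hg (ih ν hν) x y) (Pp_pres hr g hg (ih ν hν) y x)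

end RIGID

open RIGID in
/-- RIGID -/
theorem half_pres {r : ℕ → ℕ → Bool} (hr : SLO r) (hwf : WellFounded (fun m n => r m n = true))
    (g : V ≃ V) (hg : ∀ x y, Lt r (fun _ => true) x y ↔ Lt r (fun _ => true) (g x) (g y)) :
    ∀ x, (g x).2 = x.2 := by
  have hs : ∀ x y : V, x.2 = y.2 ↔ (g x).2 = (g y).2 := by
    intro x y
    rw [same_iff hr, same_iff hr (x := g x)]
    refine or_congr g.injective.eq_iff.symm (exists_congr fun ν => ?_)
    exact or_congr (Pp_pres hr g hg (E_pres hr hwf g hg ν) x y)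
      (Pp_pres hr g hg (E_pres hr hwf g hg ν) y x)
  have key : ∀ x y : V, x.2 = false → y.2 = true → (g x).2 = false ∧ (g y).2 = true := by
    intro x y hx hy
    have h1 : Lt r (fun _ => true) (g x) (g y) := (hg x y).mp (Or.inl ⟨hx, hy⟩)
    rcases h1 with h1 | h1
    · exact h1
    · exfalso
      have := (hs x y).mpr h1.1
      rw [hx, hy] at this
      exact absurd this (by simp)
  intro x
  cases hx : x.2 with
  | false => exact (key x (0, true) hx rfl).1
  | true => exact (key (0, false) x rfl hx).2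

end Pool.Agent.H533R2.OG.P
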