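import Pool.Agent.H533R2.OG.P.SIGN
import Pool.Agent.H533R2.OG.P.RIGID

set_option autoImplicit false

/-! Task NOTR: an order of two copies invariant under `W × W` is not transitive. -/

namespace Pool.Agent.H533R2.OG.P

namespace NOTR

theorem top_exists {r : ℕ → ℕ → Bool} (hr : SLO r) (a : A) (ha : a ≠ 0) : ∃ ν, Top r a ν := by
  have key : ∀ s : Finset ℕ, s.Nonempty → ∃ ν ∈ s, ∀ κ ∈ s, κ = ν ∨ r κ ν = true := by
    intro s hs
    induction hs using Finset.Nonempty.cons_induction with
    | singleton x => exact ⟨x, by simp, fun κ hκ => Or.inl (by simpa using hκ)⟩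
    | cons x s hx _ ih =>
      obtain ⟨ν, hν, h⟩ := ih
      by_cases hxν : x = ν
      · subst hxν; exact absurd hν hx
      · rcases hr.2.2 x ν hxν with h1 | h1
        · refine ⟨ν, Finset.mem_cons.2 (Or.inr hν), fun κ hκ => ?_⟩
          rcases Finset.mem_cons.1 hκ with rfl | hκ
          · exact Or.inr h1
          · exact h κ hκ
        · refine ⟨x, Finset.mem_cons.2 (Or.inl rfl), fun κ hκ => ?_⟩
          rcases Finset.mem_cons.1 hκ with rfl | hκ
          · exact Or.inl rfl
          · rcases h κ hκ with rfl | h2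
            · exact Or.inr h1
            · exact Or.inr (hr.2.1 _ _ _ h2 h1)
  have hs : a.support.Nonempty := Finsupp.support_nonempty_iff.2 ha
  obtain ⟨ν, hν, h⟩ := key a.support hs
  exact ⟨ν, Finsupp.mem_support_iff.1 hν, fun κ hκ => h κ (Finsupp.mem_support_iff.2 hκ)⟩

theorem W_add {r : ℕ → ℕ → Bool} (hr : SLO r) (c : A) : W r (Equiv.addRight c) := by
  intro v w
  by_cases h : v = w
  · exact Or.inl ⟨h, by rw [h]⟩
  · obtain ⟨ν, hν⟩ := top_exists hr (w - v) (sub_ne_zero.2 (Ne.symm h))
    refine Or.inr ⟨ν, hν, ?_, ?_⟩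
    · simpa [Equiv.coe_addRight] using hν
    · simp [Equiv.coe_addRight]

/-- Change of signs. -/
noncomputable def fl (ε : ℕ → Bool) (a : A) : A :=
  Finsupp.onFinset a.support (fun ν => sg (ε ν) * a ν)
    (fun ν h => Finsupp.mem_support_iff.2 (fun h0 => h (by rw [h0, mul_zero])))

theorem fl_apply (ε : ℕ → Bool) (a : A) (ν : ℕ) : fl ε a ν = sg (ε ν) * a ν := rfl

theorem sg_sq (b : Bool) : sg b * sg b = 1 := by cases b <;> simp [sg]

theorem fl_fl (ε : ℕ → Bool) (a : A) : fl ε (fl ε a) = a := by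
  ext ν
  rw [fl_apply, fl_apply, ← mul_assoc, sg_sq, one_mul]

theorem fl_sub (ε : ℕ → Bool) (a b : A) : fl ε a - fl ε b = fl ε (a - b) := by
  ext ν
  simp only [Finsupp.sub_apply, fl_apply, mul_sub]

theorem fl_ne (ε : ℕ → Bool) (a : A) (ν : ℕ) : fl ε a ν ≠ 0 ↔ a ν ≠ 0 := by
  rw [fl_apply]
  have : sg (ε ν) ≠ 0 := by cases ε ν <;> simp [sg]
  simp [this]

theorem top_fl (r : ℕ → ℕ → Bool) (ε : ℕ → Bool) (a : A) (ν : ℕ) :
    Top r (fl ε a) ν ↔ Top r a ν := by
  unfold Top
  simp only [fl_ne]

theorem pos_fl (r : ℕ → ℕ → Bool) (ε : ℕ → Bool) (a : A) :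
    Pos r (fun _ => true) (fl ε a) ↔ Pos r ε a := by
  unfold Pos
  constructor
  · rintro ⟨ν, h1, h2⟩
    refine ⟨ν, (top_fl r ε a ν).1 h1, ?_⟩
    simpa [sg, fl_apply] using h2
  · rintro ⟨ν, h1, h2⟩
    refine ⟨ν, (top_fl r ε a ν).2 h1, ?_⟩
    simpa [sg, fl_apply] using h2

/-- Change of signs in both copies, and possibly an exchange of the copies. -/
noncomputable def ph (ε : Bool → ℕ → Bool) (s : Bool ≃ Bool) : V ≃ V where
  toFun v := (fl (ε v.2) v.1, s v.2)
  invFun v := (fl (ε (s.symm v.2)) v.1, s.symm v.2)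
  left_inv v := by
    rcases v with ⟨a, j⟩
    simp [fl_fl]
  right_inv v := by
    rcases v with ⟨a, j⟩
    simp [fl_fl]

theorem main {r : ℕ → ℕ → Bool} (hr : SLO r) (hwf : WellFounded (fun m n => r m n = true))
    (L : V → V → Prop) (ε : Bool → ℕ → Bool) (s : Bool ≃ Bool)
    (hL : ∀ v w, L v w ↔ Lt r (fun _ => true) (ph ε s v) (ph ε s w)) :
    ∀ g : V ≃ V, (∀ x y, L x y ↔ L (g x) (g y)) → g ((0 : A), false) ≠ ((0 : A), true) := by
  intro g hg hgw
  have h := P.half_pres hr hwf ((ph ε s).symm.trans (g.trans (ph ε s))) (by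
    intro x y
    simp only [Equiv.trans_apply]
    rw [← hL, ← hg, hL, Equiv.apply_symm_apply, Equiv.apply_symm_apply])
  have h1 := h (ph ε s ((0 : A), false))
  simp only [Equiv.trans_apply, Equiv.symm_apply_apply, hgw] at h1
  have h2 : s true = s false := h1
  exact absurd (s.injective h2) (by simp)

end NOTR

/-- NOTR -/
theorem no_trans {r : ℕ → ℕ → Bool} (hr : SLO r) (hwf : WellFounded (fun m n => r m n = true))
    (L : V → V → Prop) (hirr : ∀ a, ¬ L a a) (htr : ∀ a b c, L a b → L b c → L a c)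
    (htot : ∀ a b, a ≠ b → L a b ∨ L b a)
    (hW : ∀ g : Bool → (A ≃ A), (∀ j, W r (g j)) → ∀ a b : V, L a b →
      L (g a.2 a.1, a.2) (g b.2 b.1, b.2)) :
    ∃ v w : V, ∀ g : V ≃ V, (∀ x y, L x y ↔ L (g x) (g y)) → g v ≠ w := by
  have hs : ∀ j : Bool, ∃ ε : ℕ → Bool, ∀ a b : A, L (a, j) (b, j) ↔ Pos r ε (b - a) := by
    intro j
    refine P.sign hr (fun a b => L (a, j) (b, j)) (fun a => hirr _)
      (fun a b c => htr _ _ _) (fun a b hab => htot _ _ (by simpa using hab)) ?_
    intro g hg a b hab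
    exact hW (fun _ => g) (fun _ => hg) (a, j) (b, j) hab
  choose ε hε using hs
  have hcross : ∀ i j : Bool, i ≠ j → ∀ a b a' b' : A, L (a, i) (b, j) → L (a', i) (b', j) := by
    intro i j hij a b a' b' h
    have := hW (fun k => if k = i then Equiv.addRight (a' - a) else Equiv.addRight (b' - b))
      (fun k => by
        by_cases hk : k = i
        · rw [if_pos hk]; exact NOTR.W_add hr _
        · rw [if_neg hk]; exact NOTR.W_add hr _) (a, i) (b, j) h
    simpa [Equiv.coe_addRight, hij.symm] using this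
  have hasym : ∀ a b, L a b → ¬ L b a := fun a b h1 h2 => hirr a (htr _ _ _ h1 h2)
  have hdiag : ∀ (s : Bool ≃ Bool) (a b : A) (j : Bool), L (a, j) (b, j) ↔
      Lt r (fun _ => true) (NOTR.ph ε s (a, j)) (NOTR.ph ε s (b, j)) := by
    intro s a b j
    rw [hε j a b]
    unfold Lt NOTR.ph
    simp only [Equiv.coe_fn_mk, true_and, NOTR.fl_sub, NOTR.pos_fl]
    constructor
    · exact fun h => Or.inr h
    · rintro (⟨h1, h2⟩ | h)
      · rw [h1] at h2; exact absurd h2 (by simp)
      · exact h
  by_cases h0 : L ((0 : A), false) ((0 : A), true)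
  · refine ⟨((0 : A), false), ((0 : A), true), NOTR.main hr hwf L ε (Equiv.refl _) ?_⟩
    rintro ⟨a, i⟩ ⟨b, j⟩
    by_cases hij : i = j
    · subst hij; exact hdiag _ a b i
    · rcases Bool.eq_false_or_eq_true i with hi | hi <;>
        rcases Bool.eq_false_or_eq_true j with hj | hj
      · exact absurd (hi.trans hj.symm) hij
      · subst hi; subst hj
        have h1 : ¬ L (a, true) (b, false) :=
          hasym _ _ (hcross false true (by simp) _ _ b a h0)
        have h2 : ¬ Lt r (fun _ => true) (NOTR.ph ε (Equiv.refl _) (a, true))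
            (NOTR.ph ε (Equiv.refl _) (b, false)) := by
          unfold Lt NOTR.ph; simp
        exact ⟨fun h => absurd h h1, fun h => absurd h h2⟩
      · subst hi; subst hj
        have h1 : L (a, false) (b, true) := hcross false true (by simp) _ _ a b h0
        have h2 : Lt r (fun _ => true) (NOTR.ph ε (Equiv.refl _) (a, false))
            (NOTR.ph ε (Equiv.refl _) (b, true)) := by
          unfold Lt NOTR.ph; simp
        exact ⟨fun _ => h2, fun _ => h1⟩
      · exact absurd (hi.trans hj.symm) hij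
  · have h0' : L ((0 : A), true) ((0 : A), false) := by
      rcases htot ((0 : A), false) ((0 : A), true) (by simp) with h | h
      · exact absurd h h0
      · exact h
    refine ⟨((0 : A), false), ((0 : A), true), NOTR.main hr hwf L ε Equiv.boolNot ?_⟩
    rintro ⟨a, i⟩ ⟨b, j⟩
    by_cases hij : i = j
    · subst hij; exact hdiag _ a b i
    · rcases Bool.eq_false_or_eq_true i with hi | hi <;>
        rcases Bool.eq_false_or_eq_true j with hj | hj
      · exact absurd (hi.trans hj.symm) hij
      · subst hi; subst hj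
        have h1 : L (a, true) (b, false) := hcross true false (by simp) _ _ a b h0'
        have h2 : Lt r (fun _ => true) (NOTR.ph ε Equiv.boolNot (a, true))
            (NOTR.ph ε Equiv.boolNot (b, false)) := by
          unfold Lt NOTR.ph; simp
        exact ⟨fun _ => h2, fun _ => h1⟩
      · subst hi; subst hj
        have h1 : ¬ L (a, false) (b, true) :=
          hasym _ _ (hcross true false (by simp) _ _ b a h0')
        have h2 : ¬ Lt r (fun _ => true) (NOTR.ph ε Equiv.boolNot (a, false))
            (NOTR.ph ε Equiv.boolNot (b, true)) := by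
          unfold Lt NOTR.ph; simp
        exact ⟨fun h => absurd h h1, fun h => absurd h h2⟩
      · exact absurd (hi.trans hj.symm) hij

end Pool.Agent.H533R2.OG.P
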