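import Pool.Agent.H533R2.OG.Defs

set_option autoImplicit false

/-!
# A well-order of `ℕ` of large type (task ORD of MP_09f6a2_lc)
-/

namespace Pool.Agent.H533R2.OG.P

namespace ORD

/-- an order from an injection into the ordinals below `α` -/
lemma rk_of (α : Ordinal.{0}) (f : ℕ ≃ Set.Iio α) :
    ∀ β : Ordinal.{0}, ∀ n : ℕ, β ≤ (f n : Ordinal.{0}) →
      Rk (fun m n => decide ((f m : Ordinal.{0}) < f n)) β n := by
  intro β
  induction β using WellFoundedLT.induction with
  | ind β ih =>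
    intro n hn
    rw [Rk]
    intro β' hβ'
    have h1 : β' < α := (hβ'.trans_le hn).trans (f n).2
    refine ⟨f.symm ⟨β', h1⟩, ?_, ?_⟩
    · simp only [Equiv.apply_symm_apply, decide_eq_true_eq]
      exact hβ'.trans_le hn
    · exact ih β' hβ' _ (by simp)

end ORD

theorem exists_order (δ γ : Ordinal.{0}) (hδ : δ < Ordinal.omega 1) (hγ : γ < Ordinal.omega 1) :
    ∃ r : ℕ → ℕ → Bool, SLO r ∧ WellFounded (fun m n => r m n = true) ∧ (∃ n, Rk r δ n) ∧
      ∀ i, ∃ l : Ordinal.{0} → ℕ, l 0 = i ∧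
        ∀ o o' : Ordinal.{0}, o < o' → o' < γ → r (l o) (l o') = true := by
  set κ : Ordinal.{0} := max δ γ + 1 with hκ
  set α : Ordinal.{0} := Ordinal.omega0 ^ κ with hα
  have hcard : ∀ o : Ordinal.{0}, o < Ordinal.omega 1 → o.card ≤ Cardinal.aleph0 := by
    intro o ho
    exact Cardinal.lt_aleph_one_iff.1 (Cardinal.lt_omega_iff_card_lt.1 ho)
  have hκα : κ ≤ α := Ordinal.right_le_opow κ Ordinal.one_lt_omega0
  have hδα : δ < α := (lt_of_le_of_lt (le_max_left δ γ) (lt_add_one _)).trans_le hκα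
  have hγα : γ < α := (lt_of_le_of_lt (le_max_right δ γ) (lt_add_one _)).trans_le hκα
  have hκc : κ.card ≤ Cardinal.aleph0 := by
    rw [hκ, Ordinal.card_add]
    refine Cardinal.add_le_aleph0.2 ⟨?_, by simp⟩
    rcases max_cases δ γ with h | h
    · rw [h.1]; exact hcard δ hδ
    · rw [h.1]; exact hcard γ hγ
  have hαc : α.card ≤ Cardinal.aleph0 := by
    refine (Ordinal.card_opow_le _ _).trans ?_
    simp [hκc]
  have hαω : Ordinal.omega0 ≤ α := by
    have : Ordinal.omega0 ^ (1 : Ordinal.{0}) ≤ Ordinal.omega0 ^ κ := by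
      apply Ordinal.opow_le_opow_right Ordinal.omega0_pos
      rw [hκ]
      exact le_add_self
    rwa [Ordinal.opow_one] at this
  have hαc' : Cardinal.aleph0 ≤ α.card := by
    have := Ordinal.card_le_card hαω
    simpa using this
  -- the bijection
  have hmk : Cardinal.mk α.ToType = Cardinal.mk ℕ := by
    rw [Cardinal.mk_toType, Cardinal.mk_nat]
    exact le_antisymm hαc hαc'
  obtain ⟨e0⟩ := Cardinal.eq.1 hmk
  let f : ℕ ≃ Set.Iio α := e0.symm.trans (Ordinal.ToType.mk (o := α)).symm.toEquiv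
  refine ⟨fun m n => decide ((f m : Ordinal.{0}) < f n), ⟨fun m => by simp, ?_, ?_⟩, ?_, ?_, ?_⟩
  · intro l m n h1 h2
    simp only [decide_eq_true_eq] at *
    exact h1.trans h2
  · intro m n hmn
    simp only [decide_eq_true_eq]
    refine lt_or_gt_of_ne fun h => hmn ?_
    exact f.injective (Subtype.ext h)
  · simp only [decide_eq_true_eq]
    exact InvImage.wf (fun m => (f m : Ordinal.{0})) Ordinal.lt_wf
  · exact ⟨f.symm ⟨δ, hδα⟩, ORD.rk_of α f δ _ (by simp)⟩
  · intro i
    have hpr : ∀ o, o < α → ∃ n : ℕ, (f n : Ordinal.{0}) = (f i : Ordinal.{0}) + o := by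
      intro o ho
      have h : (f i : Ordinal.{0}) + o ∈ Set.Iio α :=
        Ordinal.isPrincipal_add_omega0_opow κ (f i).2 ho
      exact ⟨f.symm ⟨_, h⟩, by simp⟩
    classical
    choose! g hg using hpr
    refine ⟨g, ?_, ?_⟩
    · have h0 : (0 : Ordinal.{0}) < α := lt_of_le_of_lt (zero_le) hδα
      apply f.injective
      apply Subtype.ext
      rw [hg 0 h0, add_zero]
    · intro o o' hoo' ho'
      have h1 : o' < α := ho'.trans hγα
      have h2 : o < α := hoo'.trans h1
      simp only [decide_eq_true_eq]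
      rw [hg _ h1, hg _ h2]
      exact (add_lt_add_iff_left _).2 hoo'

end Pool.Agent.H533R2.OG.P
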