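import Pool.Agent.H533R2.OG.P.HOM

set_option autoImplicit false

/-!
# SIGN: a linear order invariant under `W r` is a signed lexicographic order
-/

namespace Pool.Agent.H533R2.OG.P

open Pool.Agent.H533R2.OG

theorem sign_top_exists {r : ℕ → ℕ → Bool} (hr : SLO r) (a : A) (ha : a ≠ 0) :
    ∃ ν, Top r a ν := by
  have key : ∀ s : Finset ℕ, s.Nonempty → ∃ ν ∈ s, ∀ κ ∈ s, κ = ν ∨ r κ ν = true := by
    intro s hs
    induction s using Finset.induction_on with
    | empty => exact absurd hs (by simp)
    | insert x s hx ih =>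
      by_cases hs' : s.Nonempty
      · obtain ⟨ν, hν, hmax⟩ := ih hs'
        by_cases hxν : x = ν
        · subst hxν
          exact absurd hν hx
        · rcases hr.2.2 x ν hxν with h | h
          · refine ⟨ν, Finset.mem_insert_of_mem hν, ?_⟩
            intro κ hκ
            rcases Finset.mem_insert.1 hκ with rfl | hκ
            · exact Or.inr h
            · exact hmax κ hκ
          · refine ⟨x, Finset.mem_insert_self _ _, ?_⟩
            intro κ hκ
            rcases Finset.mem_insert.1 hκ with rfl | hκ
            · exact Or.inl rfl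
            · rcases hmax κ hκ with rfl | h'
              · exact Or.inr h
              · exact Or.inr (hr.2.1 _ _ _ h' h)
      · rw [Finset.not_nonempty_iff_eq_empty] at hs'
        subst hs'
        refine ⟨x, Finset.mem_insert_self _ _, ?_⟩
        intro κ hκ
        rcases Finset.mem_insert.1 hκ with rfl | hκ
        · exact Or.inl rfl
        · exact absurd hκ (by simp)
  have hne : a.support.Nonempty := Finsupp.support_nonempty_iff.2 ha
  obtain ⟨ν, hν, hmax⟩ := key a.support hne
  exact ⟨ν, Finsupp.mem_support_iff.1 hν, fun κ hκ => hmax κ (Finsupp.mem_support_iff.2 hκ)⟩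

theorem sign_W_add {r : ℕ → ℕ → Bool} (hr : SLO r) (c : A) : W r (Equiv.addRight c) := by
  intro v w
  by_cases h : v = w
  · exact Or.inl ⟨h, by rw [h]⟩
  · right
    obtain ⟨ν, hν⟩ := sign_top_exists hr (w - v) (sub_ne_zero.2 (Ne.symm h))
    refine ⟨ν, hν, ?_, ?_⟩
    · have : Equiv.addRight c w - Equiv.addRight c v = w - v := by
        simp only [Equiv.coe_addRight]; abel
      rw [this]; exact hν
    · have : Equiv.addRight c w - Equiv.addRight c v = w - v := by
        simp only [Equiv.coe_addRight]; abel
      rw [this]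

theorem sign {r : ℕ → ℕ → Bool} (hr : SLO r) (L : A → A → Prop) (hirr : ∀ a, ¬ L a a)
    (htr : ∀ a b c, L a b → L b c → L a c) (htot : ∀ a b, a ≠ b → L a b ∨ L b a)
    (hW : ∀ g, W r g → ∀ a b, L a b → L (g a) (g b)) :
    ∃ ε : ℕ → Bool, ∀ a b, L a b ↔ Pos r ε (b - a) := by
  classical
  have hadd : ∀ a b c : A, L a b → L (a + c) (b + c) := fun a b c h =>
    hW _ (sign_W_add hr c) a b h
  have h0 : ∀ a b : A, L a b ↔ L 0 (b - a) := by
    intro a b
    constructor
    · intro h
      have := hadd a b (-a) h
      rwa [add_neg_cancel, ← sub_eq_add_neg] at this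
    · intro h
      have := hadd 0 (b - a) a h
      rwa [zero_add, sub_add_cancel] at this
  have hneg : ∀ a : A, a ≠ 0 → (¬ L 0 a ↔ L 0 (-a)) := by
    intro a ha
    constructor
    · intro h
      rcases htot 0 a (Ne.symm ha) with h' | h'
      · exact absurd h' h
      · have := (h0 a 0).1 h'
        rwa [zero_sub] at this
    · intro h h'
      have h2 := hadd 0 (-a) a h
      rw [zero_add, neg_add_cancel] at h2
      exact hirr 0 (htr _ _ _ h' h2)
  have hplus : ∀ a b : A, L 0 a → L 0 b → L 0 (a + b) := by
    intro a b ha hb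
    have := hadd 0 b a hb
    rw [zero_add, add_comm b a] at this
    exact htr _ _ _ ha this
  have hsm : ∀ a : A, L 0 a → ∀ n : ℕ, L 0 ((n + 1) • a) := by
    intro a ha n
    induction n with
    | zero => simpa using ha
    | succ n ih =>
      rw [succ_nsmul]
      exact hplus _ _ ih ha
  -- single coefficients
  have hsingle : ∀ (ν : ℕ) (m : ℤ), m ≠ 0 →
      (L 0 (Finsupp.single ν m) ↔ 0 < sg (decide (L 0 (Finsupp.single ν 1))) * m) := by
    intro ν m hm
    have hpos : ∀ (c : ℤ) (n : ℕ), L 0 (Finsupp.single ν c) →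
        L 0 (Finsupp.single ν (((n : ℤ) + 1) * c)) := by
      intro c n hc
      have := hsm _ hc n
      rw [Finsupp.smul_single] at this
      have he : (n + 1) • c = ((n : ℤ) + 1) * c := by
        rw [nsmul_eq_mul]; push_cast; ring
      rwa [he] at this
    have hmm : ∀ m : ℤ, m ≠ 0 → (¬ L 0 (Finsupp.single ν m) ↔ L 0 (Finsupp.single ν (-m))) := by
      intro m hm
      rw [Finsupp.single_neg]
      exact hneg _ (by simpa using hm)
    by_cases h1 : L 0 (Finsupp.single ν (1 : ℤ))
    · simp only [h1, decide_true, sg, if_true, one_mul]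
      constructor
      · intro h
        by_contra hlt
        have hlt' : m < 0 := lt_of_le_of_ne (not_lt.1 hlt) hm
        obtain ⟨n, hn⟩ : ∃ n : ℕ, -m = (n : ℤ) + 1 := ⟨(-m - 1).toNat, by omega⟩
        have h2 := hpos 1 n h1
        rw [mul_one, ← hn] at h2
        exact (hmm m hm).2 h2 h
      · intro h
        obtain ⟨n, hn⟩ : ∃ n : ℕ, m = (n : ℤ) + 1 := ⟨(m - 1).toNat, by omega⟩
        have h2 := hpos 1 n h1
        rwa [mul_one, ← hn] at h2
    · simp only [h1, decide_false, sg]
      have h1' := (hmm 1 one_ne_zero).1 h1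
      constructor
      · intro h
        by_contra hlt
        have hlt' : 0 < m := by
          rcases lt_or_gt_of_ne hm with h3 | h3
          · exfalso; apply hlt; simp; exact h3
          · exact h3
        obtain ⟨n, hn⟩ : ∃ n : ℕ, m = (n : ℤ) + 1 := ⟨(m - 1).toNat, by omega⟩
        have h2 := hpos (-1) n h1'
        have he : ((n : ℤ) + 1) * (-1) = -m := by rw [hn]; ring
        rw [he] at h2
        exact (hmm m hm).2 h2 h
      · intro h
        have hlt' : m < 0 := by
          simp at h; exact h
        obtain ⟨n, hn⟩ : ∃ n : ℕ, -m = (n : ℤ) + 1 := ⟨(-m - 1).toNat, by omega⟩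
        have h2 := hpos (-1) n h1'
        have he : ((n : ℤ) + 1) * (-1) = m := by rw [← hn]; ring
        rwa [he] at h2
  have htop : ∀ (a : A) (ν : ℕ), Top r a ν → (L 0 a ↔ L 0 (Finsupp.single ν (a ν))) := by
    intro a ν hν
    have hne : a ≠ 0 := fun h => hν.1 (by rw [h]; rfl)
    have hsne : (Finsupp.single ν (a ν) : A) ≠ 0 := by
      simpa using hν.1
    have htn : ∀ b : A, Top r b ν → Top r (-b) ν := by
      intro b hb
      refine ⟨by simpa using hb.1, fun κ hκ => hb.2 κ (by simpa using hκ)⟩
    have hts : Top r (Finsupp.single ν (a ν) : A) ν := by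
      refine ⟨by simpa using hν.1, ?_⟩
      intro κ hκ
      by_cases hk : κ = ν
      · exact Or.inl hk
      · exfalso
        apply hκ
        rw [Finsupp.single_apply, if_neg (Ne.symm hk)]
    obtain ⟨g, hg, hgs⟩ := P.hom hr (k := 2) ![0, a] ![0, Finsupp.single ν (a ν)] (by
      intro p q
      fin_cases p <;> fin_cases q
      · exact Or.inl ⟨rfl, rfl⟩
      · right
        refine ⟨ν, ?_, ?_, ?_⟩
        · simpa using hν
        · simpa using hts
        · simp
      · right
        refine ⟨ν, ?_, ?_, ?_⟩
        · simpa using htn _ hν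
        · simpa using htn _ hts
        · simp
      · exact Or.inl ⟨rfl, rfl⟩)
    have g0 : g 0 = 0 := by simpa using hgs 0
    have ga : g a = Finsupp.single ν (a ν) := by simpa using hgs 1
    constructor
    · intro h
      have := hW g hg _ _ h
      rwa [g0, ga] at this
    · intro h
      by_contra h'
      have h2 := htot 0 a (Ne.symm hne)
      rcases h2 with h2 | h2
      · exact h' h2
      · have := hW g hg _ _ h2
        rw [g0, ga] at this
        exact hirr 0 (htr _ _ _ h this)
  refine ⟨fun ν => decide (L 0 (Finsupp.single ν 1)), ?_⟩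
  intro a b
  rw [h0]
  generalize b - a = c
  by_cases hc : c = 0
  · subst hc
    constructor
    · intro h; exact absurd h (hirr 0)
    · rintro ⟨ν, hν, -⟩
      exact absurd rfl hν.1
  · have huniq : ∀ ν ν', Top r c ν → Top r c ν' → ν = ν' := by
      intro ν ν' h h'
      rcases h.2 ν' h'.1 with e | e
      · exact e.symm
      · rcases h'.2 ν h.1 with e' | e'
        · exact e'
        · have := hr.2.1 _ _ _ e e'
          rw [hr.1] at this
          exact absurd this (by simp)
    obtain ⟨ν, hν⟩ := sign_top_exists hr c hc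
    rw [htop c ν hν, hsingle ν _ hν.1]
    constructor
    · intro h; exact ⟨ν, hν, h⟩
    · rintro ⟨ν', hν', h⟩
      rw [huniq ν ν' hν hν']
      exact h

end Pool.Agent.H533R2.OG.P
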