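import Pool.Agent.H533R2.OG.P.BFE
import Pool.Agent.H533R2.OG.P.BOR
import Pool.Agent.H533R2.OG.P.CLOSED
import Pool.Agent.H533R2.OG.P.CODE
import Pool.Agent.H533R2.OG.P.EXT
import Pool.Agent.H533R2.OG.P.HOM
import Pool.Agent.H533R2.OG.P.ILL
import Pool.Agent.H533R2.OG.P.INVD
import Pool.Agent.H533R2.OG.P.MF1
import Pool.Agent.H533R2.OG.P.MF2
import Pool.Agent.H533R2.OG.P.NOTR
import Pool.Agent.H533R2.OG.P.ORD
import Pool.Agent.H533R2.OG.P.RIGID
import Pool.Agent.H533R2.OG.P.SIGN
import Pool.Agent.H533R2.OG.WFB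

set_option autoImplicit false

/-! Final assembly (helper533). -/

namespace Pool.Agent.H533R2.OG.P

open Set MeasureTheory
open Pool.Agent.H899R2.VP (BF)

theorem top_uniqueF {r : ℕ → ℕ → Bool} (hr : SLO r) {a : A} {ν ν' : ℕ} (h : Top r a ν)
    (h' : Top r a ν') : ν = ν' := by
  rcases h.2 ν' h'.1 with h1 | h1
  · exact h1.symm
  · rcases h'.2 ν h.1 with h2 | h2
    · exact h2
    · have := hr.2.1 _ _ _ h1 h2
      rw [hr.1] at this
      exact absurd this (by simp)

theorem W_posF {r : ℕ → ℕ → Bool} (hr : SLO r) {g : A ≃ A} (hg : W r g) (ε : ℕ → Bool) (v w : A) :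
    Pos r ε (w - v) ↔ Pos r ε (g w - g v) := by
  rcases hg v w with ⟨h1, h2⟩ | ⟨ν, h1, h2, h3⟩
  · subst h1; simp
  · constructor
    · rintro ⟨κ, h4, h5⟩
      obtain rfl := top_uniqueF hr h1 h4
      exact ⟨ν, h2, by rw [← h3]; exact h5⟩
    · rintro ⟨κ, h4, h5⟩
      obtain rfl := top_uniqueF hr h2 h4
      exact ⟨ν, h1, by rw [h3]; exact h5⟩

theorem polish_ofF {X : Type*} [TopologicalSpace X] [h1 : SecondCountableTopology X]
    [h2 : TopologicalSpace.IsCompletelyMetrizableSpace X] : PolishSpace X := { h1, h2 with }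

theorem main_abs {X : Type} [TopologicalSpace X] [PolishSpace X] (c : X → (ℕ × ℕ → Bool))
    (hci : Function.Injective c) (hcM : ∀ x, c x ∈ Mset) (hcS : ∀ y ∈ Mset, ∃ x, c x = y)
    (act : Equiv.Perm ℕ → X → X)
    (hact : ∀ g x, c (act g x) = fun p : ℕ × ℕ => c x (g.symm p.1, g.symm p.2))
    (hcont : @Continuous (Equiv.Perm ℕ × X) X
      (@instTopologicalSpaceProd (Equiv.Perm ℕ) X
        (TopologicalSpace.induced (fun g : Equiv.Perm ℕ => (⇑g : ℕ → ℕ)) inferInstance) _)
      _ (fun p => act p.1 p.2)) : False := by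
  classical
  letI : MeasurableSpace X := borel X
  haveI : BorelSpace X := ⟨rfl⟩
  have h1 : ∀ x, act 1 x = x := fun x => hci (by rw [hact]; rfl)
  have hmul : ∀ g h x, act (g * h) x = act g (act h x) := by
    intro g h x
    apply hci
    rw [hact, hact, hact]
    rfl
  obtain ⟨ar, N, hNm, hNi, hNe⟩ := P.code_exists act h1 hmul hcont
  obtain ⟨hNr, γ, hγ, hcl⟩ := P.closed_code ar N hNm hNi (fun x σ => ⟨act σ x, hNe σ x⟩)
  have aut1 : ∀ (x : X) (σ : Equiv.Perm ℕ), (∀ m n, c x (σ m, σ n) = c x (m, n)) →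
      ∀ (i : ℕ) (v : Fin (ar i) → ℕ), N x i (⇑σ ∘ v) = N x i v := by
    intro x σ h i v
    have h2 : act σ x = x := by
      apply hci
      rw [hact]
      funext p
      have := h (σ.symm p.1) (σ.symm p.2)
      simp only [Equiv.apply_symm_apply] at this
      rw [← this]
    have := hNe σ x i v
    rwa [h2] at this
  have aut2 : ∀ (x : X) (σ : Equiv.Perm ℕ),
      (∀ (i : ℕ) (v : Fin (ar i) → ℕ), N x i (⇑σ ∘ v) = N x i v) →
      ∀ m n, c x (σ m, σ n) = c x (m, n) := by
    intro x σ h m n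
    have h2 : act σ x = x := by
      apply hNi
      funext i w
      have e1 : ⇑σ ∘ (⇑σ.symm ∘ w) = w := by ext; simp
      have e2 := hNe σ x i (⇑σ.symm ∘ w)
      rw [e1] at e2
      rw [e2, ← h i (⇑σ.symm ∘ w), e1]
    have h3 := congrFun (hact σ x) (σ m, σ n)
    rw [h2] at h3
    simpa using h3
  obtain ⟨e⟩ : Nonempty (ℕ ≃ A) := by
    haveI : Infinite A := inferInstance
    haveI := (nonempty_denumerable A).some
    exact ⟨(Denumerable.eqv A).symm⟩
  obtain ⟨e'⟩ : Nonempty (ℕ ≃ V) := by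
    haveI : Infinite V := inferInstance
    haveI := (nonempty_denumerable V).some
    exact ⟨(Denumerable.eqv V).symm⟩
  -- step 4
  have claim4 : ∀ P ∈ Uset e (range N), ¬ Desc P.1 := by
    rintro ⟨r, N'⟩ ⟨hr, hinv, ⟨x, hx⟩, hnt⟩ hd
    simp only at hr hinv hx hnt hd
    subst hx
    obtain ⟨f1, f2, f3, f4, -⟩ := P.code_facts (c x) (hcM x)
    obtain ⟨ε, hε⟩ := P.sign hr (fun a b => c x (e.symm a, e.symm b) = true ∧ a ≠ b)
      (fun a h => h.2 rfl)
      (fun a b d h1 h2 => by
        refine ⟨f2 _ _ _ h1.1 h2.1, fun h => ?_⟩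
        subst h
        exact h1.2 (e.symm.injective (f3 _ _ h1.1 h2.1)))
      (fun a b h => by
        rcases f4 (e.symm a) (e.symm b) with h1 | h1
        · exact Or.inl ⟨h1, h⟩
        · exact Or.inr ⟨h1, h.symm⟩)
      (fun g hg a b h => by
        refine ⟨?_, fun h' => h.2 (g.injective h')⟩
        have := aut2 x ((e.trans g).trans e.symm) (fun i v => (hinv i v _ (fun p q => by
          simp only [Equiv.coe_trans, Function.comp_apply, Equiv.apply_symm_apply]
          exact hg _ _)).symm) (e.symm a) (e.symm b)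
        simp only [Equiv.coe_trans, Function.comp_apply, Equiv.apply_symm_apply] at this
        rw [this]
        exact h.1)
    have hcx : ∀ m n, c x (m, n) = true ↔ (m = n ∨ Pos r ε (e n - e m)) := by
      intro m n
      rw [← hε (e m) (e n)]
      simp only [Equiv.symm_apply_apply]
      constructor
      · intro h
        by_cases hmn : m = n
        · exact Or.inl hmn
        · exact Or.inr ⟨h, fun h' => hmn (e.injective h')⟩
      · rintro (rfl | h)
        · exact f1 _
        · exact h.1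
    obtain ⟨μ, hT⟩ := P.ill hr hd ε e (N x) (by
      intro σ hσ i v
      refine aut1 x σ ?_ i v
      have key : ∀ m n, c x (m, n) = true → c x (σ m, σ n) = true := by
        intro m n h
        rcases (hcx m n).1 h with rfl | h
        · exact f1 _
        · exact (hcx _ _).2 (Or.inr (hσ m n h))
      intro m n
      by_cases h : c x (m, n) = true
      · rw [h, key m n h]
      · have h' : c x (m, n) = false := by simpa using h
        rw [h']
        by_contra h2
        have h2 : c x (σ m, σ n) = true := by simpa using h2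
        have h3 : c x (n, m) = true := (f4 m n).resolve_left h
        have h4 := σ.injective (f3 _ _ h2 (key n m h3))
        subst h4
        exact h (f1 _))
    exact hnt μ ⟨ε, hT⟩
  -- step 5
  have claim5 : ∃ δ : Ordinal.{0}, δ < Ordinal.omega 1 ∧ ∀ P ∈ Uset e (range N), ∀ n,
      ¬ Rk P.1 δ n := by
    by_contra hcon
    push Not at hcon
    have b1 : BorelSpace ((i : ℕ) → (Fin (ar i) → ℕ) → Bool) := inferInstance
    have b2 : BorelSpace (ℕ → ℕ → Bool) := inferInstance
    have b4 : BorelSpace ((ℕ → ℕ → Bool) × RS ar) := inferInstance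
    have b5 : PolishSpace ((ℕ → ℕ → Bool) × RS ar) := polish_ofF
    have han : AnalyticSet (Uset e (range N)) := (P.meas_U e (range N) hNr).analyticSet
    rw [AnalyticSet] at han
    rcases han with he | ⟨f, hf, hfr⟩
    · obtain ⟨P, hP, -⟩ := hcon 0 (Ordinal.omega_pos 1)
      rw [he] at hP
      exact hP
    · obtain ⟨z, hz⟩ := OG.wf_bounding (fun z => (f z).1) (continuous_fst.comp hf) (by
        intro β hβ
        obtain ⟨P, hP, n, hn⟩ := hcon β hβ
        rw [← hfr] at hP
        obtain ⟨z, rfl⟩ := hP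
        exact ⟨z, n, hn⟩)
      exact claim4 (f z) (by rw [← hfr]; exact mem_range_self z) hz
  obtain ⟨δ, hδ, hδU⟩ := claim5
  obtain ⟨r, hr, hwf, ⟨n, hn⟩, htail⟩ := P.exists_order δ γ hδ hγ
  have hmem := P.code_mem hr hwf e
    (fun p => decide (e p.1 = e p.2 ∨ Pos r (fun _ => true) (e p.2 - e p.1)))
    (fun m n => by simp)
  obtain ⟨x, hx⟩ := hcS _ hmem
  have hcx : ∀ m n, c x (m, n) = decide (e m = e n ∨ Pos r (fun _ => true) (e n - e m)) := by
    intro m n; rw [hx]
  have hInv : Inv r e (N x) := by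
    intro i s t h
    obtain ⟨g, hg, hgs⟩ := P.hom hr (fun p => e (s p)) (fun p => e (t p)) h
    have h2 := aut1 x ((e.trans g).trans e.symm) (by
      intro m n
      rw [hcx, hcx]
      simp only [Equiv.coe_trans, Function.comp_apply, Equiv.apply_symm_apply]
      have h3 : (g (e m) = g (e n)) ↔ (e m = e n) := g.injective.eq_iff
      rw [decide_eq_decide, h3, ← W_posF hr hg]) i s
    rw [← h2]
    congr 1
    funext p
    simp only [Equiv.coe_trans, Function.comp_apply]
    rw [hgs p]
    simp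
  have hnot : (r, N x) ∉ Uset e (range N) := fun h => hδU _ h n hn
  have : ∃ μ, ∃ ε, Triv r ε μ e (N x) := by
    by_contra hcon
    push Not at hcon
    exact hnot ⟨hr, hInv, mem_range_self x, fun μ ⟨ε, hT⟩ => hcon μ ε hT⟩
  obtain ⟨μ, ε, hT⟩ := this
  obtain ⟨l, hl0, hl⟩ := htail μ
  obtain ⟨y, hy⟩ := hcl x _ (P.bf_double hr ε e e' (N x) μ hT γ l hl0 hl)
  obtain ⟨f1, f2, f3, f4, f5⟩ := P.code_facts (c y) (hcM y)
  obtain ⟨v, w, hvw⟩ := P.no_trans hr hwf
    (fun a b => c y (e'.symm a, e'.symm b) = true ∧ a ≠ b)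
      (fun a h => h.2 rfl)
      (fun a b d h1 h2 => by
        refine ⟨f2 _ _ _ h1.1 h2.1, fun h => ?_⟩
        subst h
        exact h1.2 (e'.symm.injective (f3 _ _ h1.1 h2.1)))
      (fun a b h => by
        rcases f4 (e'.symm a) (e'.symm b) with h1 | h1
        · exact Or.inl ⟨h1, h⟩
        · exact Or.inr ⟨h1, h.symm⟩)
      (fun g hg a b h => by
        let G : V ≃ V := {
          toFun := fun v => (g v.2 v.1, v.2)
          invFun := fun v => ((g v.2).symm v.1, v.2)
          left_inv := fun v => by simp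
          right_inv := fun v => by simp }
        have := aut2 y ((e'.trans G).trans e'.symm) (fun i t => by
          rw [hy]
          exact P.dbl_inv hr ε e e' (N x) μ g hg i t) (e'.symm a) (e'.symm b)
        simp only [Equiv.coe_trans, Function.comp_apply, Equiv.apply_symm_apply] at this
        refine ⟨?_, fun h' => h.2 (G.injective h')⟩
        rw [← h.1, ← this]
        rfl)
  obtain ⟨σ, hσ1, hσ2⟩ := f5 (e'.symm v) (e'.symm w)
  refine hvw ((e'.symm.trans σ).trans e') (fun a b => ?_) ?_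
  · simp only [Equiv.coe_trans, Function.comp_apply, Equiv.symm_apply_apply]
    rw [hσ2]
    simp
  · simp only [Equiv.coe_trans, Function.comp_apply]
    rw [hσ1]
    simp

theorem no_polish : ¬ ∃ t : TopologicalSpace Mset, @PolishSpace Mset t ∧
        ∃ a : Equiv.Perm ℕ × Mset → Mset,
          (∀ g : Equiv.Perm ℕ, ∀ x : Mset,
            ((a (g, x) : Mset) : ℕ × ℕ → Bool) =
              (fun p : ℕ × ℕ => (x : ℕ × ℕ → Bool) (g.symm p.1, g.symm p.2))) ∧
          @Continuous (Equiv.Perm ℕ × Mset) Mset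
            (@instTopologicalSpaceProd (Equiv.Perm ℕ) Mset
              (TopologicalSpace.induced (fun g : Equiv.Perm ℕ => (⇑g : ℕ → ℕ)) inferInstance) t)
            t a := by
  rintro ⟨t, ht, a, ha, hc⟩
  exact @main_abs Mset t ht (fun x => x.1) (fun x y h => Subtype.ext h) (fun x => x.2)
    (fun y hy => ⟨⟨y, hy⟩, rfl⟩) (fun g x => a (g, x)) ha hc

end Pool.Agent.H533R2.OG.P
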